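import Pool.Graph.R_pool_sql_team_seeded_1acbe0a2.Y853.PZ.Fin
import Pool.Graph.R_seed8.Helper625.Planch

/-!
# Mean square of the increments of a function whose Fourier transform decays
-/

open Filter Topology Set MeasureTheory FourierTransform

namespace Pool.Agent.H592.LI

lemma exp_diff_le {x s : ℝ} (hs0 : 0 ≤ s) (hs2 : s ≤ 2) :
    ‖Complex.exp (Complex.I * x) - 1‖ ^ 2 ≤ 4 * |x| ^ s := by
  have h1 : ‖Complex.exp (Complex.I * x) - 1‖ ≤ |x| := by
    have := Real.norm_exp_I_mul_ofReal_sub_one_le (x := x)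
    rwa [Real.norm_eq_abs] at this
  have h2 : ‖Complex.exp (Complex.I * x) - 1‖ ≤ 2 := by
    refine (norm_sub_le _ _).trans ?_
    rw [mul_comm, Complex.norm_exp_ofReal_mul_I, norm_one]
    norm_num
  have h0 := norm_nonneg (Complex.exp (Complex.I * x) - 1)
  rcases le_total |x| 1 with hx | hx
  · calc ‖Complex.exp (Complex.I * x) - 1‖ ^ 2 ≤ |x| ^ 2 := by gcongr
      _ = |x| ^ (2:ℝ) := by norm_num
      _ ≤ |x| ^ s := Real.rpow_le_rpow_of_exponent_ge' (abs_nonneg x) hx hs0 hs2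
      _ ≤ 4 * |x| ^ s := by
        have : 0 ≤ |x| ^ s := by positivity
        linarith
  · calc ‖Complex.exp (Complex.I * x) - 1‖ ^ 2 ≤ 2 ^ 2 := by gcongr
      _ = 4 * 1 := by norm_num
      _ ≤ 4 * |x| ^ s := by gcongr; exact Real.one_le_rpow hx hs0

lemma fourier_shift {f : ℝ → ℂ} (hf : Integrable f) (h w : ℝ) :
    𝓕 (fun u => f (u + h) - f u) w = (Complex.exp (Complex.I * ((2 * Real.pi * w * h : ℝ) : ℂ)) - 1) * 𝓕 f w := by
  simp only [Real.fourier_real_eq_integral_exp_smul, smul_eq_mul]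
  have i1 : Integrable (fun v => Complex.exp (↑(-2 * Real.pi * v * w) * Complex.I) * f v) := by
    refine Integrable.bdd_mul (c := 1) hf (by fun_prop) (Eventually.of_forall fun v => ?_)
    rw [Complex.norm_exp_ofReal_mul_I]
  have i2 : Integrable (fun v => Complex.exp (↑(-2 * Real.pi * v * w) * Complex.I) * f (v + h)) := by
    refine Integrable.bdd_mul (c := 1) (hf.comp_add_right h) (by fun_prop) (Eventually.of_forall fun v => ?_)
    rw [Complex.norm_exp_ofReal_mul_I]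
  have e1 : ∀ v : ℝ, Complex.exp (↑(-2 * Real.pi * v * w) * Complex.I) * (f (v + h) - f v) =
      Complex.exp (↑(-2 * Real.pi * v * w) * Complex.I) * f (v + h) -
        Complex.exp (↑(-2 * Real.pi * v * w) * Complex.I) * f v := fun v => by ring
  simp_rw [e1]
  rw [integral_sub i2 i1]
  have e2 : ∀ v : ℝ, Complex.exp (↑(-2 * Real.pi * v * w) * Complex.I) * f (v + h) =
      (fun y : ℝ => Complex.exp (Complex.I * ((2 * Real.pi * w * h : ℝ) : ℂ)) *
        (Complex.exp (↑(-2 * Real.pi * y * w) * Complex.I) * f y)) (v + h) := by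
    intro v
    simp only
    rw [← mul_assoc, ← Complex.exp_add]
    congr 2
    push_cast
    ring
  simp_rw [e2]
  rw [integral_add_right_eq_self (μ := (volume : Measure ℝ))
    (fun y : ℝ => Complex.exp (Complex.I * ((2 * Real.pi * w * h : ℝ) : ℂ)) *
        (Complex.exp (↑(-2 * Real.pi * y * w) * Complex.I) * f y)) h, integral_const_mul]
  ring

theorem incr_gen {f : ℝ → ℂ} (hf : Integrable f) (hf2 : MemLp f 2) {M η s : ℝ} (_hM : 0 ≤ M)
    (hb : ∀ w, ‖𝓕 f w‖ ≤ M * (1 + |w|) ^ (η - 1)) (hs0 : 0 ≤ s) (hs : s < 1 - 2 * η) (hη : 0 ≤ η) :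
    ∃ C : ℝ, 0 ≤ C ∧ ∀ h : ℝ, ∫ u, ‖f (u + h) - f u‖ ^ 2 ≤ C * |h| ^ s := by
  have hint : Integrable (fun w : ℝ => (1 + ‖w‖) ^ (-(2 - 2 * η - s))) := by
    refine integrable_one_add_norm ?_
    simp; linarith
  refine ⟨4 * (2 * Real.pi) ^ s * M ^ 2 * ∫ w : ℝ, (1 + ‖w‖) ^ (-(2 - 2 * η - s)), by positivity, fun h => ?_⟩
  have g1 : Integrable (fun u => f (u + h) - f u) := (hf.comp_add_right h).sub hf
  have g2 : MemLp (fun u => f (u + h) - f u) 2 := by
    refine MemLp.sub ?_ hf2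
    exact hf2.comp_measurePreserving (measurePreserving_add_right volume h)
  obtain ⟨p1, p2⟩ := Helper625.Planch.plancherel _ g1 g2
  rw [← p2]
  have e : (4 * (2 * Real.pi) ^ s * M ^ 2 * ∫ w : ℝ, (1 + ‖w‖) ^ (-(2 - 2 * η - s))) * |h| ^ s =
      ∫ w : ℝ, 4 * (2 * Real.pi) ^ s * M ^ 2 * |h| ^ s * (1 + ‖w‖) ^ (-(2 - 2 * η - s)) := by
    rw [integral_const_mul]; ring
  rw [e]
  refine integral_mono (p1.integrable_norm_pow (by norm_num)) (hint.const_mul _) fun w => ?_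
  simp only
  rw [fourier_shift hf, norm_mul, mul_pow]
  have hw : 0 < 1 + |w| := by positivity
  have a1 := exp_diff_le (x := 2 * Real.pi * w * h) hs0 (by linarith)
  have a2 : ‖𝓕 f w‖ ^ 2 ≤ M ^ 2 * (1 + |w|) ^ (2 * η - 2) := by
    calc ‖𝓕 f w‖ ^ 2 ≤ (M * (1 + |w|) ^ (η - 1)) ^ 2 := by gcongr; exact hb w
      _ = _ := by
        rw [mul_pow, ← Real.rpow_mul_natCast hw.le]
        congr 2; push_cast; ring
  have a3 : |2 * Real.pi * w * h| ^ s = (2 * Real.pi) ^ s * |w| ^ s * |h| ^ s := by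
    rw [abs_mul, abs_mul, abs_of_pos (by positivity : (0:ℝ) < 2 * Real.pi),
      Real.mul_rpow (by positivity) (abs_nonneg h), Real.mul_rpow (by positivity) (abs_nonneg w)]
  have a4 : |w| ^ s ≤ (1 + |w|) ^ s := Real.rpow_le_rpow (abs_nonneg w) (by linarith) hs0
  calc ‖Complex.exp (Complex.I * ((2 * Real.pi * w * h : ℝ) : ℂ)) - 1‖ ^ 2 * ‖𝓕 f w‖ ^ 2
      ≤ (4 * |2 * Real.pi * w * h| ^ s) * (M ^ 2 * (1 + |w|) ^ (2 * η - 2)) := by gcongr
    _ = 4 * (2 * Real.pi) ^ s * M ^ 2 * |h| ^ s * (|w| ^ s * (1 + |w|) ^ (2 * η - 2)) := by rw [a3]; ring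
    _ ≤ 4 * (2 * Real.pi) ^ s * M ^ 2 * |h| ^ s * ((1 + |w|) ^ s * (1 + |w|) ^ (2 * η - 2)) := by gcongr
    _ = 4 * (2 * Real.pi) ^ s * M ^ 2 * |h| ^ s * (1 + ‖w‖) ^ (-(2 - 2 * η - s)) := by
      rw [← Real.rpow_add hw, Real.norm_eq_abs]
      congr 2; ring

end Pool.Agent.H592.LI
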