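import Pool.Agent.H592.LI.A1

/-!
# Mean square of the increments of the remainder of the Piltz problem under the Lindelöf hypothesis
-/

open Filter Topology Set MeasureTheory FourierTransform Polynomial
open Pool.Agent.W263.BSD Pool.Agent.Y853.PZ

namespace Pool.Agent.H592.LI

lemma int_of_exp {f : ℝ → ℝ} (hf : Measurable f) {C a : ℝ} (ha : 0 < a) (h0 : ∀ u ≤ 0, f u = 0)
    (h1 : ∀ u, 0 < u → |f u| ≤ C * Real.exp (-(a * u))) : Integrable f := by
  have hi : IntegrableOn f (Ioi 0) := by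
    have h2 : IntegrableOn (fun u => C * Real.exp (-a * u)) (Ioi 0) := (exp_neg_integrableOn_Ioi 0 ha).const_mul C
    refine Integrable.mono' h2 hf.aestronglyMeasurable ?_
    refine (ae_restrict_iff' measurableSet_Ioi).2 (Eventually.of_forall fun u hu => ?_)
    have := h1 u hu
    rw [Real.norm_eq_abs]
    rwa [neg_mul]
  have e : f = (Ioi (0:ℝ)).indicator f := by
    funext u
    by_cases hu : u ∈ Ioi (0:ℝ)
    · rw [indicator_of_mem hu]
    · rw [indicator_of_notMem hu]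
      exact h0 u (not_lt.1 hu)
  rw [e]
  exact (integrable_indicator_iff measurableSet_Ioi).2 hi

/-- the growth of zeta on the Lindelöf hypothesis -/
abbrev LHs : Prop := Pool.Agent.Y853.PZ.Small (1/2)

/-- the weighted remainder -/
noncomputable def ff (k : ℕ) (P : ℝ[X]) (c u : ℝ) : ℝ := dd k P u * Real.exp (-(c * u))

lemma ff_meas (k : ℕ) (P : ℝ[X]) (c : ℝ) : Measurable (ff k P c) := (dd_meas k P).mul (by fun_prop)

lemma dd_bd {k : ℕ} (hk : 1 ≤ k) {P : ℝ[X]} (hP : IsMain k P) (hL : LHs) {ε : ℝ} (hε : 0 < ε) :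
    ∃ C : ℝ, 0 ≤ C ∧ ∀ u : ℝ, 0 < u → |dd k P u| ≤ C * Real.exp ((1/2 + ε) * u) := by
  obtain ⟨C, hC⟩ := sup_of_small hk hP (by norm_num) (by norm_num) hL ε hε
  refine ⟨max C 0, le_max_right _ _, fun u hu => ?_⟩
  rw [dd_eq hu]
  refine (hC _ (Real.one_le_exp hu.le)).trans ?_
  rw [← Real.exp_mul, mul_comm u]
  gcongr
  exact le_max_left _ _

lemma ff_bd {k : ℕ} (hk : 1 ≤ k) {P : ℝ[X]} (hP : IsMain k P) (hL : LHs) {c a : ℝ} (ha : 0 < a) (hc : 1/2 + a < c) :
    ∃ C : ℝ, 0 ≤ C ∧ ∀ u : ℝ, 0 < u → |ff k P c u| ≤ C * Real.exp (-(a * u)) := by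
  obtain ⟨C, hC, h⟩ := dd_bd hk hP hL (ε := c - 1/2 - a) (by linarith)
  refine ⟨C, hC, fun u hu => ?_⟩
  unfold ff
  rw [abs_mul, Real.abs_exp]
  calc |dd k P u| * Real.exp (-(c * u)) ≤ (C * Real.exp ((1/2 + (c - 1/2 - a)) * u)) * Real.exp (-(c * u)) := by
        gcongr; exact h u hu
    _ = C * Real.exp (-(a * u)) := by rw [mul_assoc, ← Real.exp_add]; congr 2; ring

lemma ff_zero (k : ℕ) (P : ℝ[X]) (c : ℝ) {u : ℝ} (hu : u ≤ 0) : ff k P c u = 0 := by
  unfold ff dd; rw [if_neg (not_lt.2 hu)]; ring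

lemma ff_int {k : ℕ} (hk : 1 ≤ k) {P : ℝ[X]} (hP : IsMain k P) (hL : LHs) {c : ℝ} (hc : 1/2 < c) :
    Integrable (ff k P c) := by
  obtain ⟨C, hC, h⟩ := ff_bd hk hP hL (c := c) (a := (c - 1/2) / 2) (by linarith) (by linarith)
  exact int_of_exp (ff_meas k P c) (by linarith : 0 < (c - 1/2) / 2) (fun u hu => ff_zero k P c hu) h

lemma ff_sq {k : ℕ} (hk : 1 ≤ k) {P : ℝ[X]} (hP : IsMain k P) (hL : LHs) {c : ℝ} (hc : 1/2 < c) :
    Integrable (fun u => ff k P c u ^ 2) := by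
  obtain ⟨C, hC, h⟩ := ff_bd hk hP hL (c := c) (a := (c - 1/2) / 2) (by linarith) (by linarith)
  refine int_of_exp (C := C ^ 2) ((ff_meas k P c).pow_const 2) (by linarith : 0 < (c - 1/2)) (fun u hu => by
    rw [ff_zero k P c hu]; norm_num) fun u hu => ?_
  rw [abs_pow]
  calc |ff k P c u| ^ 2 ≤ (C * Real.exp (-((c - 1/2) / 2 * u))) ^ 2 := by gcongr; exact h u hu
    _ = _ := by rw [mul_pow, ← Real.exp_nat_mul]; congr 2; push_cast; ring

lemma dd_lint' {k : ℕ} (hk : 1 ≤ k) {P : ℝ[X]} (hP : IsMain k P) (hL : LHs) : ∀ w > (1/2 : ℝ), LInt (dd k P) w := by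
  intro w hw
  exact (ff_int hk hP hL hw).integrableOn

lemma ff_fourier {k : ℕ} (hk : 1 ≤ k) {P : ℝ[X]} (hP : IsMain k P) (hL : LHs) {c : ℝ} (hc : 1/2 < c) (w : ℝ) :
    𝓕 (fun u => ((ff k P c u : ℝ) : ℂ)) w = Gx k P (c + ((2 * Real.pi * w : ℝ) : ℂ) * Complex.I) := by
  rw [← Gx_eq hk P (a := 1/2) (by norm_num) (dd_lint' hk hP hL) _ (by simp; linarith), ← gk_eq,
    Real.fourier_real_eq_integral_exp_smul]
  congr 1
  funext v
  unfold ff gk
  rw [smul_eq_mul]
  push_cast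
  rw [mul_comm, mul_assoc, ← Complex.exp_add]
  congr 2
  ring

theorem incr_ff {k : ℕ} (hk : 1 ≤ k) {P : ℝ[X]} (hP : IsMain k P) (hL : LHs) {κ : ℝ} (hκ : 0 < κ) (hκ1 : κ ≤ 1)
    {c : ℝ} (hc : 1/2 < c) (hc2 : c < 2) :
    ∃ C : ℝ, 0 ≤ C ∧ ∀ h : ℝ, ∫ u, (ff k P c (u + h) - ff k P c u) ^ 2 ≤ C * |h| ^ (1 - κ) := by
  have hk0 : (0:ℝ) < k := by exact_mod_cast hk
  -- growth of zeta
  obtain ⟨C1, h1⟩ := hL c hc (κ / (4 * k)) (by positivity)
  obtain ⟨C2, hC2, h2⟩ := strip (σ := c) (ε := κ / (4 * k)) (C := C1) (by linarith) hc2 (by positivity) h1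
  have h3 : ∀ z : ℂ, c ≤ z.re → z.re ≤ 2 → 1 ≤ |z.im| → ‖riemannZeta z‖ ^ k ≤ C2 ^ k * |z.im| ^ (κ / 4) := by
    intro z z1 z2 z3
    calc ‖riemannZeta z‖ ^ k ≤ (C2 * |z.im| ^ (κ / (4 * k))) ^ k := by gcongr; exact h2 z z1 z2 z3
      _ = C2 ^ k * |z.im| ^ (κ / 4) := by
        rw [mul_pow, ← Real.rpow_mul_natCast (abs_nonneg _)]
        congr 2; field_simp
  obtain ⟨M, hM, h4⟩ := G_bd hk hP (by linarith : 0 < c) (by positivity) h3 (by positivity)
  have i1 := ff_int hk hP hL hc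
  have i2 := ff_sq hk hP hL hc
  have j1 : Integrable (fun u => ((ff k P c u : ℝ) : ℂ)) := i1.ofReal
  have j2 : MemLp (fun u => ((ff k P c u : ℝ) : ℂ)) 2 := by
    rw [memLp_two_iff_integrable_sq_norm j1.aestronglyMeasurable]
    refine i2.congr (Eventually.of_forall fun u => ?_)
    simp only [Complex.norm_real, Real.norm_eq_abs, sq_abs]
  obtain ⟨C, hC, h5⟩ := incr_gen j1 j2 (M := M) (η := κ / 4) (s := 1 - κ) hM (fun w => by
    rw [ff_fourier hk hP hL hc]
    refine (h4 _ (by simp) (by simp; linarith)).trans ?_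
    have e : ((c:ℂ) + ((2 * Real.pi * w : ℝ) : ℂ) * Complex.I).im = 2 * Real.pi * w := by simp
    rw [e]
    have h6 : |w| ≤ |2 * Real.pi * w| := by
      rw [abs_mul, abs_of_pos (by positivity : (0:ℝ) < 2 * Real.pi)]
      have := Real.pi_gt_three
      nlinarith [abs_nonneg w]
    gcongr ?_ * ?_
    exact Real.rpow_le_rpow_of_nonpos (by positivity) (by linarith) (by linarith)) (by linarith) (by linarith) (by positivity)
  refine ⟨C, hC, fun h => ?_⟩
  refine le_trans (le_of_eq ?_) (h5 h)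
  congr 1
  funext u
  rw [← Complex.ofReal_sub, Complex.norm_real, Real.norm_eq_abs, sq_abs]

/-- increments of the remainder with the weight `exp (-b u)` over a window -/
theorem incr_win {k : ℕ} (hk : 1 ≤ k) {P : ℝ[X]} (hP : IsMain k P) (hL : LHs) {κ : ℝ} (hκ : 0 < κ) (hκ1 : κ ≤ 1)
    {b : ℝ} (hb : b ≤ 1/2) (L : ℝ) (hL0 : 0 ≤ L) :
    ∃ C : ℝ, 0 ≤ C ∧ ∀ U h : ℝ, |h| ≤ 1 → ∫ u in U..(U+L), (ff k P b (u + h) - ff k P b u) ^ 2 ≤
      C * Real.exp ((1 + κ - 2 * b) * U) * |h| ^ (1 - κ) := by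
  obtain ⟨c, rfl⟩ : ∃ c, κ = 2 * c - 1 := ⟨(1 + κ) / 2, by ring⟩
  have hc : 1/2 < c := by linarith
  obtain ⟨C, hC, h1⟩ := incr_ff hk hP hL hκ hκ1 hc (by linarith)
  have i1 := ff_int hk hP hL hc
  have i2 := ff_sq hk hP hL hc
  set a := c - b with ha
  have ha0 : 0 < a := by linarith
  obtain ⟨B, hB⟩ : ∃ B : ℝ, B = ∫ u, ff k P c u ^ 2 := ⟨_, rfl⟩
  have hB0 : 0 ≤ B := by rw [hB]; exact integral_nonneg fun u => sq_nonneg _
  refine ⟨2 * Real.exp (2 * a * L) * (Real.exp (2 * a) * C + (a * Real.exp a) ^ 2 * B), by positivity, fun U h hh => ?_⟩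
  have hbc : ∀ u, ff k P b u = Real.exp (a * u) * ff k P c u := by
    intro u
    unfold ff
    rw [mul_left_comm, ← Real.exp_add]
    congr 2; rw [ha]; ring
  have key : ∀ u ∈ Ioc U (U+L), (ff k P b (u + h) - ff k P b u) ^ 2 ≤
      2 * Real.exp (2 * a * (U + L)) * (Real.exp (2 * a) * (ff k P c (u + h) - ff k P c u) ^ 2 +
        (a * Real.exp a) ^ 2 * |h| ^ (1 - (2 * c - 1)) * ff k P c u ^ 2) := by
    intro u hu
    have e1 : ff k P b (u + h) - ff k P b u = Real.exp (a * u) * (Real.exp (a * h) * (ff k P c (u + h) - ff k P c u) +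
        (Real.exp (a * h) - 1) * ff k P c u) := by
      rw [hbc, hbc, mul_add, Real.exp_add]; ring
    have e2 : |Real.exp (a * h) - 1| ≤ a * Real.exp a * |h| := by
      have q1 : |a * h| ≤ a := by rw [abs_mul, abs_of_pos ha0]; nlinarith [abs_nonneg h]
      have q2 : |Real.exp (a * h) - 1| ≤ |a * h| * Real.exp |a * h| := by
        rcases le_total 0 (a * h) with q | q
        · rw [abs_of_nonneg (by linarith [Real.add_one_le_exp (a*h)]), abs_of_nonneg q]
          have := Real.add_one_le_exp (-(a * h))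
          have q4 : 0 < Real.exp (a * h) := Real.exp_pos _
          have q5 : Real.exp (a * h) * Real.exp (-(a * h)) = 1 := by rw [← Real.exp_add]; simp
          nlinarith
        · rw [abs_of_nonpos (by linarith [Real.exp_le_one_iff.2 q]), abs_of_nonpos q]
          have := Real.add_one_le_exp (a * h)
          have q4 : 1 ≤ Real.exp (-(a * h)) := Real.one_le_exp (by linarith)
          nlinarith
      calc |Real.exp (a * h) - 1| ≤ |a * h| * Real.exp |a * h| := q2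
        _ ≤ |a * h| * Real.exp a := by gcongr
        _ = a * Real.exp a * |h| := by rw [abs_mul, abs_of_pos ha0]; ring
    have e3 : Real.exp (a * h) ^ 2 ≤ Real.exp (2 * a) := by
      rw [← Real.exp_nat_mul]
      apply Real.exp_le_exp.2
      push_cast
      have := (abs_le.1 hh).2
      nlinarith
    have e4 : |h| ^ 2 ≤ |h| ^ (1 - (2 * c - 1)) := by
      rw [← Real.rpow_natCast]
      exact Real.rpow_le_rpow_of_exponent_ge' (abs_nonneg h) hh (by linarith) (by push_cast; linarith)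
    have e5 : (Real.exp (a * h) - 1) ^ 2 ≤ (a * Real.exp a) ^ 2 * |h| ^ (1 - (2 * c - 1)) := by
      rw [← sq_abs]
      calc |Real.exp (a * h) - 1| ^ 2 ≤ (a * Real.exp a * |h|) ^ 2 := by gcongr
        _ = (a * Real.exp a) ^ 2 * |h| ^ 2 := by ring
        _ ≤ _ := by gcongr
    have e6 : Real.exp (a * u) ^ 2 ≤ Real.exp (2 * a * (U + L)) := by
      rw [← Real.exp_nat_mul]
      apply Real.exp_le_exp.2
      push_cast
      have := hu.2
      nlinarith
    rw [e1, mul_pow]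
    have e7 : (Real.exp (a * h) * (ff k P c (u + h) - ff k P c u) + (Real.exp (a * h) - 1) * ff k P c u) ^ 2 ≤
        2 * (Real.exp (a * h) ^ 2 * (ff k P c (u + h) - ff k P c u) ^ 2 + (Real.exp (a * h) - 1) ^ 2 * ff k P c u ^ 2) := by
      nlinarith [sq_nonneg (Real.exp (a * h) * (ff k P c (u + h) - ff k P c u) - (Real.exp (a * h) - 1) * ff k P c u)]
    calc Real.exp (a * u) ^ 2 * (Real.exp (a * h) * (ff k P c (u + h) - ff k P c u) + (Real.exp (a * h) - 1) * ff k P c u) ^ 2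
        ≤ Real.exp (2 * a * (U + L)) * (2 * (Real.exp (a * h) ^ 2 * (ff k P c (u + h) - ff k P c u) ^ 2 +
          (Real.exp (a * h) - 1) ^ 2 * ff k P c u ^ 2)) := by gcongr
      _ ≤ Real.exp (2 * a * (U + L)) * (2 * (Real.exp (2 * a) * (ff k P c (u + h) - ff k P c u) ^ 2 +
          ((a * Real.exp a) ^ 2 * |h| ^ (1 - (2 * c - 1))) * ff k P c u ^ 2)) := by gcongr
      _ = _ := by ring
  have s1 : Integrable (fun u => (ff k P c (u + h) - ff k P c u) ^ 2) := by
    have m1 : MemLp (ff k P c) 2 := (memLp_two_iff_integrable_sq i1.aestronglyMeasurable).2 i2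
    have m2 : MemLp (fun u => ff k P c (u + h)) 2 := m1.comp_measurePreserving (measurePreserving_add_right volume h)
    exact (m2.sub m1).integrable_sq
  have s2 : Integrable (fun u => 2 * Real.exp (2 * a * (U + L)) * (Real.exp (2 * a) * (ff k P c (u + h) - ff k P c u) ^ 2 +
        (a * Real.exp a) ^ 2 * |h| ^ (1 - (2 * c - 1)) * ff k P c u ^ 2)) :=
    ((s1.const_mul _).add (i2.const_mul _)).const_mul _
  have s0 : ∀ u, 0 ≤ 2 * Real.exp (2 * a * (U + L)) * (Real.exp (2 * a) * (ff k P c (u + h) - ff k P c u) ^ 2 +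
        (a * Real.exp a) ^ 2 * |h| ^ (1 - (2 * c - 1)) * ff k P c u ^ 2) := fun u => by positivity
  rw [intervalIntegral.integral_of_le (by linarith)]
  calc ∫ u in Ioc U (U+L), (ff k P b (u + h) - ff k P b u) ^ 2
      ≤ ∫ u in Ioc U (U+L), 2 * Real.exp (2 * a * (U + L)) * (Real.exp (2 * a) * (ff k P c (u + h) - ff k P c u) ^ 2 +
        (a * Real.exp a) ^ 2 * |h| ^ (1 - (2 * c - 1)) * ff k P c u ^ 2) := by
        refine integral_mono_of_nonneg (Eventually.of_forall fun u => sq_nonneg _) s2.integrableOn ?_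
        exact (ae_restrict_iff' measurableSet_Ioc).2 (Eventually.of_forall key)
    _ ≤ ∫ u, 2 * Real.exp (2 * a * (U + L)) * (Real.exp (2 * a) * (ff k P c (u + h) - ff k P c u) ^ 2 +
        (a * Real.exp a) ^ 2 * |h| ^ (1 - (2 * c - 1)) * ff k P c u ^ 2) :=
        setIntegral_le_integral s2 (Eventually.of_forall s0)
    _ = 2 * Real.exp (2 * a * (U + L)) * (Real.exp (2 * a) * (∫ u, (ff k P c (u + h) - ff k P c u) ^ 2) +
        (a * Real.exp a) ^ 2 * |h| ^ (1 - (2 * c - 1)) * B) := by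
        rw [integral_const_mul, integral_add (s1.const_mul _) (i2.const_mul _), integral_const_mul, integral_const_mul, hB]
    _ ≤ 2 * Real.exp (2 * a * (U + L)) * (Real.exp (2 * a) * (C * |h| ^ (1 - (2 * c - 1))) +
        (a * Real.exp a) ^ 2 * |h| ^ (1 - (2 * c - 1)) * B) := by
        gcongr
        exact h1 h
    _ = _ := by
        have e : Real.exp (2 * a * (U + L)) = Real.exp (2 * a * L) * Real.exp ((1 + (2 * c - 1) - 2 * b) * U) := by
          rw [← Real.exp_add]; congr 1; rw [ha]; ring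
        rw [e]; ring

end Pool.Agent.H592.LI
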