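import Pool.Agent.H592.LI.A2
import Pool.Agent.H592.PD.B6

/-!
# Mean square distance to the smoothed remainder under the Lindelöf hypothesis
-/

open Filter Topology Set MeasureTheory Polynomial
open Pool.Agent.W263.BSD Pool.Agent.Y853.PZ
open Pool.Agent.H387R2.Vor Pool.Agent.H383.PZ Pool.Agent.H592.PD

namespace Pool.Agent.H592.LI

lemma D_eq (k : ℕ) (x : ℝ) : Pool.Agent.Y853.PZ.D k x = Dk k x := rfl

/-- the exponent `(k-1)/(2k)` -/
noncomputable def bk (k : ℕ) : ℝ := ((k:ℝ) - 1) / (2 * k)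

/-- the normalised remainder in the logarithmic variable -/
noncomputable def ph (k : ℕ) (P : ℝ[X]) (v : ℝ) : ℝ := ff k P (bk k) (k * v)

lemma bk_le {k : ℕ} (hk : 1 ≤ k) : bk k ≤ 1/2 := by
  have hk0 : (1:ℝ) ≤ k := by exact_mod_cast hk
  unfold bk
  rw [div_le_iff₀ (by positivity)]
  linarith

lemma Fk_eq {k : ℕ} (hk : 1 ≤ k) (P : ℝ[X]) {R : ℝ} (hR : 1 < R) : Fk k P R = ph k P (Real.log R) := by
  have hk0 : (0:ℝ) < k := by exact_mod_cast hk
  have hR0 : 0 < R := by linarith
  have hl : 0 < Real.log R := Real.log_pos hR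
  have e0 : Real.exp (k * Real.log R) = R ^ k := by
    rw [← Real.log_pow, Real.exp_log (by positivity)]
  unfold Fk ph ff dd
  rw [if_pos (by positivity), D_eq, e0, ← Real.log_pow]
  congr 1
  rw [Real.rpow_def_of_pos hR0]
  congr 1
  unfold bk Pool.Agent.H383.PZ.hk
  rw [Real.log_pow]
  field_simp

lemma ph_meas (k : ℕ) (P : ℝ[X]) : Measurable (ph k P) := (ff_meas k P _).comp (by fun_prop)

lemma mu_le {δ : ℝ} (hδ : 0 < δ) (m : ℕ) :
    mu δ (m+1) ≤ (ENNReal.ofReal δ)⁻¹ • volume.restrict (Icc 0 (((m+1 : ℕ) : ℝ) * δ)) := by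
  have := mu_prob hδ m
  have := un_prob hδ
  refine Measure.le_iff.2 fun s hs => ?_
  have e1 : mu δ (m+1) s = ∫⁻ y, un δ ((fun x => x + y) ⁻¹' s) ∂(mu δ m) := by
    change ((un δ).conv (mu δ m)) s = _
    unfold Measure.conv
    rw [Measure.map_apply (by fun_prop) hs, Measure.prod_apply_symm (hs.preimage (by fun_prop))]
    rfl
  rw [e1]
  calc ∫⁻ y, un δ ((fun x => x + y) ⁻¹' s) ∂(mu δ m)
      ≤ ∫⁻ _y, (ENNReal.ofReal δ)⁻¹ * volume (s ∩ Icc 0 (((m+1 : ℕ) : ℝ) * δ)) ∂(mu δ m) := by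
        refine lintegral_mono_ae ?_
        filter_upwards [mu_supp hδ m] with y hy
        unfold un
        rw [Measure.smul_apply, smul_eq_mul, Measure.restrict_apply (hs.preimage (by fun_prop))]
        refine mul_le_mul' le_rfl ?_
        have e2 : (fun x : ℝ => x + y) ⁻¹' (s ∩ Icc 0 (((m+1 : ℕ) : ℝ) * δ)) ⊇ (fun x : ℝ => x + y) ⁻¹' s ∩ Icc 0 δ := by
          rintro x ⟨hx1, hx2⟩
          refine ⟨hx1, ?_, ?_⟩
          · simp only; linarith [hx2.1, hy.1]
          · simp only; push_cast; linarith [hx2.2, hy.2]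
        refine (measure_mono e2).trans (le_of_eq ?_)
        exact measure_preimage_add_right volume y _
    _ = _ := by
        rw [lintegral_const, measure_univ, mul_one, Measure.smul_apply, smul_eq_mul, Measure.restrict_apply hs]

lemma int_mu_le {δ : ℝ} (hδ : 0 < δ) {n : ℕ} (hn : 1 ≤ n) {g : ℝ → ℝ} (hg : Measurable g) {B : ℝ}
    (h0 : ∀ x, 0 ≤ g x) (hB : ∀ x, 0 ≤ x → x ≤ n * δ → g x ≤ B) :
    ∫ x, g x ∂(mu δ n) ≤ δ⁻¹ * ∫ x in (0:ℝ)..(n * δ), g x := by
  obtain ⟨m, rfl⟩ : ∃ m, n = m + 1 := ⟨n - 1, by omega⟩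
  have hi : IntegrableOn g (Icc 0 (((m+1 : ℕ) : ℝ) * δ)) := by
    refine Measure.integrableOn_of_bounded (M := B) (by simp) hg.aestronglyMeasurable ?_
    refine (ae_restrict_iff' measurableSet_Icc).2 (Eventually.of_forall fun x hx => ?_)
    rw [Real.norm_eq_abs, abs_of_nonneg (h0 x)]
    exact hB x hx.1 hx.2
  have hne : (ENNReal.ofReal δ)⁻¹ ≠ ⊤ := by
    rw [Ne, ENNReal.inv_eq_top, ENNReal.ofReal_eq_zero]; linarith
  calc ∫ x, g x ∂(mu δ (m+1)) ≤ ∫ x, g x ∂((ENNReal.ofReal δ)⁻¹ • volume.restrict (Icc 0 (((m+1 : ℕ) : ℝ) * δ))) :=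
        integral_mono_measure (mu_le hδ m) (Eventually.of_forall h0) (Integrable.smul_measure hi hne)
    _ = δ⁻¹ * ∫ x in (0:ℝ)..(((m+1 : ℕ) : ℝ) * δ), g x := by
        rw [integral_smul_measure, ENNReal.toReal_inv, ENNReal.toReal_ofReal hδ.le, smul_eq_mul,
          intervalIntegral.integral_of_le (by positivity), integral_Icc_eq_integral_Ioc]

lemma sq_int_le {μ : Measure ℝ} [IsProbabilityMeasure μ] {g : ℝ → ℝ} (hg : Integrable g μ) (hg2 : Integrable (fun x => g x ^ 2) μ) :
    (∫ x, g x ∂μ) ^ 2 ≤ ∫ x, g x ^ 2 ∂μ := by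
  obtain ⟨m, hm⟩ : ∃ m, m = ∫ x, g x ∂μ := ⟨_, rfl⟩
  have h1 : 0 ≤ ∫ x, (g x - m) ^ 2 ∂μ := integral_nonneg fun x => sq_nonneg _
  have h2 : ∫ x, (g x - m) ^ 2 ∂μ = (∫ x, g x ^ 2 ∂μ) - 2 * m * m + m ^ 2 := by
    have e : (fun x => (g x - m) ^ 2) = fun x => g x ^ 2 - (2 * m) * g x + m ^ 2 := funext fun x => by ring
    have i1 : Integrable (fun x => g x ^ 2 - (2 * m) * g x) μ := hg2.sub (hg.const_mul _)
    rw [e, integral_add i1 (integrable_const _), integral_sub hg2 (hg.const_mul _), integral_const_mul,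
      integral_const, ← hm]
    simp
  rw [← hm]
  rw [h2] at h1
  linarith

/-- `ph` is bounded on bounded sets -/
lemma ph_bd {k : ℕ} (hk : 1 ≤ k) {P : ℝ[X]} (hP : IsMain k P) (T : ℝ) :
    ∃ B : ℝ, 0 ≤ B ∧ ∀ v, v ≤ T → |ph k P v| ≤ B := by
  obtain ⟨C, δ, hC, hδ, hδ2, hb⟩ := main_bd hk hP
  have hk0 : (0:ℝ) < k := by exact_mod_cast hk
  have hbk := bk_le hk
  refine ⟨C * Real.exp ((1 - δ - bk k) * (k * |T|)), by positivity, fun v hv => ?_⟩
  rcases le_or_gt v 0 with h | h
  · unfold ph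
    rw [ff_zero _ _ _ (mul_nonpos_of_nonneg_of_nonpos hk0.le h), abs_zero]
    positivity
  · unfold ph ff
    rw [abs_mul, Real.abs_exp]
    calc |dd k P (k * v)| * Real.exp (-(bk k * (k * v))) ≤ (C * Real.exp ((1 - δ) * (k * v))) * Real.exp (-(bk k * (k * v))) := by
          gcongr; exact dd_le hC hb _
      _ = C * Real.exp ((1 - δ - bk k) * (k * v)) := by rw [mul_assoc, ← Real.exp_add]; congr 2; ring
      _ ≤ _ := by
        gcongr
        · linarith
        · exact hv.trans (le_abs_self T)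

/-- increments of the normalised remainder in the logarithmic variable -/
theorem incr_ph {k : ℕ} (hk : 1 ≤ k) {P : ℝ[X]} (hP : IsMain k P) (hL : LHs) {κ : ℝ} (hκ : 0 < κ) (hκ1 : κ ≤ 1) :
    ∃ C : ℝ, 0 ≤ C ∧ ∀ V s : ℝ, 0 ≤ s → k * s ≤ 1 → ∫ v in V..(V + Real.log 2), (ph k P (v + s) - ph k P v) ^ 2 ≤
      C * Real.exp ((1 + k * κ) * V) * s ^ (1 - κ) := by
  have hk0 : (0:ℝ) < k := by exact_mod_cast hk
  have hl2 : 0 < Real.log 2 := Real.log_pos (by norm_num)
  obtain ⟨C, hC, h⟩ := incr_win hk hP hL hκ hκ1 (bk_le hk) (k * Real.log 2) (by positivity)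
  refine ⟨C * k ^ (1 - κ), by positivity, fun V s hs hks => ?_⟩
  have h1 := h (k * V) (k * s) (by rw [abs_of_nonneg (by positivity)]; exact hks)
  have e1 : ∫ v in V..(V + Real.log 2), (ph k P (v + s) - ph k P v) ^ 2 =
      (k:ℝ)⁻¹ * ∫ u in (k * V)..(k * V + k * Real.log 2), (ff k P (bk k) (u + k * s) - ff k P (bk k) u) ^ 2 := by
    have := intervalIntegral.integral_comp_mul_left (a := V) (b := V + Real.log 2)
      (fun u => (ff k P (bk k) (u + k * s) - ff k P (bk k) u) ^ 2) hk0.ne'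
    rw [smul_eq_mul, mul_add] at this
    rw [← this]
    unfold ph
    congr 1
    funext v
    rw [mul_add]
  rw [e1]
  have e2 : (1 + κ - 2 * bk k) * (k * V) = (1 + k * κ) * V := by
    unfold bk; field_simp; ring
  rw [e2, abs_of_nonneg (by positivity), Real.mul_rpow hk0.le hs] at h1
  have h2 : (k:ℝ)⁻¹ ≤ 1 := inv_le_one_of_one_le₀ (by exact_mod_cast hk)
  calc (k:ℝ)⁻¹ * ∫ u in (k * V)..(k * V + k * Real.log 2), (ff k P (bk k) (u + k * s) - ff k P (bk k) u) ^ 2
      ≤ 1 * (C * Real.exp ((1 + k * κ) * V) * (k ^ (1 - κ) * s ^ (1 - κ))) := by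
        gcongr
        exact intervalIntegral.integral_nonneg (by linarith [mul_pos hk0 hl2]) fun u _ => sq_nonneg _
    _ = _ := by ring

lemma Fk_shift_bd {k : ℕ} (hk : 1 ≤ k) (P : ℝ[X]) (T : ℝ) : ∃ B : ℝ, 0 ≤ B ∧ ∀ R, 1 ≤ R → R ≤ T → |Fk k P R| ≤ B := by
  obtain ⟨B, hB⟩ := Fk_bdd hk P T
  exact ⟨max B 0, le_max_right _ _, fun R h1 h2 => (hB R h1 h2).trans (le_max_left _ _)⟩

/-- pointwise bound for the distance to the smoothed remainder -/
lemma point_sm {k : ℕ} (hk : 1 ≤ k) {P : ℝ[X]} {n : ℕ} (hn : 1 ≤ n) {Y δ R : ℝ} (hY : 2 ≤ Y)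
    (hδ : 0 < δ) (hnδ : n * δ ≤ 1) (hR : R ∈ Icc Y (2 * Y)) :
    (Fk k P R - ∫ x, Fk k P (R + x) ∂(mu δ n)) ^ 2 ≤
      δ⁻¹ * ∫ y in R..(R + n * δ), (Fk k P y - Fk k P R) ^ 2 := by
  have := mu_prob hδ n
  have hn0 : (1:ℝ) ≤ n := by exact_mod_cast hn
  have hnδ0 : 0 < n * δ := by positivity
  obtain ⟨B, hB0, hB⟩ := Fk_shift_bd hk P (2 * Y + 1)
  have hm : Measurable fun x => Fk k P (R + x) := (Fk_meas k P).comp (by fun_prop)
  have hb1 : ∀ x ∈ Icc (0:ℝ) (n * δ), |Fk k P (R + x)| ≤ B := fun x hx => hB _ (by linarith [hR.1, hx.1]) (by linarith [hR.2, hx.2])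
  have hb2 : ∀ x ∈ Icc (0:ℝ) (n * δ), |Fk k P R - Fk k P (R + x)| ≤ 2 * B := by
    intro x hx
    have h0 := hb1 0 ⟨le_rfl, hnδ0.le⟩
    rw [add_zero] at h0
    have := hb1 x hx
    calc |Fk k P R - Fk k P (R + x)| ≤ |Fk k P R| + |Fk k P (R + x)| := abs_sub _ _
      _ ≤ _ := by linarith
  have i1 : Integrable (fun x => Fk k P (R + x)) (mu δ n) := by
    refine Integrable.of_bound hm.aestronglyMeasurable B ?_
    filter_upwards [mu_supp hδ n] with x hx
    exact hb1 x hx
  have i2 : Integrable (fun x => (Fk k P R - Fk k P (R + x)) ^ 2) (mu δ n) := by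
    refine Integrable.of_bound ((measurable_const.sub hm).pow_const 2).aestronglyMeasurable ((2 * B) ^ 2) ?_
    filter_upwards [mu_supp hδ n] with x hx
    rw [Real.norm_eq_abs, abs_pow]
    gcongr
    exact hb2 x hx
  have e1 : Fk k P R - ∫ x, Fk k P (R + x) ∂(mu δ n) = ∫ x, (Fk k P R - Fk k P (R + x)) ∂(mu δ n) := by
    rw [integral_sub (integrable_const _) i1]; simp
  rw [e1]
  refine (sq_int_le ((integrable_const _).sub i1) i2).trans ?_
  refine (int_mu_le hδ hn (g := fun x => (Fk k P R - Fk k P (R + x)) ^ 2) ((measurable_const.sub hm).pow_const 2)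
    (B := (2 * B) ^ 2) (fun x => sq_nonneg _) (fun x h1 h2 => by
      rw [← sq_abs]; have := hb2 x ⟨h1, h2⟩; gcongr)).trans (le_of_eq ?_)
  congr 1
  have e2 := intervalIntegral.integral_comp_add_left (a := 0) (b := n * δ) (fun y => (Fk k P y - Fk k P R) ^ 2) R
  rw [add_zero] at e2
  rw [← e2]
  congr 1
  funext x
  ring

/-- mean square distance to the smoothed remainder -/
theorem smooth_ms {k : ℕ} (hk : 1 ≤ k) {P : ℝ[X]} (hP : IsMain k P) (hL : LHs) {κ : ℝ} (hκ : 0 < κ) (hκ1 : κ ≤ 1)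
    {n : ℕ} (hn : 1 ≤ n) :
    ∃ C : ℝ, 0 ≤ C ∧ ∀ Y δ : ℝ, 2 ≤ Y → 0 < δ → k * (n * δ) ≤ 1 →
      ∫ R in Y..(2*Y), (Fk k P R - ∫ x, Fk k P (R + x) ∂(mu δ n)) ^ 2 ≤ C * Y ^ (1 + (k + 1) * κ) * δ ^ (1 - κ) := by
  have hk0 : (1:ℝ) ≤ k := by exact_mod_cast hk
  have hn0 : (1:ℝ) ≤ n := by exact_mod_cast hn
  obtain ⟨C, hC, hinc⟩ := incr_ph hk hP hL hκ hκ1
  refine ⟨6 * n * C * n ^ (1 - κ), by positivity, fun Y δ hY hδ hknδ => ?_⟩
  have hnδ : n * δ ≤ 1 := by nlinarith [mul_pos (by linarith : (0:ℝ) < n) hδ]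
  have hnδ0 : 0 < n * δ := by positivity
  have hY0 : 0 < Y := by linarith
  obtain ⟨a, ha⟩ : ∃ a, a = n * δ / Y := ⟨_, rfl⟩
  have ha0 : 0 < a := by rw [ha]; positivity
  have ha1 : a ≤ 1 := by rw [ha, div_le_one hY0]; linarith
  have haY : a * Y = n * δ := by rw [ha]; field_simp
  obtain ⟨B, hB0, hB⟩ := ph_bd hk hP (Real.log (2 * Y) + 1)
  -- the double integral
  obtain ⟨G, hG⟩ : ∃ G : ℝ → ℝ → ℝ, G = fun v s => (ph k P (v + s) - ph k P v) ^ 2 := ⟨_, rfl⟩
  have hGm : Measurable (fun p : ℝ × ℝ => G p.1 p.2) := by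
    rw [hG]
    have h1 : Measurable (fun p : ℝ × ℝ => ph k P (p.1 + p.2)) := (ph_meas k P).comp (by fun_prop)
    have h2 : Measurable (fun p : ℝ × ℝ => ph k P p.1) := (ph_meas k P).comp (by fun_prop)
    exact (h1.sub h2).pow_const 2
  have hG0 : ∀ v s, 0 ≤ G v s := fun v s => by rw [hG]; exact sq_nonneg _
  have hGb : ∀ v s, v ≤ Real.log (2 * Y) → s ≤ 1 → G v s ≤ (2 * B) ^ 2 := by
    intro v s hv hs
    rw [hG]
    simp only
    rw [← sq_abs]
    have h1 := hB (v + s) (by linarith)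
    have h2 := hB v (by linarith)
    have h3 : |ph k P (v + s) - ph k P v| ≤ 2 * B := by
      calc |ph k P (v + s) - ph k P v| ≤ |ph k P (v + s)| + |ph k P v| := abs_sub _ _
        _ ≤ _ := by linarith
    gcongr
  obtain ⟨h, hh⟩ : ∃ h : ℝ → ℝ, h = fun v => ∫ s in Ioc 0 a, G v s := ⟨_, rfl⟩
  have hh0 : ∀ v, 0 ≤ h v := fun v => by rw [hh]; exact integral_nonneg fun s => hG0 v s
  have hhm : Measurable h := by
    rw [hh]
    exact (hGm.stronglyMeasurable.integral_prod_right' (ν := volume.restrict (Ioc 0 a))).measurable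
  have hhb : ∀ v, v ≤ Real.log (2 * Y) → h v ≤ (2 * B) ^ 2 := by
    intro v hv
    rw [hh]
    simp only
    have h1 : ‖∫ s in Ioc 0 a, G v s‖ ≤ (2 * B) ^ 2 * (volume (Ioc (0:ℝ) a)).toReal := by
      refine norm_setIntegral_le_of_norm_le_const (by simp) fun s hs => ?_
      rw [Real.norm_eq_abs, abs_of_nonneg (hG0 v s)]
      exact hGb v s hv (hs.2.trans ha1)
    rw [Real.norm_eq_abs, abs_of_nonneg (integral_nonneg fun s => hG0 v s), Real.volume_Ioc, sub_zero,
      ENNReal.toReal_ofReal ha0.le] at h1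
    refine h1.trans ?_
    have : 0 ≤ (2 * B) ^ 2 := by positivity
    nlinarith
  -- the pointwise bound
  have hpt : ∀ R ∈ Ioc Y (2 * Y), (Fk k P R - ∫ x, Fk k P (R + x) ∂(mu δ n)) ^ 2 ≤ δ⁻¹ * (3 * Y) * h (Real.log R) := by
    intro R hR
    have hR0 : 0 < R := by linarith [hR.1]
    refine (point_sm hk hn hY hδ hnδ ⟨hR.1.le, hR.2⟩).trans ?_
    rw [mul_assoc]
    gcongr
    rw [cv hR0 (by linarith)]
    have hlog : Real.log (R + n * δ) ≤ Real.log R + a := by
      have e : R + n * δ = R * (1 + n * δ / R) := by field_simp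
      rw [e, Real.log_mul hR0.ne' (by positivity)]
      have h1 : Real.log (1 + n * δ / R) ≤ n * δ / R := by
        have := Real.log_le_sub_one_of_pos (by positivity : 0 < 1 + n * δ / R)
        linarith
      have h2 : n * δ / R ≤ a := by rw [ha]; gcongr; exact hR.1.le
      linarith
    have hlog0 : Real.log R ≤ Real.log (R + n * δ) := Real.log_le_log hR0 (by linarith)
    have hlR : 0 < Real.log R := Real.log_pos (by linarith [hR.1])
    have hlR2 : Real.log R ≤ Real.log (2 * Y) := Real.log_le_log hR0 hR.2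
    have hmG : Measurable (fun s => G (Real.log R) s) :=
      hGm.comp ((measurable_const (a := Real.log R)).prodMk measurable_id)
    have iG : IntegrableOn (fun s => G (Real.log R) s) (Ioc 0 a) := by
      refine Measure.integrableOn_of_bounded (M := (2 * B) ^ 2) (by simp) hmG.aestronglyMeasurable ?_
      refine (ae_restrict_iff' measurableSet_Ioc).2 (Eventually.of_forall fun s hs => ?_)
      rw [Real.norm_eq_abs, abs_of_nonneg (hG0 _ s)]
      exact hGb _ s hlR2 (hs.2.trans ha1)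
    have e3 : ∫ u in (Real.log R)..(Real.log R + a), G (Real.log R) (u - Real.log R) = h (Real.log R) := by
      rw [intervalIntegral.integral_comp_sub_right (fun s => G (Real.log R) s), hh]
      simp only [sub_self, add_sub_cancel_left]
      rw [intervalIntegral.integral_of_le ha0.le]
    rw [← e3, ← intervalIntegral.integral_const_mul, intervalIntegral.integral_of_le hlog0,
      intervalIntegral.integral_of_le (by linarith)]
    have iG2 : IntegrableOn (fun u => 3 * Y * G (Real.log R) (u - Real.log R)) (Ioc (Real.log R) (Real.log R + a)) := by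
      refine Measure.integrableOn_of_bounded (M := 3 * Y * (2 * B) ^ 2) (by simp)
        ((hmG.comp (measurable_id.sub_const (Real.log R))).const_mul _).aestronglyMeasurable ?_
      refine (ae_restrict_iff' measurableSet_Ioc).2 (Eventually.of_forall fun s hs => ?_)
      rw [Real.norm_eq_abs, abs_of_nonneg (mul_nonneg (by positivity) (hG0 _ _))]
      gcongr
      exact hGb _ _ hlR2 (by linarith [hs.2])
    calc ∫ u in Ioc (Real.log R) (Real.log (R + n * δ)), Real.exp u * (Fk k P (Real.exp u) - Fk k P R) ^ 2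
        ≤ ∫ u in Ioc (Real.log R) (Real.log (R + n * δ)), 3 * Y * G (Real.log R) (u - Real.log R) := by
          refine integral_mono_of_nonneg (Eventually.of_forall fun u => by positivity)
            (iG2.mono_set (Ioc_subset_Ioc_right hlog)) ?_
          refine (ae_restrict_iff' measurableSet_Ioc).2 (Eventually.of_forall fun u hu => ?_)
          simp only
          have hu0 : 0 < u := by linarith [hu.1]
          rw [Fk_eq hk P (Real.one_lt_exp_iff.2 hu0), Fk_eq hk P (by linarith [hR.1] : 1 < R), Real.log_exp, hG]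
          simp only
          rw [add_sub_cancel]
          gcongr
          have h5 : Real.exp u ≤ R + n * δ := by
            have := Real.exp_le_exp.2 hu.2
            rwa [Real.exp_log (by linarith)] at this
          linarith [hR.2]
      _ ≤ ∫ u in Ioc (Real.log R) (Real.log R + a), 3 * Y * G (Real.log R) (u - Real.log R) := by
          refine setIntegral_mono_set iG2 (Eventually.of_forall fun u => mul_nonneg (by positivity) (hG0 _ _)) ?_
          exact (Ioc_subset_Ioc_right hlog).eventuallyLE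
  -- the outer integral
  have hlY : Real.log (2 * Y) = Real.log Y + Real.log 2 := by rw [mul_comm, Real.log_mul hY0.ne' (by norm_num)]
  have hl2 : 0 < Real.log 2 := Real.log_pos (by norm_num)
  rw [intervalIntegral.integral_of_le (by linarith)]
  calc ∫ R in Ioc Y (2 * Y), (Fk k P R - ∫ x, Fk k P (R + x) ∂(mu δ n)) ^ 2
      ≤ ∫ R in Ioc Y (2 * Y), δ⁻¹ * (3 * Y) * h (Real.log R) := by
        refine integral_mono_of_nonneg (Eventually.of_forall fun u => sq_nonneg _) ?_
          ((ae_restrict_iff' measurableSet_Ioc).2 (Eventually.of_forall hpt))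
        refine Measure.integrableOn_of_bounded (M := δ⁻¹ * (3 * Y) * (2 * B) ^ 2) (by simp)
          ((hhm.comp Real.measurable_log).const_mul _).aestronglyMeasurable ?_
        refine (ae_restrict_iff' measurableSet_Ioc).2 (Eventually.of_forall fun R hR => ?_)
        rw [Real.norm_eq_abs, abs_of_nonneg (mul_nonneg (by positivity) (hh0 _))]
        gcongr
        exact hhb _ (Real.log_le_log (by linarith [hR.1]) hR.2)
    _ = ∫ R in Y..(2 * Y), δ⁻¹ * (3 * Y) * h (Real.log R) := by rw [intervalIntegral.integral_of_le (by linarith)]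
    _ = ∫ v in (Real.log Y)..(Real.log Y + Real.log 2), Real.exp v * (δ⁻¹ * (3 * Y) * h v) := by
        rw [cv hY0 (by linarith), hlY]
        simp only [Real.log_exp]
    _ ≤ ∫ v in (Real.log Y)..(Real.log Y + Real.log 2), (2 * Y) * (δ⁻¹ * (3 * Y)) * h v := by
        rw [intervalIntegral.integral_of_le (by linarith), intervalIntegral.integral_of_le (by linarith)]
        refine integral_mono_of_nonneg (Eventually.of_forall fun v => mul_nonneg (Real.exp_pos v).le
          (mul_nonneg (by positivity) (hh0 _))) ?_ ?_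
        · refine Measure.integrableOn_of_bounded (M := (2 * Y) * (δ⁻¹ * (3 * Y)) * (2 * B) ^ 2) (by simp)
            (hhm.const_mul _).aestronglyMeasurable ?_
          refine (ae_restrict_iff' measurableSet_Ioc).2 (Eventually.of_forall fun v hv => ?_)
          rw [Real.norm_eq_abs, abs_of_nonneg (mul_nonneg (by positivity) (hh0 _))]
          gcongr
          exact hhb _ (by rw [hlY]; exact hv.2)
        · refine (ae_restrict_iff' measurableSet_Ioc).2 (Eventually.of_forall fun v hv => ?_)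
          simp only
          rw [mul_assoc (2 * Y)]
          have h5 : Real.exp v ≤ 2 * Y := by
            have := Real.exp_le_exp.2 hv.2
            rwa [← hlY, Real.exp_log (by linarith)] at this
          have := hh0 v
          gcongr
    _ = (2 * Y) * (δ⁻¹ * (3 * Y)) * ∫ v in (Real.log Y)..(Real.log Y + Real.log 2), h v := by
        rw [intervalIntegral.integral_const_mul]
    _ = (2 * Y) * (δ⁻¹ * (3 * Y)) * ∫ s in Ioc 0 a, ∫ v in (Real.log Y)..(Real.log Y + Real.log 2), G v s := by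
        congr 1
        simp_rw [intervalIntegral.integral_of_le (by linarith : Real.log Y ≤ Real.log Y + Real.log 2), hh]
        refine integral_integral_swap ?_
        refine Integrable.of_bound hGm.aestronglyMeasurable ((2 * B) ^ 2) ?_
        have e1 := (Measure.quasiMeasurePreserving_fst (μ := volume.restrict (Ioc (Real.log Y) (Real.log Y + Real.log 2)))
          (ν := volume.restrict (Ioc (0:ℝ) a))).ae (ae_restrict_mem measurableSet_Ioc)
        have e2 := (Measure.quasiMeasurePreserving_snd (μ := volume.restrict (Ioc (Real.log Y) (Real.log Y + Real.log 2)))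
          (ν := volume.restrict (Ioc (0:ℝ) a))).ae (ae_restrict_mem measurableSet_Ioc)
        filter_upwards [e1, e2] with p hp1 hp2
        rw [Real.norm_eq_abs]
        change |G p.1 p.2| ≤ _
        rw [abs_of_nonneg (hG0 _ _)]
        exact hGb _ _ (by rw [hlY]; exact hp1.2) (hp2.2.trans ha1)
    _ ≤ (2 * Y) * (δ⁻¹ * (3 * Y)) * ∫ _s in Ioc 0 a, C * Y ^ (1 + k * κ) * a ^ (1 - κ) := by
        refine mul_le_mul_of_nonneg_left ?_ (by positivity)
        refine integral_mono_of_nonneg (Eventually.of_forall fun s =>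
          intervalIntegral.integral_nonneg (by linarith) fun v _ => hG0 v s) (integrable_const _) ?_
        refine (ae_restrict_iff' measurableSet_Ioc).2 (Eventually.of_forall fun s hs => ?_)
        simp only
        have hs0 : 0 < s := hs.1
        have h6 := hinc (Real.log Y) s hs0.le (by
          have : k * s ≤ k * a := by gcongr; exact hs.2
          have h7 : a ≤ n * δ := by rw [ha, div_le_iff₀ hY0]; nlinarith
          nlinarith)
        have e5 : Real.exp ((1 + k * κ) * Real.log Y) = Y ^ (1 + k * κ) := by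
          rw [Real.rpow_def_of_pos hY0, mul_comm]
        rw [e5] at h6
        rw [hG]
        refine h6.trans ?_
        have : 0 ≤ 1 - κ := by linarith
        gcongr
        exact hs.2
    _ = _ := by
        rw [integral_const, smul_eq_mul]
        have e6 : (volume.restrict (Ioc (0:ℝ) a)).real univ = a := by
          rw [measureReal_restrict_apply MeasurableSet.univ, univ_inter, Real.volume_real_Ioc_of_le ha0.le, sub_zero]
        rw [e6]
        have e7 : a ^ (1 - κ) = n ^ (1 - κ) * δ ^ (1 - κ) * Y ^ (-(1 - κ)) := by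
          rw [ha, Real.div_rpow (by positivity) hY0.le, Real.mul_rpow (by positivity) hδ.le, Real.rpow_neg hY0.le]
          rfl
        have e8 : Y ^ (1 + (k + 1) * κ) = Y * Y ^ (1 + k * κ) * Y ^ (-(1 - κ)) := by
          rw [← Real.rpow_one_add' hY0.le (by positivity), ← Real.rpow_add hY0]
          congr 1; ring
        rw [e7, e8, ha]
        field_simp
        ring

end Pool.Agent.H592.LI
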