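import Pool.Agent.H592.LI.A3

/-!
# Mean square of a long trigonometric series over a window
-/

open Filter Topology Set MeasureTheory
open Pool.Agent.H387R2.Vor Pool.Agent.H383.PZ Pool.Agent.H592.PD

namespace Pool.Agent.H592.LI

/-- the partial sums with complex values -/
noncomputable def Sn (c : ℕ → ℂ) (θ : ℕ → ℝ) (n : ℕ) (r : ℝ) : ℂ :=
  ∑ m ∈ Finset.range n, c m * Complex.exp (((θ m * r : ℝ) : ℂ) * Complex.I)

lemma Sn_cont (c : ℕ → ℂ) (θ : ℕ → ℝ) (n : ℕ) : Continuous (Sn c θ n) := by unfold Sn; fun_prop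

lemma exp_int_le {a : ℝ} (ha : a ≠ 0) (x y : ℝ) :
    ‖∫ r in x..y, Complex.exp (((a * r : ℝ) : ℂ) * Complex.I)‖ ≤ 2 / |a| := by
  have hc : (a : ℂ) * Complex.I ≠ 0 := mul_ne_zero (by exact_mod_cast ha) Complex.I_ne_zero
  have h := integral_exp_mul_complex (a := x) (b := y) hc
  have e : ∀ r : ℝ, Complex.exp (((a * r : ℝ) : ℂ) * Complex.I) = Complex.exp ((a : ℂ) * Complex.I * r) := by
    intro r; congr 1; push_cast; ring
  simp_rw [e]
  rw [h, norm_div]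
  have n1 : ‖(a : ℂ) * Complex.I‖ = |a| := by
    rw [norm_mul, Complex.norm_I, mul_one, Complex.norm_real, Real.norm_eq_abs]
  rw [n1]
  gcongr
  refine (norm_sub_le _ _).trans ?_
  have n2 : ∀ r : ℝ, ‖Complex.exp ((a : ℂ) * Complex.I * r)‖ = 1 := by
    intro r
    rw [← e, Complex.norm_exp_ofReal_mul_I]
  rw [n2, n2]; norm_num

lemma ms_fin {c : ℕ → ℂ} {θ W : ℕ → ℝ} (hW : ∀ m, 0 ≤ W m)
    (hθ : ∀ m m', m ≠ m' → c m = 0 ∨ c m' = 0 ∨ 1 ≤ |θ m - θ m'| * (W m * W m')) (n : ℕ) {Y H : ℝ} (hH : 0 ≤ H) :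
    ∫ r in Y..(Y+H), ‖Sn c θ n r‖ ^ 2 ≤ H * (∑ m ∈ Finset.range n, ‖c m‖ ^ 2) + 2 * (∑ m ∈ Finset.range n, ‖c m‖ * W m) ^ 2 := by
  -- expand
  have e1 : ∀ r : ℝ, ((‖Sn c θ n r‖ ^ 2 : ℝ) : ℂ) = ∑ m ∈ Finset.range n, ∑ m' ∈ Finset.range n,
      (c m * (starRingEnd ℂ) (c m')) * Complex.exp ((((θ m - θ m') * r : ℝ) : ℂ) * Complex.I) := by
    intro r
    rw [← Complex.normSq_eq_norm_sq, Complex.normSq_eq_conj_mul_self, mul_comm]
    unfold Sn
    rw [map_sum, Finset.sum_mul_sum]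
    refine Finset.sum_congr rfl fun m _ => Finset.sum_congr rfl fun m' _ => ?_
    rw [map_mul, ← Complex.exp_conj, map_mul, Complex.conj_ofReal, Complex.conj_I]
    rw [mul_mul_mul_comm, ← Complex.exp_add]
    congr 2
    push_cast; ring
  have e2 : ((∫ r in Y..(Y+H), ‖Sn c θ n r‖ ^ 2 : ℝ) : ℂ) = ∑ m ∈ Finset.range n, ∑ m' ∈ Finset.range n,
      (c m * (starRingEnd ℂ) (c m')) * ∫ r in Y..(Y+H), Complex.exp ((((θ m - θ m') * r : ℝ) : ℂ) * Complex.I) := by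
    rw [← intervalIntegral.integral_ofReal]
    simp_rw [e1]
    rw [intervalIntegral.integral_finsetSum (fun m _ => Continuous.intervalIntegrable (by fun_prop) _ _)]
    refine Finset.sum_congr rfl fun m _ => ?_
    rw [intervalIntegral.integral_finsetSum (fun m _ => Continuous.intervalIntegrable (by fun_prop) _ _)]
    refine Finset.sum_congr rfl fun m' _ => ?_
    rw [intervalIntegral.integral_const_mul]
  have e3 : ∫ r in Y..(Y+H), ‖Sn c θ n r‖ ^ 2 ≤ ‖((∫ r in Y..(Y+H), ‖Sn c θ n r‖ ^ 2 : ℝ) : ℂ)‖ := by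
    rw [Complex.norm_real]; exact le_abs_self _
  refine e3.trans ?_
  rw [e2]
  have e4 : ∀ m m', ‖(c m * (starRingEnd ℂ) (c m')) * ∫ r in Y..(Y+H), Complex.exp ((((θ m - θ m') * r : ℝ) : ℂ) * Complex.I)‖ ≤
      (if m = m' then H * ‖c m‖ ^ 2 else 0) + 2 * ((‖c m‖ * W m) * (‖c m'‖ * W m')) := by
    intro m m'
    have hnn : 0 ≤ 2 * ((‖c m‖ * W m) * (‖c m'‖ * W m')) := by
      have := hW m; have := hW m'; positivity
    rw [norm_mul, norm_mul, Complex.norm_conj]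
    by_cases hm : m = m'
    · subst hm
      rw [if_pos rfl]
      have e5 : ∫ r in Y..(Y+H), Complex.exp ((((θ m - θ m) * r : ℝ) : ℂ) * Complex.I) = ((H : ℝ) : ℂ) := by
        simp
      rw [e5, Complex.norm_real, Real.norm_eq_abs, abs_of_nonneg hH]
      nlinarith
    · rw [if_neg hm, zero_add]
      rcases hθ m m' hm with h | h | h
      · rw [h]; simp
      · rw [h]; simp
      · have hne : θ m - θ m' ≠ 0 := by
          intro h0
          rw [h0] at h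
          simp at h
          linarith
        have h1 := exp_int_le hne Y (Y+H)
        have h2 : 2 / |θ m - θ m'| ≤ 2 * (W m * W m') := by
          rw [div_le_iff₀ (abs_pos.2 hne)]
          linarith
        calc ‖c m‖ * ‖c m'‖ * ‖∫ r in Y..(Y+H), Complex.exp ((((θ m - θ m') * r : ℝ) : ℂ) * Complex.I)‖
            ≤ ‖c m‖ * ‖c m'‖ * (2 * (W m * W m')) := by gcongr; exact h1.trans h2
          _ = _ := by ring
  calc ‖∑ m ∈ Finset.range n, ∑ m' ∈ Finset.range n,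
      (c m * (starRingEnd ℂ) (c m')) * ∫ r in Y..(Y+H), Complex.exp ((((θ m - θ m') * r : ℝ) : ℂ) * Complex.I)‖
      ≤ ∑ m ∈ Finset.range n, ∑ m' ∈ Finset.range n,
        ((if m = m' then H * ‖c m‖ ^ 2 else 0) + 2 * ((‖c m‖ * W m) * (‖c m'‖ * W m'))) := by
        refine (norm_sum_le _ _).trans (Finset.sum_le_sum fun m _ => ?_)
        exact (norm_sum_le _ _).trans (Finset.sum_le_sum fun m' _ => e4 m m')
    _ = _ := by
        simp_rw [Finset.sum_add_distrib]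
        congr 1
        · rw [Finset.mul_sum]
          refine Finset.sum_congr rfl fun m hm => ?_
          rw [Finset.sum_ite_eq, if_pos hm]
        · rw [sq, Finset.sum_mul_sum, Finset.mul_sum]
          refine Finset.sum_congr rfl fun m _ => ?_
          rw [Finset.mul_sum]

lemma Sn_re (c : ℕ → ℂ) (θ : ℕ → ℝ) (n : ℕ) (r : ℝ) : (Sn c θ n r).re = ∑ m ∈ Finset.range n, trm (c m) (θ m) r := by
  unfold Sn trm
  rw [Complex.re_sum]

theorem ms_ser {c : ℕ → ℂ} {θ W : ℕ → ℝ} (hW : ∀ m, 0 ≤ W m) (hc : Summable fun m => ‖c m‖)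
    (hθ : ∀ m m', m ≠ m' → c m = 0 ∨ c m' = 0 ∨ 1 ≤ |θ m - θ m'| * (W m * W m'))
    (hs : Summable fun m => ‖c m‖ ^ 2) (hw : Summable fun m => ‖c m‖ * W m) {Y H : ℝ} (hH : 0 ≤ H) :
    ∫ r in Y..(Y+H), (ser c θ r) ^ 2 ≤ H * (∑' m, ‖c m‖ ^ 2) + 2 * (∑' m, ‖c m‖ * W m) ^ 2 := by
  have hcont : Continuous (ser c θ) := AP_cont (ser_AP hc)
  have hb : ∀ n, ∫ r in Y..(Y+H), (∑ m ∈ Finset.range n, trm (c m) (θ m) r) ^ 2 ≤
      H * (∑' m, ‖c m‖ ^ 2) + 2 * (∑' m, ‖c m‖ * W m) ^ 2 := by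
    intro n
    have h1 : ∫ r in Y..(Y+H), (∑ m ∈ Finset.range n, trm (c m) (θ m) r) ^ 2 ≤ ∫ r in Y..(Y+H), ‖Sn c θ n r‖ ^ 2 := by
      refine intervalIntegral.integral_mono_on (by linarith) ?_ (((Sn_cont c θ n).norm.pow 2).intervalIntegrable _ _) ?_
      · exact ((TP_cont (part_mem c θ n)).1.pow 2).intervalIntegrable _ _
      · intro r _
        rw [← Sn_re, ← sq_abs]
        gcongr
        exact Complex.abs_re_le_norm _
    refine h1.trans ((ms_fin hW hθ n hH).trans ?_)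
    have h2 : ∑ m ∈ Finset.range n, ‖c m‖ ^ 2 ≤ ∑' m, ‖c m‖ ^ 2 := hs.sum_le_tsum _ (fun m _ => by positivity)
    have h3 : ∑ m ∈ Finset.range n, ‖c m‖ * W m ≤ ∑' m, ‖c m‖ * W m :=
      hw.sum_le_tsum _ (fun m _ => mul_nonneg (norm_nonneg _) (hW m))
    have h4 : 0 ≤ ∑ m ∈ Finset.range n, ‖c m‖ * W m := Finset.sum_nonneg fun m _ => mul_nonneg (norm_nonneg _) (hW m)
    gcongr
  have hlim : Tendsto (fun n => ∫ r in Y..(Y+H), (∑ m ∈ Finset.range n, trm (c m) (θ m) r) ^ 2) atTop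
      (𝓝 (∫ r in Y..(Y+H), (ser c θ r) ^ 2)) := by
    refine intervalIntegral.tendsto_integral_filter_of_dominated_convergence (fun _ => (∑' m, ‖c m‖) ^ 2) ?_ ?_ ?_ ?_
    · exact Eventually.of_forall fun n => ((TP_cont (part_mem c θ n)).1.pow 2).aestronglyMeasurable
    · refine Eventually.of_forall fun n => Eventually.of_forall fun r _ => ?_
      rw [Real.norm_eq_abs, abs_pow]
      gcongr
      calc |∑ m ∈ Finset.range n, trm (c m) (θ m) r| ≤ ∑ m ∈ Finset.range n, |trm (c m) (θ m) r| := Finset.abs_sum_le_sum_abs _ _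
        _ ≤ ∑ m ∈ Finset.range n, ‖c m‖ := Finset.sum_le_sum fun m _ => trm_abs _ _ _
        _ ≤ _ := hc.sum_le_tsum _ (fun m _ => norm_nonneg _)
    · exact intervalIntegrable_const
    · refine Eventually.of_forall fun r _ => ?_
      exact (trm_summable hc r).hasSum.tendsto_sum_nat.pow 2
  exact le_of_tendsto' hlim hb

end Pool.Agent.H592.LI
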