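import Pool.Agent.H592.LI.A4

/-!
# Mean square closeness of the remainder to the partial sums of the Voronoi series
-/

open Filter Topology Set MeasureTheory Polynomial
open Pool.Agent.Y853.PZ (main_bd)
open Pool.Agent.H387R2.Vor Pool.Agent.H383.PZ Pool.Agent.H592.PD

namespace Pool.Agent.H592.LI

lemma main_of {k : ℕ} (hk : 1 ≤ k) {P : ℝ[X]} (hP : Pool.Agent.Y853.PZ.IsMain k P) : Main k P := by
  obtain ⟨C, δ, hC, hδ, hδ2, hb⟩ := main_bd hk hP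
  exact ⟨1 - δ, C, by linarith, fun x hx => hb x hx⟩

/-- gaps between the frequencies -/
lemma fq_gap {k : ℕ} (hk : 2 ≤ k) {m m' : ℕ} (h0 : 1 ≤ m) (h0' : 1 ≤ m') (hne : m ≠ m') :
    1 ≤ |fq k 1 m - fq k 1 m'| * ((m:ℝ) * m') := by
  wlog hlt : m' < m generalizing m m' with H
  · have := H h0' h0 hne.symm (by omega)
    rw [abs_sub_comm, mul_comm (m:ℝ)]
    exact this
  have hk0 : (2:ℝ) ≤ k := by exact_mod_cast hk
  have hm : (1:ℝ) ≤ m := by exact_mod_cast h0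
  have hm' : (1:ℝ) ≤ m' := by exact_mod_cast h0'
  obtain ⟨a, ha⟩ : ∃ a, a = (m:ℝ) ^ (1/(k:ℝ)) := ⟨_, rfl⟩
  obtain ⟨b, hb⟩ : ∃ b, b = (m':ℝ) ^ (1/(k:ℝ)) := ⟨_, rfl⟩
  have ha1 : 1 ≤ a := by rw [ha]; exact Real.one_le_rpow hm (by positivity)
  have hb1 : 1 ≤ b := by rw [hb]; exact Real.one_le_rpow hm' (by positivity)
  have hak : a ^ k = m := by
    rw [ha, ← Real.rpow_natCast, ← Real.rpow_mul (by positivity), one_div_mul_cancel (by positivity), Real.rpow_one]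
  have hbk : b ^ k = m' := by
    rw [hb, ← Real.rpow_natCast, ← Real.rpow_mul (by positivity), one_div_mul_cancel (by positivity), Real.rpow_one]
  have hab : b ≤ a := by
    rw [ha, hb]
    exact Real.rpow_le_rpow (by positivity) (by exact_mod_cast hlt.le) (by positivity)
  have h1 := abs_pow_sub_pow_le a b k
  rw [hak, hbk, abs_of_pos (by linarith : 0 < a), abs_of_pos (by linarith : 0 < b), max_eq_left hab,
    abs_of_nonneg (by linarith : 0 ≤ a - b)] at h1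
  have h2 : (1:ℝ) ≤ |(m:ℝ) - m'| := by
    have : (m':ℝ) + 1 ≤ m := by exact_mod_cast hlt
    rw [abs_of_nonneg (by linarith)]; linarith
  have h3 : a ^ (k-1) ≤ m := by
    rw [← hak]; exact pow_le_pow_right₀ ha1 (by omega)
  have h4 : 1 ≤ (a - b) * k * m := by
    calc (1:ℝ) ≤ (a - b) * k * a ^ (k-1) := h2.trans h1
      _ ≤ (a - b) * k * m := by
        have : 0 ≤ a - b := by linarith
        gcongr
  have e : fq k 1 m - fq k 1 m' = 2 * Real.pi * (k * (a - b)) := by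
    unfold fq; rw [ha, hb]; ring
  rw [e, abs_mul, abs_of_pos (by positivity : (0:ℝ) < 2 * Real.pi), abs_of_nonneg (mul_nonneg (by positivity) (by linarith))]
  have hpi := Real.pi_gt_three
  have h5 : 0 ≤ (a - b) * k * m := by linarith
  have h6 : 2 * Real.pi * (k * (a - b)) * ((m:ℝ) * m') = (2 * Real.pi * m') * ((a - b) * k * m) := by ring
  rw [h6]
  have h7 : 1 ≤ 2 * Real.pi * m' := by nlinarith
  nlinarith

lemma ak_bd {k : ℕ} (hk : 2 ≤ k) : ∃ A : ℝ, 0 ≤ A ∧ ∀ m, ak k m ≤ A := by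
  have h1 := ak_sq_summable hk
  refine ⟨√(∑' m, ak k m ^ 2), Real.sqrt_nonneg _, fun m => ?_⟩
  apply Real.le_sqrt_of_sq_le
  exact h1.le_tsum m fun j _ => sq_nonneg _

/-- weighted sum of the coefficients of the smoothed series -/
lemma cS_w {k : ℕ} (hk : 2 ≤ k) {n : ℕ} (hn : 3 * k ≤ n) : ∃ A : ℝ, 0 ≤ A ∧ ∀ δ : ℝ, 0 < δ →
    (Summable fun m : ℕ => ‖cS k 1 0 δ n m‖ * m) ∧ ∑' m : ℕ, ‖cS k 1 0 δ n m‖ * m ≤ A * (1 / δ ^ k) ^ 3 := by
  obtain ⟨A, hA, hb⟩ := ak_bd hk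
  have hs : Summable fun m : ℕ => ((m:ℝ) ^ 2)⁻¹ := by
    have := Real.summable_nat_pow_inv (p := 2)
    exact this.2 (by norm_num)
  refine ⟨A * ∑' m : ℕ, ((m:ℝ) ^ 2)⁻¹, by positivity, fun δ hδ => ?_⟩
  have hle : ∀ m : ℕ, ‖cS k 1 0 δ n m‖ * m ≤ A * (1 / δ ^ k) ^ 3 * ((m:ℝ) ^ 2)⁻¹ := by
    intro m
    rcases Nat.eq_zero_or_pos m with h0 | h0
    · subst h0; simp
    have hm : (1:ℝ) ≤ m := by exact_mod_cast h0
    rw [norm_cS, one_mul]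
    have h1 : ‖cf (k * (m : ℝ) ^ (1 / (k:ℝ)) * δ)‖ ^ n ≤ ((m:ℝ) ^ (-1:ℝ) * (1 / δ ^ k)) ^ 3 := by
      calc ‖cf (k * (m : ℝ) ^ (1 / (k:ℝ)) * δ)‖ ^ n ≤ ‖cf (k * (m : ℝ) ^ (1 / (k:ℝ)) * δ)‖ ^ (k * 3) :=
            pow_le_pow_of_le_one (norm_nonneg _) (Pool.Agent.H383.OM.cf_le_one _) (by omega)
        _ = (‖cf (k * (m : ℝ) ^ (1 / (k:ℝ)) * δ)‖ ^ k) ^ 3 := by rw [pow_mul]
        _ ≤ _ := pow_le_pow_left₀ (by positivity) (cf_pow_k hk hδ h0) 3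
    calc ak k m * ‖cf (k * (m : ℝ) ^ (1 / (k:ℝ)) * δ)‖ ^ n * m ≤ A * ((m:ℝ) ^ (-1:ℝ) * (1 / δ ^ k)) ^ 3 * m := by
          gcongr
          exact hb m
      _ = A * (1 / δ ^ k) ^ 3 * ((m:ℝ) ^ 2)⁻¹ := by
          rw [Real.rpow_neg_one]
          have : (m:ℝ) ≠ 0 := by positivity
          field_simp
  have hs2 : Summable fun m : ℕ => A * (1 / δ ^ k) ^ 3 * ((m:ℝ) ^ 2)⁻¹ := hs.mul_left _
  have hs1 : Summable fun m : ℕ => ‖cS k 1 0 δ n m‖ * m :=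
    Summable.of_nonneg_of_le (fun m => by positivity) hle hs2
  refine ⟨hs1, (hs1.tsum_le_tsum hle hs2).trans (le_of_eq ?_)⟩
  rw [tsum_mul_left]; ring

/-- the partial sums of the Voronoi series -/
noncomputable def V1 (k N : ℕ) (r : ℝ) : ℝ := ser (cV k 0 N) (fq k 1) r

/-- the smoothed series is close to the partial sums in mean square, with an error depending on the smoothing -/
lemma UV_win {k : ℕ} (hk : 2 ≤ k) {n : ℕ} (hn : 3 * k ≤ n) : ∃ A : ℝ, 0 ≤ A ∧ ∀ N : ℕ, ∃ B : ℝ, 0 ≤ B ∧ ∀ Y H δ : ℝ, 0 ≤ H → 0 < δ →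
    ∫ r in Y..(Y+H), (ser (cS k 1 0 δ n) (fq k 1) r - V1 k N r) ^ 2 ≤
      H * (∑' m, ‖cS k 1 0 δ n m - cV k 0 N m‖ ^ 2) + A * (1 / δ ^ k) ^ 6 + B := by
  obtain ⟨A, hA, h1⟩ := cS_w hk hn
  refine ⟨4 * A ^ 2, by positivity, fun N => ?_⟩
  have hsV : Summable fun m : ℕ => ‖cV k 0 N m‖ * m := by
    refine summable_of_ne_finset_zero (s := Finset.range (N+1)) fun m hm => ?_
    rw [norm_cV, if_neg (by simpa [Nat.lt_succ_iff] using hm)]
    simp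
  obtain ⟨B, hB⟩ : ∃ B, B = ∑' m : ℕ, ‖cV k 0 N m‖ * m := ⟨_, rfl⟩
  have hB0 : 0 ≤ B := by rw [hB]; exact tsum_nonneg fun m => by positivity
  refine ⟨4 * B ^ 2, by positivity, fun Y H δ hH hδ => ?_⟩
  obtain ⟨s1, s2⟩ := h1 δ hδ
  have c1 := cS_summable (t := 0) hk one_pos hδ (n := n) (by omega)
  have c2 := cV_summable k 0 N
  have c3 : Summable fun m => ‖cS k 1 0 δ n m - cV k 0 N m‖ :=
    Summable.of_nonneg_of_le (fun m => norm_nonneg _) (fun m => norm_sub_le _ _) (c1.add c2)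
  have hw : ∀ m : ℕ, ‖cS k 1 0 δ n m - cV k 0 N m‖ * m ≤ ‖cS k 1 0 δ n m‖ * m + ‖cV k 0 N m‖ * m := by
    intro m
    rw [← add_mul]
    gcongr
    exact norm_sub_le _ _
  have c4 : Summable fun m : ℕ => ‖cS k 1 0 δ n m - cV k 0 N m‖ * m :=
    Summable.of_nonneg_of_le (fun m => by positivity) hw (s1.add hsV)
  have c5 : Summable fun m => ‖cS k 1 0 δ n m - cV k 0 N m‖ ^ 2 := by
    refine Summable.of_norm_bounded_eventually_nat (g := fun m => ‖cS k 1 0 δ n m - cV k 0 N m‖) c3 ?_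
    have h0 := c3.tendsto_atTop_zero
    filter_upwards [h0.eventually_lt_const (by norm_num : (0:ℝ) < 1)] with m hm
    rw [Real.norm_eq_abs, abs_pow, abs_norm]
    nlinarith [norm_nonneg (cS k 1 0 δ n m - cV k 0 N m)]
  have h2 := ms_ser (c := fun m => cS k 1 0 δ n m - cV k 0 N m) (θ := fq k 1) (W := fun m => (m:ℝ)) (fun m => Nat.cast_nonneg m) c3 (by
    intro m m' hne
    rcases Nat.eq_zero_or_pos m with h0 | h0
    · left; rw [h0, cS_zero, cV_zero, sub_zero]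
    rcases Nat.eq_zero_or_pos m' with h0' | h0'
    · right; left; rw [h0', cS_zero, cV_zero, sub_zero]
    right; right
    exact fq_gap hk h0 h0' hne) c5 c4 (Y := Y) hH
  have e : ∀ r, ser (cS k 1 0 δ n) (fq k 1) r - V1 k N r = ser (fun m => cS k 1 0 δ n m - cV k 0 N m) (fq k 1) r := by
    intro r
    exact ser_sub c1 c2 r
  simp_rw [e]
  refine h2.trans ?_
  have h3 : ∑' m : ℕ, ‖cS k 1 0 δ n m - cV k 0 N m‖ * m ≤ A * (1 / δ ^ k) ^ 3 + B := by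
    refine (c4.tsum_le_tsum hw (s1.add hsV)).trans ?_
    rw [s1.tsum_add hsV, hB]
    gcongr
  have h4 : 0 ≤ ∑' m : ℕ, ‖cS k 1 0 δ n m - cV k 0 N m‖ * m := tsum_nonneg fun m => by positivity
  have h5 : (∑' m : ℕ, ‖cS k 1 0 δ n m - cV k 0 N m‖ * m) ^ 2 ≤ (A * (1 / δ ^ k) ^ 3 + B) ^ 2 := by gcongr
  have h6 : (A * (1 / δ ^ k) ^ 3 + B) ^ 2 ≤ 2 * (A * (1 / δ ^ k) ^ 3) ^ 2 + 2 * B ^ 2 := by
    nlinarith [sq_nonneg (A * (1 / δ ^ k) ^ 3 - B)]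
  have h7 : (A * (1 / δ ^ k) ^ 3) ^ 2 = A ^ 2 * (1 / δ ^ k) ^ 6 := by ring
  rw [h7] at h6
  linarith

end Pool.Agent.H592.LI
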