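import Pool.Agent.H592.LI.A5

/-!
# On the Lindelöf hypothesis the remainder is the mean square limit of its Voronoi series
-/

open Filter Topology Set MeasureTheory Polynomial
open Pool.Agent.Y853.PZ (main_bd)
open Pool.Agent.H387R2.Vor Pool.Agent.H383.PZ Pool.Agent.H592.PD

namespace Pool.Agent.H592.LI

lemma ser_tk (k : ℕ) (δ : ℝ) (n : ℕ) (R : ℝ) : ∑' m : ℕ, tk k δ n R m = ser (cS k 1 0 δ n) (fq k 1) R := by
  unfold ser
  congr 1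
  funext m
  have := tk_eq k 1 0 δ n m R
  rw [one_mul, one_mul, add_zero] at this
  exact this

lemma V1_cont (k N : ℕ) : Continuous (V1 k N) := AP_cont (ser_AP (cV_summable k 0 N))

lemma U1_cont {k : ℕ} (hk : 2 ≤ k) {n : ℕ} (hn : k ≤ n) {δ : ℝ} (hδ : 0 < δ) : Continuous (ser (cS k 1 0 δ n) (fq k 1)) :=
  AP_cont (ser_AP (cS_summable hk one_pos hδ hn))

lemma smooth_meas (k : ℕ) (P : ℝ[X]) {δ : ℝ} (hδ : 0 < δ) (n : ℕ) : Measurable fun R => ∫ x, Fk k P (R + x) ∂(mu δ n) := by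
  have := mu_prob hδ n
  have h : Measurable (fun p : ℝ × ℝ => Fk k P (p.1 + p.2)) := (Fk_meas k P).comp (by fun_prop)
  exact (h.stronglyMeasurable.integral_prod_right' (ν := mu δ n)).measurable

lemma smooth_bd {k : ℕ} (hk : 1 ≤ k) (P : ℝ[X]) {δ : ℝ} (hδ : 0 < δ) {n : ℕ} (hnδ : n * δ ≤ 1) (T : ℝ) :
    ∃ B : ℝ, 0 ≤ B ∧ ∀ R, 1 ≤ R → R ≤ T → |Fk k P R| ≤ B ∧ |∫ x, Fk k P (R + x) ∂(mu δ n)| ≤ B := by
  have := mu_prob hδ n
  obtain ⟨B, hB0, hB⟩ := Fk_shift_bd hk P (T + 1)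
  refine ⟨B, hB0, fun R h1 h2 => ⟨hB R h1 (by linarith), ?_⟩⟩
  have h3 : ‖∫ x, Fk k P (R + x) ∂(mu δ n)‖ ≤ B * (mu δ n).real univ := by
    refine norm_integral_le_of_norm_le_const ?_
    filter_upwards [mu_supp hδ n] with x hx
    exact hB _ (by linarith [hx.1]) (by linarith [hx.2])
  simpa using h3

theorem close_R {k : ℕ} (hk : 2 ≤ k) {P : ℝ[X]} (hP : Pool.Agent.Y853.PZ.IsMain k P) (hL : LHs) {ε : ℝ} (hε : 0 < ε) :
    ∃ N₀ : ℕ, ∀ N, N₀ ≤ N → ∃ Y₀ : ℝ, 2 ≤ Y₀ ∧ ∀ Y, Y₀ ≤ Y → ∫ R in Y..(2*Y), (Fk k P R - V1 k N R) ^ 2 ≤ ε * Y := by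
  have hk0 : (2:ℝ) ≤ k := by exact_mod_cast hk
  have hk1 : 1 ≤ k := by omega
  obtain ⟨n, hn⟩ : ∃ n : ℕ, n = 3 * k + 2 := ⟨_, rfl⟩
  have hn1 : (1:ℝ) ≤ n := by rw [hn]; push_cast; linarith
  obtain ⟨C1, hC1, hV⟩ := vor_of_main hk (main_of hk1 hP)
  obtain ⟨κ, hκ⟩ : ∃ κ : ℝ, κ = 1 / (32 * k ^ 2) := ⟨_, rfl⟩
  have hκ0 : 0 < κ := by rw [hκ]; positivity
  have hκ1 : κ ≤ 1 := by
    rw [hκ, div_le_one (by positivity)]; nlinarith
  obtain ⟨γ, hγ⟩ : ∃ γ : ℝ, γ = (1 - κ) / (8 * k) - (k + 1) * κ := ⟨_, rfl⟩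
  have hγ0 : 0 < γ := by
    have e : γ = (24 * k ^ 2 - 8 * k - 1) / (256 * k ^ 3) := by
      rw [hγ, hκ]; field_simp; ring
    rw [e]
    apply div_pos _ (by positivity)
    nlinarith
  obtain ⟨C2, hC2, hS⟩ := smooth_ms hk1 hP hL hκ0 hκ1 (n := n) (by omega)
  obtain ⟨A, hA, hUV⟩ := UV_win hk (n := n) (by omega)
  obtain ⟨N₀, hN₀⟩ := smooth_close hk one_pos 0 n (ε := ε/6) (by positivity)
  refine ⟨N₀, fun N hN => ?_⟩
  obtain ⟨δ₀, hδ₀, hsc⟩ := hN₀ N hN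
  obtain ⟨B, hB, hUV2⟩ := hUV N
  -- the smoothing parameter
  have hδlim : Tendsto (fun Y : ℝ => Y ^ (-(1 / (8 * (k:ℝ))))) atTop (𝓝 0) := tendsto_rpow_neg_atTop (by positivity)
  have hlim : Tendsto (fun Y : ℝ => 3 * C2 * Y ^ (-γ) + 3 * C1 ^ 2 * Y ^ (-(1/4) : ℝ) + 3 * (ε/6) + 3 * A * Y ^ (-(1/4) : ℝ) + 3 * B * Y ^ (-(1:ℝ)))
      atTop (𝓝 (3 * C2 * 0 + 3 * C1 ^ 2 * 0 + 3 * (ε/6) + 3 * A * 0 + 3 * B * 0)) := by
    have t1 := tendsto_rpow_neg_atTop hγ0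
    have t2 := tendsto_rpow_neg_atTop (y := 1/4) (by norm_num)
    have t3 := tendsto_rpow_neg_atTop (y := 1) (by norm_num)
    exact ((((t1.const_mul _).add (t2.const_mul _)).add tendsto_const_nhds).add (t2.const_mul _)).add (t3.const_mul _)
  have hev := hlim.eventually_le_const (by linarith : 3 * C2 * 0 + 3 * C1 ^ 2 * 0 + 3 * (ε/6) + 3 * A * 0 + 3 * B * 0 < ε)
  have hev2 := hδlim.eventually_le_const (by positivity : 0 < min δ₀ (1 / (2 * (k * n))))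
  obtain ⟨Y₁, hY₁⟩ := eventually_atTop.1 (hev.and hev2)
  refine ⟨max Y₁ 2, le_max_right _ _, fun Y hY => ?_⟩
  obtain ⟨hY1, hY2⟩ := hY₁ Y ((le_max_left _ _).trans hY)
  have hY2' : 2 ≤ Y := (le_max_right _ _).trans hY
  have hY0 : 0 < Y := by linarith
  obtain ⟨δ, hδ⟩ : ∃ δ, δ = Y ^ (-(1 / (8 * (k:ℝ)))) := ⟨_, rfl⟩
  have hδ0 : 0 < δ := by rw [hδ]; positivity
  rw [← hδ] at hY2
  have hδ1 : δ ≤ δ₀ := hY2.trans (min_le_left _ _)
  have hδ2 : k * (n * δ) ≤ 1/2 := by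
    have h := hY2.trans (min_le_right _ _)
    calc k * (n * δ) = (k * n) * δ := by ring
      _ ≤ (k * n) * (1 / (2 * (k * n))) := by gcongr
      _ = 1/2 := by field_simp
  have hnδ : n * δ ≤ 1/2 := by nlinarith [mul_pos (by linarith : (0:ℝ) < n) hδ0]
  have hδ3 : δ ≤ 1/2 := by nlinarith
  have hδk : 1 / δ ^ k = Y ^ (1/8 : ℝ) := by
    rw [hδ, ← Real.rpow_natCast, ← Real.rpow_mul hY0.le, one_div, ← Real.rpow_neg hY0.le]
    congr 1; field_simp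
  have hδk' : δ ^ (-(k:ℝ)) = Y ^ (1/8 : ℝ) := by
    rw [Real.rpow_neg hδ0.le, Real.rpow_natCast, ← hδk, one_div]
  -- the three parts
  set sm : ℝ → ℝ := fun R => ∫ x, Fk k P (R + x) ∂(mu δ n) with hsm
  set U : ℝ → ℝ := ser (cS k 1 0 δ n) (fq k 1) with hU
  have hUc : Continuous U := U1_cont hk (by omega) hδ0
  have hVc := V1_cont k N
  have hFm := Fk_meas k P
  have hsmm : Measurable sm := smooth_meas k P hδ0 n
  obtain ⟨B1, hB10, hB1⟩ := smooth_bd hk1 P hδ0 (by linarith : n * δ ≤ 1) (2 * Y)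
  have i1 : IntegrableOn (fun R => (Fk k P R - sm R) ^ 2) (Ioc Y (2 * Y)) := by
    refine Measure.integrableOn_of_bounded (M := (2 * B1) ^ 2) (by simp) ((hFm.sub hsmm).pow_const 2).aestronglyMeasurable ?_
    refine (ae_restrict_iff' measurableSet_Ioc).2 (Eventually.of_forall fun R hR => ?_)
    obtain ⟨h1, h2⟩ := hB1 R (by linarith [hR.1]) hR.2
    rw [Real.norm_eq_abs, abs_pow]
    have h3 : |Fk k P R - sm R| ≤ 2 * B1 := (abs_sub _ _).trans (by linarith)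
    gcongr
  have i3 : IntegrableOn (fun R => (U R - V1 k N R) ^ 2) (Ioc Y (2 * Y)) := by
    have : IntervalIntegrable (fun R => (U R - V1 k N R) ^ 2) volume Y (2 * Y) := ((hUc.sub hVc).pow 2).intervalIntegrable _ _
    exact (intervalIntegrable_iff_integrableOn_Ioc_of_le (by linarith)).1 this
  have hpt : ∀ R ∈ Ioc Y (2 * Y), (Fk k P R - V1 k N R) ^ 2 ≤
      3 * (Fk k P R - sm R) ^ 2 + 3 * (C1 * Y ^ (-(1/8) : ℝ)) ^ 2 + 3 * (U R - V1 k N R) ^ 2 := by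
    intro R hR
    have h1 := hV n R δ (by omega) (by linarith [hR.1]) hδ0 hδ3
    rw [ser_tk, hδk'] at h1
    have h2 : |sm R - U R| ≤ C1 * Y ^ (-(1/8) : ℝ) := by
      refine h1.trans ?_
      have h3 : R ^ (-(1/4) : ℝ) ≤ Y ^ (-(1/4) : ℝ) := Real.rpow_le_rpow_of_nonpos hY0 hR.1.le (by norm_num)
      calc C1 * (R ^ (-(1/4) : ℝ) * Y ^ (1/8 : ℝ)) ≤ C1 * (Y ^ (-(1/4) : ℝ) * Y ^ (1/8 : ℝ)) := by gcongr
        _ = C1 * Y ^ (-(1/8) : ℝ) := by rw [← Real.rpow_add hY0]; norm_num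
    have h4 : (sm R - U R) ^ 2 ≤ (C1 * Y ^ (-(1/8) : ℝ)) ^ 2 := by
      rw [← sq_abs]; gcongr
    have h5 : (Fk k P R - V1 k N R) ^ 2 ≤ 3 * (Fk k P R - sm R) ^ 2 + 3 * (sm R - U R) ^ 2 + 3 * (U R - V1 k N R) ^ 2 := by
      nlinarith [sq_nonneg ((Fk k P R - sm R) - (sm R - U R)), sq_nonneg ((Fk k P R - sm R) - (U R - V1 k N R)),
        sq_nonneg ((sm R - U R) - (U R - V1 k N R))]
    linarith
  rw [intervalIntegral.integral_of_le (by linarith)]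
  have hI : ∫ R in Ioc Y (2 * Y), (Fk k P R - V1 k N R) ^ 2 ≤
      3 * (∫ R in Ioc Y (2 * Y), (Fk k P R - sm R) ^ 2) + 3 * (C1 * Y ^ (-(1/8) : ℝ)) ^ 2 * Y +
        3 * (∫ R in Ioc Y (2 * Y), (U R - V1 k N R) ^ 2) := by
    calc ∫ R in Ioc Y (2 * Y), (Fk k P R - V1 k N R) ^ 2
        ≤ ∫ R in Ioc Y (2 * Y), (3 * (Fk k P R - sm R) ^ 2 + 3 * (C1 * Y ^ (-(1/8) : ℝ)) ^ 2 + 3 * (U R - V1 k N R) ^ 2) := by
          refine integral_mono_of_nonneg (Eventually.of_forall fun u => sq_nonneg _)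
            (((i1.const_mul 3).add (integrable_const _)).add (i3.const_mul 3))
            ((ae_restrict_iff' measurableSet_Ioc).2 (Eventually.of_forall hpt))
      _ = _ := by
          have j1 : Integrable (fun R => 3 * (Fk k P R - sm R) ^ 2 + 3 * (C1 * Y ^ (-(1/8) : ℝ)) ^ 2) (volume.restrict (Ioc Y (2 * Y))) :=
            (i1.const_mul 3).add (integrable_const _)
          rw [integral_add j1 (i3.const_mul 3), integral_add (i1.const_mul 3) (integrable_const _), integral_const, integral_const_mul,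
            integral_const_mul, smul_eq_mul, measureReal_restrict_apply MeasurableSet.univ, univ_inter,
            Real.volume_real_Ioc_of_le (by linarith)]
          ring
  refine hI.trans ?_
  have b1 := hS Y δ hY2' hδ0 (by linarith)
  rw [intervalIntegral.integral_of_le (by linarith)] at b1
  have b3 := hUV2 Y Y δ hY0.le hδ0
  rw [← two_mul, intervalIntegral.integral_of_le (by linarith)] at b3
  have b4 := hsc δ hδ0 hδ1
  have e1 : Y ^ (1 + ((k:ℝ) + 1) * κ) * δ ^ (1 - κ) = Y * Y ^ (-γ) := by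
    rw [hδ, ← Real.rpow_mul hY0.le, ← Real.rpow_add hY0]
    rw [← Real.rpow_one_add' hY0.le]
    · congr 1; rw [hγ]; field_simp; ring
    · have : γ < 1 := by
        rw [hγ]
        have q1 : (1 - κ) / (8 * k) ≤ 1/16 := by
          rw [div_le_iff₀ (by positivity)]; linarith
        have : 0 < ((k:ℝ) + 1) * κ := by positivity
        linarith
      linarith
  have e2 : (1 / δ ^ k) ^ 6 = Y * Y ^ (-(1/4) : ℝ) := by
    rw [hδk, ← Real.rpow_natCast, ← Real.rpow_mul hY0.le, ← Real.rpow_one_add' hY0.le (by norm_num)]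
    norm_num
  have e3 : (C1 * Y ^ (-(1/8) : ℝ)) ^ 2 = C1 ^ 2 * Y ^ (-(1/4) : ℝ) := by
    rw [mul_pow, ← Real.rpow_natCast (Y ^ (-(1/8) : ℝ)), ← Real.rpow_mul hY0.le]
    norm_num
  have e4 : Y * Y ^ (-(1:ℝ)) = 1 := by
    rw [Real.rpow_neg_one]; field_simp
  have b3' : ∫ R in Ioc Y (2 * Y), (U R - V1 k N R) ^ 2 ≤ Y * (ε/6) + A * (Y * Y ^ (-(1/4) : ℝ)) + B * (Y * Y ^ (-(1:ℝ))) := by
    rw [← e2, e4, mul_one]
    refine b3.trans ?_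
    gcongr
  have b1' : ∫ R in Ioc Y (2 * Y), (Fk k P R - sm R) ^ 2 ≤ C2 * (Y * Y ^ (-γ)) := by
    rw [← e1, ← mul_assoc]; exact b1
  rw [e3]
  calc 3 * (∫ R in Ioc Y (2 * Y), (Fk k P R - sm R) ^ 2) + 3 * (C1 ^ 2 * Y ^ (-(1/4) : ℝ)) * Y +
        3 * (∫ R in Ioc Y (2 * Y), (U R - V1 k N R) ^ 2)
      ≤ 3 * (C2 * (Y * Y ^ (-γ))) + 3 * (C1 ^ 2 * Y ^ (-(1/4) : ℝ)) * Y +
        3 * (Y * (ε/6) + A * (Y * Y ^ (-(1/4) : ℝ)) + B * (Y * Y ^ (-(1:ℝ)))) := by gcongr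
    _ = (3 * C2 * Y ^ (-γ) + 3 * C1 ^ 2 * Y ^ (-(1/4) : ℝ) + 3 * (ε/6) + 3 * A * Y ^ (-(1/4) : ℝ) + 3 * B * Y ^ (-(1:ℝ))) * Y := by ring
    _ ≤ ε * Y := by gcongr

end Pool.Agent.H592.LI
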