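import Mathlib

/-!
# Means of exponentials with phases that are sums of different powers
-/

open Filter Topology Set MeasureTheory

namespace Pool.Agent.H592.LI

/-- the mean over `[X, 2X]` tends to `M` -/
def XM (g : ℝ → ℂ) (M : ℂ) : Prop := Tendsto (fun X : ℝ => (∫ x in X..(2*X), g x) / X) atTop (𝓝 M)

/-- first derivative test -/
lemma fdt {ψ ψ1 ψ2 : ℝ → ℝ} {X₀ c C β : ℝ} (hX₀ : 1 ≤ X₀) (hc : 0 < c) (hC : 0 ≤ C) (hβ : 0 < β)
    (h1 : ∀ x, X₀ ≤ x → HasDerivAt ψ (ψ1 x) x) (h2 : ∀ x, X₀ ≤ x → HasDerivAt ψ1 (ψ2 x) x) (h3 : ∀ x, X₀ ≤ x → ContinuousAt ψ2 x)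
    (hb1 : ∀ x, X₀ ≤ x → c * x ^ (β - 1) ≤ |ψ1 x|) (hb2 : ∀ x, X₀ ≤ x → |ψ2 x| ≤ C * x ^ (β - 2)) :
    XM (fun x => Complex.exp ((ψ x : ℂ) * Complex.I)) 0 := by
  have hne : ∀ x, X₀ ≤ x → ψ1 x ≠ 0 := by
    intro x hx h0
    have := hb1 x hx
    rw [h0, abs_zero] at this
    have : 0 < c * x ^ (β - 1) := by have : 0 < x := by linarith
                                     positivity
    linarith
  -- the primitive
  obtain ⟨F, hF⟩ : ∃ F : ℝ → ℂ, F = fun x => Complex.exp ((ψ x : ℂ) * Complex.I) / ((ψ1 x : ℂ) * Complex.I) := ⟨_, rfl⟩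
  obtain ⟨G, hG⟩ : ∃ G : ℝ → ℂ, G = fun x => Complex.exp ((ψ x : ℂ) * Complex.I) * ((ψ2 x / (ψ1 x) ^ 2 : ℝ) : ℂ) * Complex.I := ⟨_, rfl⟩
  have hd : ∀ x, X₀ ≤ x → HasDerivAt F (Complex.exp ((ψ x : ℂ) * Complex.I) + G x) x := by
    intro x hx
    have e1 : HasDerivAt (fun x => (ψ x : ℂ) * Complex.I) ((ψ1 x : ℂ) * Complex.I) x := (h1 x hx).ofReal_comp.mul_const _
    have e2 : HasDerivAt (fun x => (ψ1 x : ℂ) * Complex.I) ((ψ2 x : ℂ) * Complex.I) x := (h2 x hx).ofReal_comp.mul_const _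
    have hne' : (ψ1 x : ℂ) * Complex.I ≠ 0 := mul_ne_zero (by exact_mod_cast hne x hx) Complex.I_ne_zero
    have e3 := (e1.cexp).div e2 hne'
    rw [hF]
    refine e3.congr_deriv ?_
    rw [hG]
    have hn : (ψ1 x : ℂ) ≠ 0 := by exact_mod_cast hne x hx
    push_cast
    field_simp
    linear_combination (-(ψ2 x : ℂ)) * Complex.I_sq
  have hexp : ∀ x, ‖Complex.exp ((ψ x : ℂ) * Complex.I)‖ = 1 := fun x => Complex.norm_exp_ofReal_mul_I _
  have hFb : ∀ x, X₀ ≤ x → ‖F x‖ ≤ x ^ (1 - β) / c := by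
    intro x hx
    have hx0 : 0 < x := by linarith
    rw [hF]
    simp only
    rw [norm_div, hexp, norm_mul, Complex.norm_I, mul_one, Complex.norm_real, Real.norm_eq_abs]
    have e : x ^ (1 - β) / c = 1 / (c * x ^ (β - 1)) := by
      rw [show (1:ℝ) - β = -(β - 1) by ring, Real.rpow_neg hx0.le]; field_simp
    rw [e]
    exact one_div_le_one_div_of_le (by positivity) (hb1 x hx)
  have hGb : ∀ x, X₀ ≤ x → ‖G x‖ ≤ C / c ^ 2 * x ^ (-β) := by
    intro x hx
    have hx0 : 0 < x := by linarith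
    rw [hG]
    simp only
    rw [norm_mul, norm_mul, hexp, Complex.norm_I, mul_one, one_mul, Complex.norm_real, Real.norm_eq_abs, abs_div, abs_pow]
    have e : C / c ^ 2 * x ^ (-β) = (C * x ^ (β - 2)) / (c * x ^ (β - 1)) ^ 2 := by
      rw [mul_pow, ← Real.rpow_natCast (x ^ (β - 1)), ← Real.rpow_mul hx0.le, mul_div_mul_comm, ← Real.rpow_sub hx0]
      congr 2; push_cast; ring
    rw [e]
    have := hb1 x hx
    have := hb2 x hx
    gcongr
  have hGc : ∀ x, X₀ ≤ x → ContinuousAt G x := by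
    intro x hx
    rw [hG]
    have c1 : ContinuousAt ψ x := (h1 x hx).continuousAt
    have c2 : ContinuousAt ψ1 x := (h2 x hx).continuousAt
    have c3 := h3 x hx
    have hn := hne x hx
    have c4 : ContinuousAt (fun x => ψ2 x / (ψ1 x) ^ 2) x := c3.div (c2.pow 2) (by positivity)
    have c5 : ContinuousAt (fun x => ((ψ2 x / (ψ1 x) ^ 2 : ℝ) : ℂ)) x := Complex.continuous_ofReal.continuousAt.comp c4
    have c6 : ContinuousAt (fun x => Complex.exp ((ψ x : ℂ) * Complex.I)) x :=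
      (Complex.continuous_exp.continuousAt.comp ((Complex.continuous_ofReal.continuousAt.comp c1).mul continuousAt_const))
    exact (c6.mul c5).mul continuousAt_const
  -- bound
  have key : ∀ X, X₀ ≤ X → ‖(∫ x in X..(2*X), Complex.exp ((ψ x : ℂ) * Complex.I)) / X‖ ≤
      ((2:ℝ) ^ |1 - β| + 1 + C / c) / c * X ^ (-β) := by
    intro X hX
    have hX0 : 0 < X := by linarith
    have hle : X ≤ 2 * X := by linarith
    have c0 : ContinuousOn (fun x => Complex.exp ((ψ x : ℂ) * Complex.I)) (uIcc X (2*X)) := by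
      intro x hx
      rw [uIcc_of_le hle] at hx
      have c1 : ContinuousAt ψ x := (h1 x (hX.trans hx.1)).continuousAt
      exact ((Complex.continuous_exp.continuousAt.comp ((Complex.continuous_ofReal.continuousAt.comp c1).mul
        continuousAt_const))).continuousWithinAt
    have cG : ContinuousOn G (uIcc X (2*X)) := by
      intro x hx
      rw [uIcc_of_le hle] at hx
      exact (hGc x (hX.trans hx.1)).continuousWithinAt
    have i0 := c0.intervalIntegrable (μ := volume)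
    have iG := cG.intervalIntegrable (μ := volume)
    have e1 := intervalIntegral.integral_eq_sub_of_hasDerivAt (f := F) (a := X) (b := 2 * X) (fun x hx => by
      rw [uIcc_of_le hle] at hx
      exact hd x (hX.trans hx.1)) (i0.add iG)
    rw [intervalIntegral.integral_add i0 iG] at e1
    have e2 : ∫ x in X..(2*X), Complex.exp ((ψ x : ℂ) * Complex.I) = F (2*X) - F X - ∫ x in X..(2*X), G x := by
      rw [← e1]; ring
    have b1 : ‖∫ x in X..(2*X), G x‖ ≤ C / c ^ 2 * X ^ (-β) * |2 * X - X| := by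
      refine intervalIntegral.norm_integral_le_of_norm_le_const fun x hx => ?_
      rw [uIoc_of_le hle] at hx
      refine (hGb x (hX.trans hx.1.le)).trans ?_
      have : x ^ (-β) ≤ X ^ (-β) := Real.rpow_le_rpow_of_nonpos hX0 hx.1.le (by linarith)
      gcongr
    have b2 : ‖F (2*X)‖ ≤ (2:ℝ) ^ |1 - β| * X ^ (1 - β) / c := by
      refine (hFb _ (by linarith)).trans ?_
      rw [Real.mul_rpow (by norm_num) hX0.le]
      have : (2:ℝ) ^ (1 - β) ≤ (2:ℝ) ^ |1 - β| := Real.rpow_le_rpow_of_exponent_le (by norm_num) (le_abs_self _)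
      gcongr
    have b3 := hFb X hX
    rw [norm_div, Complex.norm_real, Real.norm_eq_abs, abs_of_pos hX0, div_le_iff₀ hX0, e2]
    have e3 : X ^ (1 - β) = X * X ^ (-β) := by
      rw [sub_eq_add_neg, Real.rpow_add hX0, Real.rpow_one]
    calc ‖F (2*X) - F X - ∫ x in X..(2*X), G x‖ ≤ ‖F (2*X)‖ + ‖F X‖ + ‖∫ x in X..(2*X), G x‖ :=
          (norm_sub_le _ _).trans (add_le_add_left (norm_sub_le _ _) _)
      _ ≤ (2:ℝ) ^ |1 - β| * X ^ (1 - β) / c + X ^ (1 - β) / c + C / c ^ 2 * X ^ (-β) * |2 * X - X| := by gcongr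
      _ = _ := by
        have : |2 * X - X| = X := by rw [abs_of_nonneg (by linarith)]; ring
        rw [this, e3]
        field_simp
  unfold XM
  rw [tendsto_zero_iff_norm_tendsto_zero]
  have hlim : Tendsto (fun X : ℝ => ((2:ℝ) ^ |1 - β| + 1 + C / c) / c * X ^ (-β)) atTop (𝓝 0) := by
    simpa using (tendsto_rpow_neg_atTop hβ).const_mul (((2:ℝ) ^ |1 - β| + 1 + C / c) / c)
  refine squeeze_zero' (Eventually.of_forall fun X => norm_nonneg _) ?_ hlim
  filter_upwards [eventually_ge_atTop X₀] with X hX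
  exact key X hX

/-- the mean of an exponential of a nonzero combination of powers with different exponents in `(0,1)` is zero -/
theorem exp_mean {ι : Type*} [Fintype ι] {β : ι → ℝ} (hβ0 : ∀ j, 0 < β j) (hβ1 : ∀ j, β j < 1)
    (hinj : Function.Injective β) {θ : ι → ℝ} (hθ : ∃ j, θ j ≠ 0) :
    XM (fun x => Complex.exp (((∑ j, θ j * x ^ β j : ℝ) : ℂ) * Complex.I)) 0 := by
  classical
  obtain ⟨j₀, hj₀, hmax⟩ := Finset.exists_max_image (Finset.univ.filter fun j => θ j ≠ 0) β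
    (by obtain ⟨j, hj⟩ := hθ; exact ⟨j, by simp [hj]⟩)
  have hθ0 : θ j₀ ≠ 0 := by simpa using hj₀
  have hlt : ∀ j, j ≠ j₀ → θ j ≠ 0 → β j < β j₀ := by
    intro j hj h
    exact lt_of_le_of_ne (hmax j (by simp [h])) fun e => hj (hinj e)
  -- derivatives
  have d1 : ∀ x : ℝ, 0 < x → HasDerivAt (fun x : ℝ => ∑ j, θ j * x ^ β j) (∑ j, θ j * (β j * x ^ (β j - 1))) x := by
    intro x hx
    refine HasDerivAt.fun_sum fun j _ => ?_
    exact (Real.hasDerivAt_rpow_const (Or.inl hx.ne')).const_mul _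
  have d2 : ∀ x : ℝ, 0 < x → HasDerivAt (fun x : ℝ => ∑ j, θ j * (β j * x ^ (β j - 1)))
      (∑ j, θ j * (β j * ((β j - 1) * x ^ (β j - 1 - 1)))) x := by
    intro x hx
    refine HasDerivAt.fun_sum fun j _ => ?_
    exact ((Real.hasDerivAt_rpow_const (Or.inl hx.ne')).const_mul _).const_mul _
  have d3 : ∀ x : ℝ, 0 < x → ContinuousAt (fun x : ℝ => ∑ j, θ j * (β j * ((β j - 1) * x ^ (β j - 1 - 1)))) x := by
    intro x hx
    refine tendsto_finsetSum _ fun j _ => ?_
    exact ((((Real.continuousAt_rpow_const x _ (Or.inl hx.ne')).const_mul _).const_mul _).const_mul _)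
  -- the main term of the first derivative
  have hlim : Tendsto (fun x : ℝ => ∑ j, θ j * (β j * x ^ (β j - β j₀))) atTop (𝓝 (θ j₀ * β j₀)) := by
    have h : ∀ j ∈ Finset.univ, Tendsto (fun x : ℝ => θ j * (β j * x ^ (β j - β j₀))) atTop (𝓝 (if j = j₀ then θ j₀ * β j₀ else 0)) := by
      intro j _
      by_cases hj : j = j₀
      · subst hj
        simp
      · rw [if_neg hj]
        by_cases h0 : θ j = 0
        · simp [h0]
        · have h1 := tendsto_rpow_neg_atTop (y := β j₀ - β j) (by linarith [hlt j hj h0])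
          have h2 := (h1.const_mul (β j)).const_mul (θ j)
          simpa using h2
    have := tendsto_finsetSum Finset.univ h
    simpa using this
  have hpos : 0 < |θ j₀ * β j₀| := abs_pos.2 (mul_ne_zero hθ0 (hβ0 j₀).ne')
  have hev := hlim.abs.eventually_const_lt (by linarith : |θ j₀ * β j₀| / 2 < |θ j₀ * β j₀|)
  obtain ⟨X₁, hX₁⟩ := eventually_atTop.1 hev
  refine fdt (ψ := fun x => ∑ j, θ j * x ^ β j) (ψ1 := fun x => ∑ j, θ j * (β j * x ^ (β j - 1)))
    (ψ2 := fun x => ∑ j, θ j * (β j * ((β j - 1) * x ^ (β j - 1 - 1)))) (X₀ := max X₁ 1) (c := |θ j₀ * β j₀| / 2)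
    (C := ∑ j, |θ j|) (β := β j₀) (le_max_right _ _) (by positivity) (Finset.sum_nonneg fun j _ => abs_nonneg _) (hβ0 j₀)
    (fun x hx => d1 x (by linarith [(le_max_right X₁ 1).trans hx])) (fun x hx => d2 x (by linarith [(le_max_right X₁ 1).trans hx]))
    (fun x hx => d3 x (by linarith [(le_max_right X₁ 1).trans hx])) ?_ ?_
  · intro x hx
    have hx1 : 1 ≤ x := (le_max_right X₁ 1).trans hx
    have hx0 : 0 < x := by linarith
    have e : ∑ j, θ j * (β j * x ^ (β j - 1)) = (∑ j, θ j * (β j * x ^ (β j - β j₀))) * x ^ (β j₀ - 1) := by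
      rw [Finset.sum_mul]
      refine Finset.sum_congr rfl fun j _ => ?_
      rw [mul_assoc, mul_assoc, ← Real.rpow_add hx0]
      congr 3; ring
    have h5 := hX₁ x ((le_max_left _ _).trans hx)
    rw [e]
    calc |θ j₀ * β j₀| / 2 * x ^ (β j₀ - 1) ≤ |∑ j, θ j * (β j * x ^ (β j - β j₀))| * x ^ (β j₀ - 1) := by gcongr
      _ = |(∑ j, θ j * (β j * x ^ (β j - β j₀))) * x ^ (β j₀ - 1)| := by
        rw [abs_mul (∑ j, θ j * (β j * x ^ (β j - β j₀))), abs_of_pos (Real.rpow_pos_of_pos hx0 _)]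
  · intro x hx
    have hx1 : 1 ≤ x := (le_max_right X₁ 1).trans hx
    have hx0 : 0 < x := by linarith
    rw [Finset.sum_mul]
    refine (Finset.abs_sum_le_sum_abs _ _).trans (Finset.sum_le_sum fun j _ => ?_)
    rw [abs_mul]
    by_cases h0 : θ j = 0
    · simp [h0]
    have hb : β j ≤ β j₀ := hmax j (by simp [h0])
    have h1 : |β j * ((β j - 1) * x ^ (β j - 1 - 1))| ≤ x ^ (β j₀ - 2) := by
      rw [abs_mul, abs_mul, abs_of_pos (Real.rpow_pos_of_pos hx0 _), abs_of_pos (hβ0 j)]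
      have h2 : |β j - 1| ≤ 1 := by rw [abs_le]; constructor <;> linarith [hβ0 j, hβ1 j]
      have h3 : x ^ (β j - 1 - 1) ≤ x ^ (β j₀ - 2) := Real.rpow_le_rpow_of_exponent_le hx1 (by linarith)
      have h4 : 0 < x ^ (β j - 1 - 1) := Real.rpow_pos_of_pos hx0 _
      calc β j * (|β j - 1| * x ^ (β j - 1 - 1)) ≤ 1 * (1 * x ^ (β j₀ - 2)) := by
            gcongr
            exact (hβ1 j).le
        _ = _ := by ring
    gcongr

end Pool.Agent.H592.LI
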