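import Pool.Agent.H592.LI.B1
import Pool.Agent.H592.PD.A5

/-!
# Means of products of almost periodic functions of different powers
-/

open Filter Topology Set MeasureTheory
open Pool.Agent.H592.PD

namespace Pool.Agent.H592.LI

/-- complex valued almost periodic functions -/
def CAP (g : ℝ → ℂ) : Prop := AP (fun r => (g r).re) ∧ AP (fun r => (g r).im)

/-- the mean of a complex valued almost periodic function -/
noncomputable def Mc (g : ℝ → ℂ) : ℂ := ((Mn fun r => (g r).re : ℝ) : ℂ) + ((Mn fun r => (g r).im : ℝ) : ℂ) * Complex.I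

lemma CAP_cont {g : ℝ → ℂ} (hg : CAP g) : Continuous g := by
  have h1 := AP_cont hg.1
  have h2 := AP_cont hg.2
  have e : g = fun r => (((g r).re : ℝ) : ℂ) + (((g r).im : ℝ) : ℂ) * Complex.I := by
    funext r; rw [Complex.re_add_im]
  rw [e]
  fun_prop

lemma CAP_bdd {g : ℝ → ℂ} (hg : CAP g) : ∃ B : ℝ, 0 ≤ B ∧ ∀ r, ‖g r‖ ≤ B := by
  obtain ⟨B1, h1, b1⟩ := AP_bdd hg.1
  obtain ⟨B2, h2, b2⟩ := AP_bdd hg.2
  refine ⟨B1 + B2, by positivity, fun r => ?_⟩
  exact (Complex.norm_le_abs_re_add_abs_im _).trans (add_le_add (b1 r) (b2 r))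

lemma CAP_add {g h : ℝ → ℂ} (hg : CAP g) (hh : CAP h) : CAP (fun r => g r + h r) := by
  refine ⟨?_, ?_⟩
  · simpa only [Complex.add_re] using AP_add hg.1 hh.1
  · simpa only [Complex.add_im] using AP_add hg.2 hh.2

lemma AP_neg' {f : ℝ → ℝ} (hf : AP f) : AP (fun r => -f r) := by
  have := AP_smul (-1) hf
  simpa using this

lemma AP_sub' {f g : ℝ → ℝ} (hf : AP f) (hg : AP g) : AP (fun r => f r - g r) := by
  have := AP_add hf (AP_neg' hg)
  simpa [sub_eq_add_neg] using this

lemma CAP_mul {g h : ℝ → ℂ} (hg : CAP g) (hh : CAP h) : CAP (fun r => g r * h r) := by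
  refine ⟨?_, ?_⟩
  · simpa only [Complex.mul_re] using AP_sub' (AP_mul hg.1 hh.1) (AP_mul hg.2 hh.2)
  · simpa only [Complex.mul_im] using AP_add (AP_mul hg.1 hh.2) (AP_mul hg.2 hh.1)

lemma CAP_const (c : ℂ) : CAP (fun _ => c) := ⟨AP_const _, AP_const _⟩

lemma CAP_real {u : ℝ → ℝ} (hu : AP u) : CAP (fun r => ((u r : ℝ) : ℂ)) := by
  refine ⟨?_, ?_⟩
  · simpa using hu
  · simpa using AP_const 0

lemma Mc_real {u : ℝ → ℝ} : Mc (fun r => ((u r : ℝ) : ℂ)) = ((Mn u : ℝ) : ℂ) := by
  unfold Mc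
  simp only [Complex.ofReal_re, Complex.ofReal_im]
  rw [Mn_const]
  simp

lemma CAP_exp (θ : ℝ) : CAP (fun r => Complex.exp (((θ * r : ℝ) : ℂ) * Complex.I)) := by
  refine ⟨?_, ?_⟩
  · have h := AP_of_TP (cos_mem θ 0)
    have e : (fun r : ℝ => (Complex.exp (((θ * r : ℝ) : ℂ) * Complex.I)).re) = fun r : ℝ => Real.cos (θ * r + 0) := by
      funext r
      rw [Complex.exp_ofReal_mul_I_re, add_zero]
    rw [e]
    exact h
  · have h := AP_of_TP (cos_mem θ (-(Real.pi / 2)))
    have e : (fun r : ℝ => (Complex.exp (((θ * r : ℝ) : ℂ) * Complex.I)).im) = fun r : ℝ => Real.cos (θ * r + -(Real.pi / 2)) := by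
      funext r
      rw [Complex.exp_ofReal_mul_I_im, ← sub_eq_add_neg, Real.cos_sub_pi_div_two]
    rw [e]
    exact h

lemma Mc_add {g h : ℝ → ℂ} (hg : CAP g) (hh : CAP h) : Mc (fun r => g r + h r) = Mc g + Mc h := by
  unfold Mc
  simp only [Complex.add_re, Complex.add_im]
  rw [Mn_add hg.1 hh.1, Mn_add hg.2 hh.2]
  push_cast
  ring

lemma Mn_sub' {f g : ℝ → ℝ} (hf : AP f) (hg : AP g) : Mn (fun r => f r - g r) = Mn f - Mn g := by
  have h1 := Mn_add hf (AP_smul (-1) hg)
  rw [Mn_smul (-1) hg] at h1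
  have e : (fun r => f r - g r) = fun r => f r + -1 * g r := by funext r; ring
  rw [e, h1]; ring

lemma Mc_smul {g : ℝ → ℂ} (c : ℂ) (hg : CAP g) : Mc (fun r => c * g r) = c * Mc g := by
  unfold Mc
  simp only [Complex.mul_re, Complex.mul_im]
  rw [Mn_sub' (AP_smul _ hg.1) (AP_smul _ hg.2), Mn_add (AP_smul _ hg.2) (AP_smul _ hg.1), Mn_smul _ hg.1, Mn_smul _ hg.2,
    Mn_smul _ hg.1, Mn_smul _ hg.2]
  apply Complex.ext
  · simp
  · simp

lemma Mn_dist {f g : ℝ → ℝ} (hf : AP f) (hg : AP g) {ε : ℝ} (h : ∀ r, |f r - g r| ≤ ε) : |Mn f - Mn g| ≤ ε := by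
  rw [← Mn_sub' hf hg, abs_le]
  constructor
  · rw [← Mn_const (-ε)]
    exact Mn_mono (AP_const _) (AP_sub' hf hg) fun r => (abs_le.1 (h r)).1
  · rw [← Mn_const ε]
    exact Mn_mono (AP_sub' hf hg) (AP_const _) fun r => (abs_le.1 (h r)).2

lemma Mc_dist {g h : ℝ → ℂ} (hg : CAP g) (hh : CAP h) {ε : ℝ} (H : ∀ r, ‖g r - h r‖ ≤ ε) : ‖Mc g - Mc h‖ ≤ 2 * ε := by
  have h1 : |(Mn fun r => (g r).re) - (Mn fun r => (h r).re)| ≤ ε := by
    refine Mn_dist hg.1 hh.1 fun r => ?_
    rw [← Complex.sub_re]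
    exact (Complex.abs_re_le_norm _).trans (H r)
  have h2 : |(Mn fun r => (g r).im) - (Mn fun r => (h r).im)| ≤ ε := by
    refine Mn_dist hg.2 hh.2 fun r => ?_
    rw [← Complex.sub_im]
    exact (Complex.abs_im_le_norm _).trans (H r)
  have e1 : (Mc g - Mc h).re = (Mn fun r => (g r).re) - (Mn fun r => (h r).re) := by simp [Mc]
  have e2 : (Mc g - Mc h).im = (Mn fun r => (g r).im) - (Mn fun r => (h r).im) := by simp [Mc]
  have h3 := Complex.norm_le_abs_re_add_abs_im (Mc g - Mc h)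
  rw [e1, e2] at h3
  linarith

lemma Mc_exp {θ : ℝ} (hθ : θ ≠ 0) : Mc (fun r => Complex.exp (((θ * r : ℝ) : ℂ) * Complex.I)) = 0 := by
  unfold Mc
  have e1 : (fun r : ℝ => (Complex.exp (((θ * r : ℝ) : ℂ) * Complex.I)).re) = fun r : ℝ => Real.cos (θ * r + 0) := by
    funext r
    rw [Complex.exp_ofReal_mul_I_re, add_zero]
  have e2 : (fun r : ℝ => (Complex.exp (((θ * r : ℝ) : ℂ) * Complex.I)).im) = fun r : ℝ => Real.cos (θ * r + -(Real.pi / 2)) := by
    funext r
    rw [Complex.exp_ofReal_mul_I_im, ← sub_eq_add_neg, Real.cos_sub_pi_div_two]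
  rw [e1, e2, Mn_eq (WM_cos hθ 0), Mn_eq (WM_cos hθ (-(Real.pi / 2)))]
  simp

lemma Mc_const (c : ℂ) : Mc (fun _ => c) = c := by
  unfold Mc
  rw [Mn_const, Mn_const, Complex.re_add_im]

/-- complex trigonometric polynomials -/
def TPc : Submodule ℂ (ℝ → ℂ) := Submodule.span ℂ (Set.range fun θ : ℝ => fun r : ℝ => Complex.exp (((θ * r : ℝ) : ℂ) * Complex.I))

lemma TPc_exp (θ : ℝ) : (fun r : ℝ => Complex.exp (((θ * r : ℝ) : ℂ) * Complex.I)) ∈ TPc := Submodule.subset_span ⟨θ, rfl⟩

lemma TPc_of_TP {p : ℝ → ℝ} (hp : p ∈ TP) : (fun r => ((p r : ℝ) : ℂ)) ∈ TPc := by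
  unfold TP at hp
  induction hp using Submodule.span_induction with
  | mem x h =>
    obtain ⟨⟨θ, φ⟩, rfl⟩ := h
    have e : (fun r : ℝ => ((Real.cos (θ * r + φ) : ℝ) : ℂ)) =
        (Complex.exp ((φ : ℂ) * Complex.I) / 2) • (fun r : ℝ => Complex.exp (((θ * r : ℝ) : ℂ) * Complex.I)) +
        (Complex.exp (-(φ : ℂ) * Complex.I) / 2) • (fun r : ℝ => Complex.exp ((((-θ) * r : ℝ) : ℂ) * Complex.I)) := by
      funext r
      simp only [Pi.add_apply, Pi.smul_apply, smul_eq_mul]
      rw [Complex.ofReal_cos, Complex.cos, div_mul_eq_mul_div, div_mul_eq_mul_div, ← Complex.exp_add, ← Complex.exp_add, ← add_div]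
      congr 3
      · push_cast; ring
      · push_cast; ring
    simp only
    rw [e]
    exact Submodule.add_mem _ (Submodule.smul_mem _ _ (TPc_exp θ)) (Submodule.smul_mem _ _ (TPc_exp (-θ)))
  | zero =>
    have : (fun r : ℝ => (((0 : ℝ → ℝ) r : ℝ) : ℂ)) = 0 := by funext r; simp
    rw [this]; exact Submodule.zero_mem _
  | add x y _ _ hx hy =>
    have : (fun r : ℝ => (((x + y) r : ℝ) : ℂ)) = (fun r => ((x r : ℝ) : ℂ)) + fun r => ((y r : ℝ) : ℂ) := by funext r; simp
    rw [this]; exact Submodule.add_mem _ hx hy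
  | smul a x _ hx =>
    have : (fun r : ℝ => (((a • x) r : ℝ) : ℂ)) = (a : ℂ) • fun r => ((x r : ℝ) : ℂ) := by funext r; simp
    rw [this]; exact Submodule.smul_mem _ _ hx

lemma CAP_approx {g : ℝ → ℂ} (hg : CAP g) {ε : ℝ} (hε : 0 < ε) : ∃ p ∈ TPc, ∀ r, ‖g r - p r‖ ≤ ε := by
  obtain ⟨p, hp, h1⟩ := hg.1 (ε/2) (by positivity)
  obtain ⟨q, hq, h2⟩ := hg.2 (ε/2) (by positivity)
  refine ⟨(fun r => ((p r : ℝ) : ℂ)) + Complex.I • fun r => ((q r : ℝ) : ℂ),
    Submodule.add_mem _ (TPc_of_TP hp) (Submodule.smul_mem _ _ (TPc_of_TP hq)), fun r => ?_⟩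
  refine (Complex.norm_le_abs_re_add_abs_im _).trans ?_
  have e1 : (g r - ((fun r => ((p r : ℝ) : ℂ)) + Complex.I • fun r => ((q r : ℝ) : ℂ)) r).re = (g r).re - p r := by simp
  have e2 : (g r - ((fun r => ((p r : ℝ) : ℂ)) + Complex.I • fun r => ((q r : ℝ) : ℂ)) r).im = (g r).im - q r := by simp
  rw [e1, e2]
  linarith [h1 r, h2 r]

lemma TPc_CAP {p : ℝ → ℂ} (hp : p ∈ TPc) : CAP p := by
  unfold TPc at hp
  induction hp using Submodule.span_induction with
  | mem x h => obtain ⟨θ, rfl⟩ := h; exact CAP_exp θ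
  | zero => exact CAP_const 0
  | add x y _ _ hx hy => exact CAP_add hx hy
  | smul a x _ hx => exact CAP_mul (CAP_const a) hx

/-! ### means of products -/

lemma XM_add {f g : ℝ → ℂ} {M N : ℂ} (cf : Continuous f) (cg : Continuous g) (hf : XM f M) (hg : XM g N) :
    XM (fun x => f x + g x) (M + N) := by
  unfold XM at *
  refine (hf.add hg).congr fun X => ?_
  rw [intervalIntegral.integral_add (cf.intervalIntegrable _ _) (cg.intervalIntegrable _ _)]
  ring

lemma XM_smul {f : ℝ → ℂ} {M : ℂ} (c : ℂ) (hf : XM f M) : XM (fun x => c * f x) (c * M) := by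
  unfold XM at *
  refine (hf.const_mul c).congr fun X => ?_
  rw [intervalIntegral.integral_const_mul]
  ring

/-- closure under uniform limits -/
lemma XM_lim {f : ℝ → ℂ} {M : ℂ} (cf : Continuous f)
    (h : ∀ ε : ℝ, 0 < ε → ∃ g : ℝ → ℂ, ∃ N : ℂ, Continuous g ∧ XM g N ∧ (∀ x, ‖f x - g x‖ ≤ ε) ∧ ‖N - M‖ ≤ ε) : XM f M := by
  unfold XM
  rw [Metric.tendsto_atTop]
  intro ε hε
  obtain ⟨g, N, cg, hg, h1, h2⟩ := h (ε/4) (by positivity)
  unfold XM at hg
  rw [Metric.tendsto_atTop] at hg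
  obtain ⟨X₀, hX₀⟩ := hg (ε/4) (by positivity)
  refine ⟨max X₀ 1, fun X hX => ?_⟩
  have hX0 : 0 < X := by linarith [(le_max_right X₀ 1).trans hX]
  have h3 := hX₀ X ((le_max_left _ _).trans hX)
  rw [dist_eq_norm] at h3 ⊢
  have h4 : ‖(∫ x in X..(2*X), f x) / X - (∫ x in X..(2*X), g x) / X‖ ≤ ε/4 := by
    rw [← sub_div, norm_div, Complex.norm_real, Real.norm_eq_abs, abs_of_pos hX0, div_le_iff₀ hX0,
      ← intervalIntegral.integral_sub (cf.intervalIntegrable _ _) (cg.intervalIntegrable _ _)]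
    have := intervalIntegral.norm_integral_le_of_norm_le_const (a := X) (b := 2 * X) (f := fun x => f x - g x) (C := ε/4)
      (fun x _ => h1 x)
    rwa [show 2 * X - X = X by ring, abs_of_pos hX0] at this
  calc ‖(∫ x in X..(2*X), f x) / X - M‖ = ‖((∫ x in X..(2*X), f x) / X - (∫ x in X..(2*X), g x) / X) +
        ((∫ x in X..(2*X), g x) / X - N) + (N - M)‖ := by congr 1; ring
    _ ≤ ‖(∫ x in X..(2*X), f x) / X - (∫ x in X..(2*X), g x) / X‖ + ‖(∫ x in X..(2*X), g x) / X - N‖ + ‖N - M‖ := norm_add₃_le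
    _ < ε := by linarith

lemma XM_const (c : ℂ) : XM (fun _ => c) c := by
  unfold XM
  refine tendsto_const_nhds.congr' ?_
  filter_upwards [eventually_gt_atTop 0] with X hX
  rw [intervalIntegral.integral_const, show 2 * X - X = X by ring, Complex.real_smul]
  have : (X : ℂ) ≠ 0 := by exact_mod_cast hX.ne'
  field_simp

theorem prod_mean {ι : Type*} [Fintype ι] {β : ι → ℝ} (hβ0 : ∀ j, 0 < β j) (hβ1 : ∀ j, β j < 1)
    (hinj : Function.Injective β) {g : ι → ℝ → ℂ} (hg : ∀ j, CAP (g j)) :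
    XM (fun x => ∏ j, g j (x ^ β j)) (∏ j, Mc (g j)) := by
  classical
  have hc : ∀ j, Continuous fun x : ℝ => x ^ β j := fun j => Real.continuous_rpow_const (hβ0 j).le
  -- induction on the set of indices with general functions
  have key : ∀ s : Finset ι, ∀ g : ι → ℝ → ℂ, (∀ j, CAP (g j)) →
      (∀ j, j ∉ s → ∃ θ : ℝ, g j = fun r => Complex.exp (((θ * r : ℝ) : ℂ) * Complex.I)) →
      XM (fun x => ∏ j, g j (x ^ β j)) (∏ j, Mc (g j)) := by
    intro s
    induction s using Finset.induction_on with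
    | empty =>
      intro g _ he
      choose θ hθ using fun j => he j (Finset.notMem_empty j)
      have e1 : (fun x : ℝ => ∏ j, g j (x ^ β j)) = fun x => Complex.exp (((∑ j, θ j * x ^ β j : ℝ) : ℂ) * Complex.I) := by
        funext x
        rw [Complex.ofReal_sum, Finset.sum_mul, Complex.exp_sum]
        refine Finset.prod_congr rfl fun j _ => ?_
        rw [hθ j]
      rw [e1]
      by_cases h0 : ∃ j, θ j ≠ 0
      · obtain ⟨j, hj⟩ := h0
        have e2 : ∏ j, Mc (g j) = 0 := by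
          apply Finset.prod_eq_zero (Finset.mem_univ j)
          rw [hθ j, Mc_exp hj]
        rw [e2]
        exact exp_mean hβ0 hβ1 hinj ⟨j, hj⟩
      · push Not at h0
        have e2 : ∏ j, Mc (g j) = 1 := by
          apply Finset.prod_eq_one
          intro j _
          rw [hθ j, h0 j]
          simpa using Mc_const 1
        rw [e2]
        simp only [h0, zero_mul, Finset.sum_const_zero, Complex.ofReal_zero, Complex.exp_zero]
        exact XM_const 1
    | insert j₀ s hj₀ ih =>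
      intro g hg he
      have e1 : ∀ h : ℝ → ℂ, (fun x : ℝ => ∏ j, (Function.update g j₀ h) j (x ^ β j)) =
          fun x => h (x ^ β j₀) * ∏ j ∈ Finset.univ.erase j₀, g j (x ^ β j) := by
        intro h
        funext x
        rw [← Finset.mul_prod_erase Finset.univ _ (Finset.mem_univ j₀), Function.update_self]
        congr 1
        refine Finset.prod_congr rfl fun j hj => ?_
        rw [Function.update_of_ne (Finset.ne_of_mem_erase hj)]
      have e2 : ∀ h : ℝ → ℂ, (∏ j, Mc ((Function.update g j₀ h) j)) = Mc h * ∏ j ∈ Finset.univ.erase j₀, Mc (g j) := by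
        intro h
        rw [← Finset.mul_prod_erase Finset.univ _ (Finset.mem_univ j₀), Function.update_self]
        congr 1
        refine Finset.prod_congr rfl fun j hj => ?_
        rw [Function.update_of_ne (Finset.ne_of_mem_erase hj)]
      obtain ⟨Q, hQ⟩ : ∃ Q : ℝ → ℂ, Q = fun x => ∏ j ∈ Finset.univ.erase j₀, g j (x ^ β j) := ⟨_, rfl⟩
      obtain ⟨q, hq⟩ : ∃ q : ℂ, q = ∏ j ∈ Finset.univ.erase j₀, Mc (g j) := ⟨_, rfl⟩
      have hQc : Continuous Q := by
        rw [hQ]
        exact continuous_finsetProd _ fun j _ => (CAP_cont (hg j)).comp (hc j)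
      obtain ⟨B, hB0, hB⟩ : ∃ B : ℝ, 0 ≤ B ∧ ∀ x, ‖Q x‖ ≤ B := by
        choose b hb0 hb using fun j => CAP_bdd (hg j)
        refine ⟨∏ j ∈ Finset.univ.erase j₀, b j, Finset.prod_nonneg fun j _ => hb0 j, fun x => ?_⟩
        rw [hQ]
        simp only
        rw [norm_prod]
        exact Finset.prod_le_prod (fun j _ => norm_nonneg _) fun j _ => hb j _
      have hS : ∀ h : ℝ → ℂ, h ∈ TPc → XM (fun x => h (x ^ β j₀) * Q x) (Mc h * q) := by
        intro h hh
        unfold TPc at hh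
        induction hh using Submodule.span_induction with
        | mem h hm =>
          obtain ⟨θ, rfl⟩ := hm
          have h1 := ih (Function.update g j₀ (fun r => Complex.exp (((θ * r : ℝ) : ℂ) * Complex.I))) (by
            intro j
            by_cases hj : j = j₀
            · subst hj; rw [Function.update_self]; exact CAP_exp θ
            · rw [Function.update_of_ne hj]; exact hg j) (by
            intro j hj
            by_cases hj' : j = j₀
            · subst hj'; rw [Function.update_self]; exact ⟨θ, rfl⟩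
            · rw [Function.update_of_ne hj']; exact he j (by simp [hj', hj]))
          rw [e1, e2] at h1
          rw [hQ, hq]
          exact h1
        | zero =>
          have e3 : Mc (0 : ℝ → ℂ) = 0 := Mc_const 0
          rw [e3, zero_mul]
          have := XM_const 0
          simpa using this
        | add h1 h2 m1 m2 i1 i2 =>
          have c1 := TPc_CAP m1
          have c2 := TPc_CAP m2
          have e3 : Mc (h1 + h2) = Mc h1 + Mc h2 := Mc_add c1 c2
          rw [e3, add_mul]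
          have := XM_add (((CAP_cont c1).comp (hc j₀)).mul hQc) (((CAP_cont c2).comp (hc j₀)).mul hQc) i1 i2
          refine this.congr fun X => ?_
          simp only [Pi.add_apply, add_mul, Function.comp_apply, Pi.mul_apply]
        | smul a h1 m1 i1 =>
          have c1 := TPc_CAP m1
          have e3 : Mc (a • h1) = a * Mc h1 := Mc_smul a c1
          rw [e3, mul_assoc]
          have := XM_smul a i1
          refine this.congr fun X => ?_
          simp only [Pi.smul_apply, smul_eq_mul, mul_assoc]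
      have hfin : XM (fun x => g j₀ (x ^ β j₀) * Q x) (Mc (g j₀) * q) := by
        refine XM_lim (((CAP_cont (hg j₀)).comp (hc j₀)).mul hQc) fun ε hε => ?_
        obtain ⟨p, hp, hpe⟩ := CAP_approx (hg j₀) (ε := ε / (2 * (B + ‖q‖ + 1))) (by positivity)
        refine ⟨fun x => p (x ^ β j₀) * Q x, Mc p * q, ((CAP_cont (TPc_CAP hp)).comp (hc j₀)).mul hQc, hS p hp, fun x => ?_, ?_⟩
        · simp only []
          rw [← sub_mul, norm_mul]
          calc ‖g j₀ (x ^ β j₀) - p (x ^ β j₀)‖ * ‖Q x‖ ≤ ε / (2 * (B + ‖q‖ + 1)) * B := by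
                gcongr
                · exact hpe _
                · exact hB x
            _ ≤ ε := by
              rw [div_mul_eq_mul_div, div_le_iff₀ (by positivity)]
              nlinarith [norm_nonneg q]
        · rw [← sub_mul, norm_mul]
          have h1 := Mc_dist (TPc_CAP hp) (hg j₀) (ε := ε / (2 * (B + ‖q‖ + 1))) (fun r => by rw [norm_sub_rev]; exact hpe r)
          calc ‖Mc p - Mc (g j₀)‖ * ‖q‖ ≤ (2 * (ε / (2 * (B + ‖q‖ + 1)))) * ‖q‖ := by gcongr
            _ ≤ ε := by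
              have : 2 * (ε / (2 * (B + ‖q‖ + 1))) = ε / (B + ‖q‖ + 1) := by field_simp
              rw [this, div_mul_eq_mul_div, div_le_iff₀ (by positivity)]
              nlinarith [norm_nonneg q]
      have e3 := e1 (g j₀)
      have e4 := e2 (g j₀)
      rw [Function.update_eq_self] at e3 e4
      rw [e3, e4]
      rw [hQ, hq] at hfin
      exact hfin
  exact key Finset.univ g hg fun j hj => (hj (Finset.mem_univ j)).elim

end Pool.Agent.H592.LI
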