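import Mathlib

/-!
# The Lindelöf hypothesis and the remainders of the Piltz divisor problems: definitions used in the statements
-/

open MeasureTheory Filter Topology

namespace Pool.Agent.H592.LIS

/-- `d_k(n)`, the number of ordered `k`-tuples of positive integers with product `n` -/
def dv (k n : ℕ) : ℕ := (ArithmeticFunction.zeta ^ k : ArithmeticFunction ℕ) n

/-- the sum of `d_k(n)` over `1 ≤ n ≤ x` -/
noncomputable def Dsum (k : ℕ) (x : ℝ) : ℝ := ∑ n ∈ Finset.Icc 1 ⌊x⌋₊, (dv k n : ℝ)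

/-- `Δ_k(x)` for the main term `x P(log x)` -/
noncomputable def Del (k : ℕ) (P : Polynomial ℝ) (x : ℝ) : ℝ := Dsum k x - x * P.eval (Real.log x)

/-- `x P(log x)` is the main term: the remainder is `o(x)` -/
def IsMain (k : ℕ) (P : Polynomial ℝ) : Prop := Tendsto (fun x : ℝ => Del k P x / x) atTop (𝓝 0)

/-- the normalised remainder `E_k(x) = Δ_k(x) / x^((k-1)/(2k))` -/
noncomputable def E (k : ℕ) (P : Polynomial ℝ) (x : ℝ) : ℝ := Del k P x / x ^ (((k:ℝ) - 1) / (2 * k))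

/-- the first `N` terms of the Voronoi series of `E_k` at `x`: the sum over `1 ≤ m ≤ N` of
`d_k(m) m^(-(k+1)/(2k)) cos(2 π k (m x)^(1/k) + (k-3) π / 4) / (π √k)` -/
noncomputable def VorSum (k N : ℕ) (x : ℝ) : ℝ :=
  ∑ m ∈ Finset.Icc 1 N, (dv k m : ℝ) * (m:ℝ) ^ (-(((k:ℝ) + 1) / (2 * k))) / (Real.pi * √(k:ℝ)) *
    Real.cos (2 * Real.pi * k * ((m:ℝ) * x) ^ (1 / (k:ℝ)) + ((k:ℝ) - 3) * Real.pi / 4)

/-- the mean of `g` over `[X, 2X]` tends to `M` as `X → ∞` -/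
def MeanIs (g : ℝ → ℝ) (M : ℝ) : Prop := Tendsto (fun X : ℝ => (∫ x in X..(2*X), g x) / X) atTop (𝓝 M)

/-- `μ` is the limit law of the Voronoi series: every continuous `f` of at most quadratic growth is `μ`-integrable, it
has a mean along each partial sum of the series, and these means tend to the `μ`-integral of `f` -/
def IsLaw (k : ℕ) (μ : ProbabilityMeasure ℝ) : Prop :=
  ∀ f : ℝ → ℝ, Continuous f → (∃ C : ℝ, ∀ y, |f y| ≤ C * (1 + y ^ 2)) → Integrable f (μ : Measure ℝ) ∧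
    ∃ M : ℕ → ℝ, (∀ N, MeanIs (fun x => f (VorSum k N x)) (M N)) ∧ Tendsto M atTop (𝓝 (∫ y, f y ∂(μ : Measure ℝ)))

/-- the partial sums of the Voronoi series tend to the normalised remainder in mean square -/
def MeanSquareLimit (k : ℕ) (P : Polynomial ℝ) : Prop :=
  ∀ ε : ℝ, 0 < ε → ∃ N₀ : ℕ, ∀ N : ℕ, N₀ ≤ N → ∃ X₀ : ℝ, ∀ X : ℝ, X₀ ≤ X →
    ∫ x in X..(2*X), (E k P x - VorSum k N x) ^ 2 ≤ ε * X

/-- the mean of `max (e E_k, 0)` over `[X, 2X]` is `O(X^(1/(2k) + ε))` for every `ε > 0`; `e = 1` and `e = -1` are used -/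
def OneSided (e : ℝ) (k : ℕ) (P : Polynomial ℝ) : Prop := ∀ ε : ℝ, 0 < ε → ∃ C : ℝ, ∀ X : ℝ, 1 ≤ X →
  ∫ x in X..(2*X), max (e * E k P x) 0 ≤ C * X ^ (1 + 1 / (2 * (k:ℝ)) + ε)

/-- the Lindelöf hypothesis -/
def Lindelof : Prop := ∀ ε : ℝ, 0 < ε → ∃ C : ℝ, ∀ t : ℝ,
  ‖riemannZeta (1 / 2 + t * Complex.I)‖ ≤ C * (1 + |t|) ^ ε

end Pool.Agent.H592.LIS
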