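import Pool.Agent.H592.LI.A6
import Pool.Agent.H592.LI.B2
import Pool.Agent.H592.LI.Defs

/-!
# Passage to the variable `x`
-/

open Filter Topology Set MeasureTheory Polynomial
open Pool.Agent.Y853.PZ (cv)
open Pool.Agent.H387R2.Vor Pool.Agent.H383.PZ Pool.Agent.H592.PD

namespace Pool.Agent.H592.LI

open Pool.Agent.H592.LIS (VorSum MeanIs IsLaw MeanSquareLimit E)

lemma V1_eq (k N : ℕ) (r : ℝ) : V1 k N r = ∑ m ∈ Finset.range (N+1), trm (cV k 0 N m) (fq k 1 m) r := by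
  have := VV_part (d := 1) (fun _ => k) (fun _ => 1) (fun _ => 0) N 0 r
  exact this

lemma VorSum_V1 (k N : ℕ) {x : ℝ} (hx : 0 ≤ x) : VorSum k N x = V1 k N (x ^ (1 / (k:ℝ))) := by
  rw [V1_eq, ← Pool.Agent.H592.PD.VorSum_eq, one_mul, add_zero]
  unfold LIS.VorSum Piltz.VorSum
  refine Finset.sum_congr rfl fun m _ => ?_
  rw [Real.mul_rpow (Nat.cast_nonneg m) hx, mul_assoc (2 * Real.pi * (k:ℝ))]
  rfl

lemma E_Fk {k : ℕ} (hk : 1 ≤ k) (P : ℝ[X]) {R : ℝ} (hR : 0 < R) : E k P (R ^ k) = Fk k P R := by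
  have hk0 : (0:ℝ) < k := by exact_mod_cast hk
  have e : (R ^ k) ^ (((k:ℝ) - 1) / (2 * k)) = R ^ (((k:ℝ) - 1) / 2) := by
    rw [← Real.rpow_natCast, ← Real.rpow_mul hR.le]
    congr 1; field_simp
  unfold LIS.E
  rw [e]
  unfold Fk Pool.Agent.H383.PZ.hk
  rw [Real.rpow_neg hR.le, div_eq_mul_inv]
  rfl

/-- change of variables `x = R^k` -/
lemma cv_pow {k : ℕ} (hk : 1 ≤ k) {Y Y' : ℝ} (hY : 0 < Y) (hYY : Y ≤ Y') (g : ℝ → ℝ) :
    ∫ x in (Y ^ k)..(Y' ^ k), g x = ∫ R in Y..Y', (k * R ^ (k-1)) * g (R ^ k) := by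
  have hk0 : (0:ℝ) < k := by exact_mod_cast hk
  have hY' : 0 < Y' := by linarith
  rw [cv (by positivity) (pow_le_pow_left₀ hY.le hYY k), cv hY hYY, Real.log_pow, Real.log_pow]
  have h := intervalIntegral.integral_comp_mul_left (a := Real.log Y) (b := Real.log Y')
    (fun u => Real.exp u * g (Real.exp u)) hk0.ne'
  rw [smul_eq_mul] at h
  have h2 : ∫ u in (k * Real.log Y)..(k * Real.log Y'), Real.exp u * g (Real.exp u) =
      k * ∫ u in (Real.log Y)..(Real.log Y'), Real.exp (k * u) * g (Real.exp (k * u)) := by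
    rw [h]; field_simp
  rw [h2, ← intervalIntegral.integral_const_mul]
  congr 1
  funext u
  have e1 : Real.exp (k * u) = Real.exp u ^ k := by rw [← Real.exp_nat_mul]
  have e2 : Real.exp u ^ k = Real.exp u * Real.exp u ^ (k-1) := by
    rw [← pow_succ']; congr 1; omega
  rw [e1]
  nth_rewrite 1 [e2]
  ring

lemma D_meas' (k : ℕ) : Measurable (LIS.Dsum k) := by
  have : LIS.Dsum k = (fun m : ℕ => ∑ n ∈ Finset.Icc 1 m, (LIS.dv k n : ℝ)) ∘ (fun x : ℝ => ⌊x⌋₊) := rfl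
  rw [this]
  exact measurable_from_nat.comp Nat.measurable_floor

lemma E_meas (k : ℕ) (P : ℝ[X]) : Measurable (E k P) := by
  unfold LIS.E LIS.Del
  refine Measurable.div (Measurable.sub (D_meas' k) ?_) (by fun_prop)
  exact measurable_id.mul ((Polynomial.continuous P).measurable.comp Real.measurable_log)

lemma E_bdd {k : ℕ} (hk : 1 ≤ k) (P : ℝ[X]) (T : ℝ) : ∃ B : ℝ, 0 ≤ B ∧ ∀ x, 1 ≤ x → x ≤ T → |E k P x| ≤ B := by
  have hk0 : (0:ℝ) < k := by exact_mod_cast hk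
  obtain ⟨B, hB0, hB⟩ := Fk_shift_bd hk P (max T 1)
  refine ⟨B, hB0, fun x h1 h2 => ?_⟩
  have hx0 : 0 < x := by linarith
  have e : (x ^ (1 / (k:ℝ))) ^ k = x := by
    rw [← Real.rpow_natCast, ← Real.rpow_mul hx0.le, one_div_mul_cancel hk0.ne', Real.rpow_one]
  rw [← e, E_Fk hk P (by positivity)]
  refine hB _ (Real.one_le_rpow h1 (by positivity)) ?_
  calc x ^ (1 / (k:ℝ)) ≤ x ^ (1:ℝ) := by
        apply Real.rpow_le_rpow_of_exponent_le h1
        rw [div_le_one hk0]; exact_mod_cast hk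
    _ = x := Real.rpow_one x
    _ ≤ _ := h2.trans (le_max_left _ _)

/-- on the Lindelöf hypothesis the remainder is the mean square limit of its Voronoi series -/
theorem close_x {k : ℕ} (hk : 2 ≤ k) {P : ℝ[X]} (hP : Pool.Agent.Y853.PZ.IsMain k P) (hL : LHs) : MeanSquareLimit k P := by
  intro ε hε
  have hk1 : 1 ≤ k := by omega
  have hk0 : (0:ℝ) < k := by exact_mod_cast hk1
  obtain ⟨N₀, hN₀⟩ := close_R hk hP hL (ε := ε / (k * 2 ^ (k-1))) (by positivity)
  refine ⟨N₀, fun N hN => ?_⟩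
  obtain ⟨Y₀, hY₀2, hY₀⟩ := hN₀ N hN
  refine ⟨Y₀ ^ k, fun X hX => ?_⟩
  have hY₀0 : 0 < Y₀ := by linarith
  have hX0 : 0 < X := lt_of_lt_of_le (by positivity) hX
  obtain ⟨Y, hY⟩ : ∃ Y, Y = X ^ (1 / (k:ℝ)) := ⟨_, rfl⟩
  have hY0 : 0 < Y := by rw [hY]; positivity
  have hYk : Y ^ k = X := by
    rw [hY, ← Real.rpow_natCast, ← Real.rpow_mul hX0.le, one_div_mul_cancel hk0.ne', Real.rpow_one]
  have hYY : Y₀ ≤ Y := by
    rw [← hYk] at hX
    exact le_of_pow_le_pow_left₀ (by omega) hY0.le hX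
  obtain ⟨Z, hZ⟩ : ∃ Z, Z = (2 * X) ^ (1 / (k:ℝ)) := ⟨_, rfl⟩
  have hZ0 : 0 < Z := by rw [hZ]; positivity
  have hZk : Z ^ k = 2 * X := by
    rw [hZ, ← Real.rpow_natCast, ← Real.rpow_mul (by positivity), one_div_mul_cancel hk0.ne', Real.rpow_one]
  have hYZ : Y ≤ Z := by rw [hY, hZ]; exact Real.rpow_le_rpow hX0.le (by linarith) (by positivity)
  have hZ2 : Z ≤ 2 * Y := by
    refine le_of_pow_le_pow_left₀ (n := k) (by omega) (by positivity) ?_
    rw [hZk, mul_pow, hYk]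
    have : (2:ℝ) ≤ 2 ^ k := le_self_pow₀ (by norm_num) (by omega)
    nlinarith
  have h1 := hY₀ Y hYY
  nth_rewrite 1 [← hYk]
  rw [← hZk, cv_pow hk1 hY0 hYZ]
  have hm : Measurable fun R => (Fk k P R - V1 k N R) ^ 2 := ((Fk_meas k P).sub (V1_cont k N).measurable).pow_const 2
  have hi : IntegrableOn (fun R => (Fk k P R - V1 k N R) ^ 2) (Ioc Y (2 * Y)) := by
    obtain ⟨B, hB0, hB⟩ := Fk_shift_bd hk1 P (2 * Y)
    obtain ⟨B', hB'0, hB'⟩ := AP_bdd (g := V1 k N) (ser_AP (cV_summable k 0 N))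
    refine Measure.integrableOn_of_bounded (M := (B + B') ^ 2) (by simp) hm.aestronglyMeasurable ?_
    refine (ae_restrict_iff' measurableSet_Ioc).2 (Eventually.of_forall fun R hR => ?_)
    have q1 := hB R (by linarith [hR.1]) hR.2
    have q2 := hB' R
    rw [Real.norm_eq_abs, abs_pow]
    have h3 : |Fk k P R - V1 k N R| ≤ B + B' := (abs_sub _ _).trans (by linarith)
    gcongr
  rw [intervalIntegral.integral_of_le hYZ]
  rw [intervalIntegral.integral_of_le (by linarith)] at h1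
  calc ∫ R in Ioc Y Z, (k * R ^ (k-1)) * (E k P (R ^ k) - VorSum k N (R ^ k)) ^ 2
      ≤ ∫ R in Ioc Y Z, (k * (2 * Y) ^ (k-1)) * (Fk k P R - V1 k N R) ^ 2 := by
        refine integral_mono_of_nonneg ?_ ((hi.mono_set (Ioc_subset_Ioc_right hZ2)).const_mul _) ?_
        · refine (ae_restrict_iff' measurableSet_Ioc).2 (Eventually.of_forall fun R hR => ?_)
          have : 0 < R := by linarith [hR.1]
          simp only [Pi.zero_apply]
          positivity
        · refine (ae_restrict_iff' measurableSet_Ioc).2 (Eventually.of_forall fun R hR => ?_)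
          have hR0 : 0 < R := by linarith [hR.1]
          have e1 : VorSum k N (R ^ k) = V1 k N R := by
            rw [VorSum_V1 k N (by positivity), ← Real.rpow_natCast, ← Real.rpow_mul hR0.le, mul_one_div_cancel hk0.ne',
              Real.rpow_one]
          simp only
          rw [E_Fk hk1 P hR0, e1]
          gcongr
          exact hR.2.trans hZ2
    _ = (k * (2 * Y) ^ (k-1)) * ∫ R in Ioc Y Z, (Fk k P R - V1 k N R) ^ 2 := integral_const_mul _ _
    _ ≤ (k * (2 * Y) ^ (k-1)) * ∫ R in Ioc Y (2 * Y), (Fk k P R - V1 k N R) ^ 2 := by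
        refine mul_le_mul_of_nonneg_left ?_ (by positivity)
        exact setIntegral_mono_set hi (Eventually.of_forall fun R => sq_nonneg _) (Ioc_subset_Ioc_right hZ2).eventuallyLE
    _ ≤ (k * (2 * Y) ^ (k-1)) * (ε / (k * 2 ^ (k-1)) * Y) := by gcongr
    _ = ε * (Y * Y ^ (k-1)) := by rw [mul_pow]; field_simp
    _ = ε * X := by
        rw [← pow_succ', show k - 1 + 1 = k by omega, hYk]

end Pool.Agent.H592.LI
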