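import Pool.Agent.H592.LI.B3

/-!
# The limit laws of the Voronoi series
-/

open Filter Topology Set MeasureTheory Polynomial
open Pool.Agent.H592.PD

namespace Pool.Agent.H592.LI

open Pool.Agent.H592.LIS (VorSum MeanIs IsLaw MeanSquareLimit E)

lemma meanIs_of_XM {g : ℝ → ℝ} {M : ℝ} (h : XM (fun x => ((g x : ℝ) : ℂ)) (M : ℂ)) : MeanIs g M := by
  unfold XM at h
  have h2 := (Complex.continuous_re.tendsto _).comp h
  rw [Complex.ofReal_re] at h2
  refine h2.congr fun X => ?_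
  simp only [Function.comp_apply]
  rw [intervalIntegral.integral_ofReal, ← Complex.ofReal_div, Complex.ofReal_re]

lemma meanIs_congr {g h : ℝ → ℝ} {M : ℝ} (hg : MeanIs g M) (X₀ : ℝ) (e : ∀ x, X₀ ≤ x → g x = h x) : MeanIs h M := by
  unfold LIS.MeanIs at *
  refine hg.congr' ?_
  filter_upwards [eventually_ge_atTop (max X₀ 0)] with X hX
  have h1 : X₀ ≤ X := (le_max_left _ _).trans hX
  have h2 : 0 ≤ X := (le_max_right _ _).trans hX
  congr 1
  refine intervalIntegral.integral_congr fun x hx => ?_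
  rw [uIcc_of_le (by linarith)] at hx
  exact e x (h1.trans hx.1)

lemma meanIs_unique {g : ℝ → ℝ} {M N : ℝ} (h : MeanIs g M) (h' : MeanIs g N) : M = N := tendsto_nhds_unique h h'

/-- the mean of an almost periodic function of a power -/
lemma meanIs_AP {u : ℝ → ℝ} (hu : AP u) {β : ℝ} (h0 : 0 < β) (h1 : β < 1) : MeanIs (fun x => u (x ^ β)) (Mn u) := by
  apply meanIs_of_XM
  have := prod_mean (ι := Unit) (β := fun _ => β) (fun _ => h0) (fun _ => h1) (fun _ _ _ => rfl)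
    (g := fun _ r => ((u r : ℝ) : ℂ)) (fun _ => CAP_real hu)
  simpa [Mc_real] using this

lemma V1_AP (k N : ℕ) : AP (V1 k N) := ser_AP (cV_summable k 0 N)

lemma AP_comp1 {u : ℝ → ℝ} (hu : AP u) {f : ℝ → ℝ} (hf : Continuous f) : AP (fun r => f (u r)) :=
  AP_comp (d := 1) (u := fun _ => u) (fun _ => hu) (f := fun x => f (x 0)) (by fun_prop)

lemma meanIs_V {k : ℕ} (hk : 2 ≤ k) (N : ℕ) {f : ℝ → ℝ} (hf : Continuous f) :
    MeanIs (fun x => f (VorSum k N x)) (Mn (fun r => f (V1 k N r))) := by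
  have hk0 : (2:ℝ) ≤ k := by exact_mod_cast hk
  have h := meanIs_AP (AP_comp1 (V1_AP k N) hf) (β := 1 / (k:ℝ)) (by positivity) (by rw [div_lt_one (by positivity)]; linarith)
  refine meanIs_congr h 0 fun x hx => ?_
  rw [VorSum_V1 k N hx]

lemma law_Mn {k : ℕ} (hk : 2 ≤ k) {μ : ProbabilityMeasure ℝ} (hμ : IsLaw k μ) {f : ℝ → ℝ} (hf : Continuous f)
    {C : ℝ} (hC : ∀ y, |f y| ≤ C * (1 + y ^ 2)) :
    Integrable f (μ : Measure ℝ) ∧ Tendsto (fun N => Mn (fun r => f (V1 k N r))) atTop (𝓝 (∫ y, f y ∂(μ : Measure ℝ))) := by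
  obtain ⟨h1, M, h2, h3⟩ := hμ f hf ⟨C, hC⟩
  refine ⟨h1, ?_⟩
  have e : M = fun N => Mn (fun r => f (V1 k N r)) := by
    funext N
    exact meanIs_unique (h2 N) (meanIs_V hk N hf)
  rw [← e]
  exact h3

lemma VV_V1 (k N : ℕ) (i : Fin 1) (r : ℝ) : VV (fun _ : Fin 1 => k) (fun _ => 1) (fun _ => 0) N i r = V1 k N r := rfl

/-- existence of the limit law -/
theorem law_exists {k : ℕ} (hk : 2 ≤ k) : ∃ μ : ProbabilityMeasure ℝ, IsLaw k μ := by
  have hM := VV_MSC (d := 1) (k := fun _ => k) (α := fun _ => 1) (t := fun _ => 0) (fun _ => hk) (fun _ => one_pos)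
  obtain ⟨ν, hν⟩ := exists_limit_law hM
  have hmeas : Measurable (fun x : Fin 1 → ℝ => x 0) := measurable_pi_apply 0
  refine ⟨ν.map hmeas.aemeasurable, fun f hf ⟨C, hC⟩ => ?_⟩
  obtain ⟨h1, h2⟩ := limit_quad hM (μ := ν) hν (f := fun x => f (x 0)) (by fun_prop) (C := C) (fun x => by
    have e : qq x = x 0 ^ 2 := by unfold qq; simp
    rw [e]; exact hC _)
  have hcoe : ((ν.map hmeas.aemeasurable : ProbabilityMeasure ℝ) : Measure ℝ) = (ν : Measure (Fin 1 → ℝ)).map (fun x => x 0) := rfl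
  rw [hcoe]
  refine ⟨?_, fun N => Mn (fun r => f (V1 k N r)), fun N => meanIs_V hk N hf, ?_⟩
  · rw [integrable_map_measure hf.aestronglyMeasurable hmeas.aemeasurable]
    exact h1
  · rw [integral_map hmeas.aemeasurable hf.aestronglyMeasurable]
    exact h2

/-- uniqueness of the limit law -/
theorem law_unique {k : ℕ} (hk : 2 ≤ k) {μ ν : ProbabilityMeasure ℝ} (hμ : IsLaw k μ) (hν : IsLaw k ν) : μ = ν := by
  apply Subtype.ext
  have hk1 : IsFiniteMeasure (μ : Measure ℝ) := inferInstance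
  have hk2 : IsFiniteMeasure (ν : Measure ℝ) := inferInstance
  refine @ext_of_forall_integral_eq_of_IsFiniteMeasure ℝ _ _ _ _ (μ : Measure ℝ) (ν : Measure ℝ) hk1 hk2 fun f => ?_
  obtain ⟨B, hB⟩ : ∃ B : ℝ, ∀ y, |f y| ≤ B * (1 + y ^ 2) := by
    refine ⟨‖f‖, fun y => ?_⟩
    have h1 : |f y| ≤ ‖f‖ := by rw [← Real.norm_eq_abs]; exact f.norm_coe_le_norm y
    nlinarith [norm_nonneg f, mul_nonneg (norm_nonneg f) (sq_nonneg y)]
  exact tendsto_nhds_unique (law_Mn hk hμ f.continuous hB).2 (law_Mn hk hν f.continuous hB).2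

/-- the variance -/
noncomputable def vr (k : ℕ) : ℝ := (∑' m : ℕ, (LIS.dv k m : ℝ) ^ 2 * (m:ℝ) ^ (-(1 + 1 / (k:ℝ)))) / (2 * Real.pi ^ 2 * k)

lemma vr_eq {k : ℕ} (hk : 2 ≤ k) : vr k = (∑' m, ak k m ^ 2) / 2 := by
  have hk0 : (0:ℝ) < k := by have : (2:ℝ) ≤ k := by exact_mod_cast hk
                             linarith
  unfold vr
  have e : (∑' m, ak k m ^ 2) = (∑' m : ℕ, (LIS.dv k m : ℝ) ^ 2 * (m:ℝ) ^ (-(1 + 1 / (k:ℝ)))) / (Real.pi ^ 2 * k) := by
    rw [← tsum_div_const]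
    congr 1
    funext m
    rw [ak_sq]
    have : (-(((k:ℝ) + 1) / k)) = -(1 + 1 / (k:ℝ)) := by field_simp
    rw [this]
    rfl
  rw [e]
  field_simp

theorem law_moments {k : ℕ} (hk : 2 ≤ k) {μ : ProbabilityMeasure ℝ} (hμ : IsLaw k μ) :
    ∫ y, y ∂(μ : Measure ℝ) = 0 ∧ ∫ y, y ^ 2 ∂(μ : Measure ℝ) = vr k := by
  constructor
  · obtain ⟨h1, h2⟩ := law_Mn hk hμ (f := fun y => y) continuous_id (C := 1) (fun y => by
      rw [one_mul, abs_le]; constructor <;> nlinarith)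
    have h3 : ∀ N, Mn (fun r => V1 k N r) = 0 := fun N =>
      Mn_VV (d := 1) (k := fun _ => k) (α := fun _ => 1) (t := fun _ => 0) (fun _ => hk) (fun _ => one_pos) N 0
    simp only [h3] at h2
    exact tendsto_nhds_unique h2 tendsto_const_nhds
  · obtain ⟨h1, h2⟩ := law_Mn hk hμ (f := fun y => y ^ 2) (by fun_prop) (C := 1) (fun y => by
      rw [abs_of_nonneg (sq_nonneg y)]; linarith)
    have h3 : ∀ N, Mn (fun r => (V1 k N r) ^ 2) = (∑ m ∈ Finset.range (N+1), ak k m ^ 2) / 2 := fun N =>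
      Mn_VV_sq (d := 1) (k := fun _ => k) (α := fun _ => 1) (t := fun _ => 0) (fun _ => hk) (fun _ => one_pos) N 0
    simp only [h3] at h2
    have h4 : Tendsto (fun N => (∑ m ∈ Finset.range (N+1), ak k m ^ 2) / 2) atTop (𝓝 ((∑' m, ak k m ^ 2) / 2)) :=
      ((ak_sq_summable hk).hasSum.tendsto_sum_nat.comp (tendsto_add_atTop_nat 1)).div_const 2
    rw [vr_eq hk]
    exact tendsto_nhds_unique h2 h4

end Pool.Agent.H592.LI
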