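import Pool.Agent.H592.LI.B4

/-!
# Second moments and characteristic functions of the remainders
-/

open Filter Topology Set MeasureTheory Polynomial
open Pool.Agent.H592.PD

namespace Pool.Agent.H592.LI

open Pool.Agent.H592.LIS (VorSum MeanIs IsLaw MeanSquareLimit E)

lemma VorSum_cont (k N : ℕ) : Continuous (VorSum k N) := by
  unfold LIS.VorSum
  refine continuous_finsetSum _ fun m _ => ?_
  have : Continuous fun x : ℝ => ((m:ℝ) * x) ^ (1 / (k:ℝ)) :=
    (Real.continuous_rpow_const (by positivity)).comp (by fun_prop)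
  fun_prop

lemma VorSum_bd (k N : ℕ) : ∃ B : ℝ, 0 ≤ B ∧ ∀ x, 0 ≤ x → |VorSum k N x| ≤ B := by
  obtain ⟨B, hB, h⟩ := AP_bdd (V1_AP k N)
  exact ⟨B, hB.le, fun x hx => by rw [VorSum_V1 k N hx]; exact h _⟩

/-- functions that are bounded on a window and measurable are integrable there -/
lemma win_int {g : ℝ → ℝ} (hg : Measurable g) {X B : ℝ} (hX : 0 ≤ X) (hB : ∀ x, X ≤ x → x ≤ 2 * X → |g x| ≤ B) :
    IntervalIntegrable g volume X (2*X) := by
  rw [intervalIntegrable_iff_integrableOn_Ioc_of_le (by linarith)]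
  refine Measure.integrableOn_of_bounded (M := B) (by simp) hg.aestronglyMeasurable ?_
  refine (ae_restrict_iff' measurableSet_Ioc).2 (Eventually.of_forall fun x hx => ?_)
  exact hB x hx.1.le hx.2

lemma EV_int {k : ℕ} (hk : 1 ≤ k) (P : ℝ[X]) (N : ℕ) {X : ℝ} (hX : 1 ≤ X) {f : ℝ → ℝ → ℝ} (hf : Continuous (fun p : ℝ × ℝ => f p.1 p.2)) :
    IntervalIntegrable (fun x => f (E k P x) (VorSum k N x)) volume X (2*X) := by
  obtain ⟨B, hB0, hB⟩ := E_bdd hk P (2*X)
  obtain ⟨B', hB0', hB'⟩ := VorSum_bd k N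
  have hcomp : IsCompact (Icc (-B) B ×ˢ Icc (-B') B') := isCompact_Icc.prod isCompact_Icc
  obtain ⟨C, hC⟩ := hcomp.exists_bound_of_continuousOn hf.continuousOn
  refine win_int (B := C) (hf.measurable.comp ((E_meas k P).prodMk (VorSum_cont k N).measurable)) (by linarith) fun x h1 h2 => ?_
  exact hC (E k P x, VorSum k N x) ⟨abs_le.1 (hB x (by linarith) h2), abs_le.1 (hB' x (by linarith))⟩

theorem meanIs_sq {k : ℕ} (hk : 2 ≤ k) {P : ℝ[X]} (h : MeanSquareLimit k P) : MeanIs (fun x => E k P x ^ 2) (vr k) := by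
  have hk1 : 1 ≤ k := by omega
  have hv0 : 0 ≤ vr k := by
    rw [vr_eq hk]
    have : 0 ≤ ∑' m, ak k m ^ 2 := tsum_nonneg fun m => sq_nonneg _
    positivity
  unfold LIS.MeanIs
  rw [Metric.tendsto_atTop]
  intro ε hε
  obtain ⟨η, hη⟩ : ∃ η : ℝ, η = ε / (8 * (vr k + 1)) := ⟨_, rfl⟩
  have hη0 : 0 < η := by rw [hη]; positivity
  obtain ⟨ρ, hρ⟩ : ∃ ρ : ℝ, ρ = ε / (8 * (1 + 1/η)) := ⟨_, rfl⟩
  have hρ0 : 0 < ρ := by rw [hρ]; positivity
  obtain ⟨N₀, hN₀⟩ := h ρ hρ0
  -- choose N with the mean square of the partial sum close to the variance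
  have hM : ∀ N, Mn (fun r => (V1 k N r) ^ 2) = (∑ m ∈ Finset.range (N+1), ak k m ^ 2) / 2 := fun N =>
    Mn_VV_sq (d := 1) (k := fun _ => k) (α := fun _ => 1) (t := fun _ => 0) (fun _ => hk) (fun _ => one_pos) N 0
  have h4 : Tendsto (fun N => (∑ m ∈ Finset.range (N+1), ak k m ^ 2) / 2) atTop (𝓝 (vr k)) := by
    rw [vr_eq hk]
    exact ((ak_sq_summable hk).hasSum.tendsto_sum_nat.comp (tendsto_add_atTop_nat 1)).div_const 2
  rw [Metric.tendsto_atTop] at h4
  obtain ⟨N₁, hN₁⟩ := h4 (min 1 (ε/4)) (by positivity)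
  obtain ⟨N, hN⟩ : ∃ N, N = max N₀ N₁ := ⟨_, rfl⟩
  have hv := hN₁ N (by rw [hN]; exact le_max_right _ _)
  rw [← hM, Real.dist_eq] at hv
  have hv1 := hv.trans_le (min_le_left _ _)
  have hv2 := hv.trans_le (min_le_right _ _)
  obtain ⟨X₀, hX₀⟩ := hN₀ N (by rw [hN]; exact le_max_left _ _)
  have hV := meanIs_V hk N (f := fun y => y ^ 2) (by fun_prop)
  unfold LIS.MeanIs at hV
  rw [Metric.tendsto_atTop] at hV
  obtain ⟨X₁, hX₁⟩ := hV (min 1 (ε/8)) (by positivity)
  refine ⟨max (max X₀ X₁) 1, fun X hX => ?_⟩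
  have hX1 : 1 ≤ X := (le_max_right _ _).trans hX
  have hX0 : 0 < X := by linarith
  have b1 := hX₀ X (((le_max_left _ _).trans (le_max_left _ _)).trans hX)
  have b2 := hX₁ X (((le_max_right _ _).trans (le_max_left _ _)).trans hX)
  rw [Real.dist_eq] at b2 ⊢
  have b3 := b2.trans_le (min_le_left _ _)
  have b4 := b2.trans_le (min_le_right _ _)
  have i1 : IntervalIntegrable (fun x => E k P x ^ 2) volume X (2*X) := EV_int hk1 P N hX1 (f := fun a _ => a ^ 2) (by fun_prop)
  have i2 : IntervalIntegrable (fun x => VorSum k N x ^ 2) volume X (2*X) := EV_int hk1 P N hX1 (f := fun _ b => b ^ 2) (by fun_prop)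
  have i3 : IntervalIntegrable (fun x => (E k P x - VorSum k N x) ^ 2) volume X (2*X) :=
    EV_int hk1 P N hX1 (f := fun a b => (a - b) ^ 2) (by fun_prop)
  obtain ⟨A, hA⟩ : ∃ A, A = ∫ x in X..(2*X), VorSum k N x ^ 2 := ⟨_, rfl⟩
  rw [← hA] at b2 b3 b4
  have hAX : A ≤ (vr k + 2) * X := by
    have q1 := (abs_lt.1 b3).2
    have q2 := (abs_lt.1 hv1).2
    have q3 : A / X ≤ vr k + 2 := by linarith
    rwa [div_le_iff₀ hX0] at q3
  have key : |(∫ x in X..(2*X), E k P x ^ 2) - A| ≤ η * A + (1 + 1/η) * (ρ * X) := by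
    rw [hA, ← intervalIntegral.integral_sub i1 i2]
    calc |∫ x in X..(2*X), (E k P x ^ 2 - VorSum k N x ^ 2)| ≤ ∫ x in X..(2*X), |E k P x ^ 2 - VorSum k N x ^ 2| :=
          intervalIntegral.abs_integral_le_integral_abs (by linarith)
      _ ≤ ∫ x in X..(2*X), (η * VorSum k N x ^ 2 + (1 + 1/η) * (E k P x - VorSum k N x) ^ 2) := by
          refine intervalIntegral.integral_mono_on (by linarith) (i1.sub i2).abs ((i2.const_mul _).add (i3.const_mul _)) fun x _ => ?_
          obtain ⟨a, ha⟩ : ∃ a, a = E k P x - VorSum k N x := ⟨_, rfl⟩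
          obtain ⟨v, hv⟩ : ∃ v, v = VorSum k N x := ⟨_, rfl⟩
          have e1 : E k P x ^ 2 - VorSum k N x ^ 2 = 2 * v * a + a ^ 2 := by rw [ha, hv]; ring
          rw [e1, ← ha, ← hv]
          have e2 : |2 * v * a| ≤ η * v ^ 2 + (1/η) * a ^ 2 := by
            have e3 : η * v ^ 2 + (1/η) * a ^ 2 - 2 * v * a = (1/η) * (η * v - a) ^ 2 := by field_simp; ring
            have e4 : η * v ^ 2 + (1/η) * a ^ 2 + 2 * v * a = (1/η) * (η * v + a) ^ 2 := by field_simp; ring
            have e5 : 0 ≤ (1/η) * (η * v - a) ^ 2 := by positivity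
            have e6 : 0 ≤ (1/η) * (η * v + a) ^ 2 := by positivity
            rw [abs_le]; constructor <;> linarith
          have e7 := abs_add_le (2 * v * a) (a ^ 2)
          rw [abs_of_nonneg (sq_nonneg a)] at e7
          linarith
      _ = η * (∫ x in X..(2*X), VorSum k N x ^ 2) + (1 + 1/η) * ∫ x in X..(2*X), (E k P x - VorSum k N x) ^ 2 := by
          rw [intervalIntegral.integral_add (i2.const_mul _) (i3.const_mul _), intervalIntegral.integral_const_mul,
            intervalIntegral.integral_const_mul]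
      _ ≤ _ := by gcongr
  have e8 : η * ((vr k + 2)) ≤ ε/4 := by
    rw [hη, div_mul_eq_mul_div, div_le_div_iff₀ (by positivity) (by norm_num)]
    nlinarith
  have e9 : (1 + 1/η) * ρ = ε/8 := by rw [hρ]; field_simp
  have key2 : |(∫ x in X..(2*X), E k P x ^ 2) / X - A / X| ≤ ε/4 + ε/8 := by
    rw [← sub_div, abs_div, abs_of_pos hX0, div_le_iff₀ hX0]
    calc |(∫ x in X..(2*X), E k P x ^ 2) - A| ≤ η * A + (1 + 1/η) * (ρ * X) := key
      _ ≤ η * ((vr k + 2) * X) + (1 + 1/η) * (ρ * X) := by gcongr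
      _ = (η * (vr k + 2) + (1 + 1/η) * ρ) * X := by ring
      _ ≤ (ε/4 + ε/8) * X := by rw [e9]; gcongr
  calc |(∫ x in X..(2*X), E k P x ^ 2) / X - vr k| = |((∫ x in X..(2*X), E k P x ^ 2) / X - A / X) + (A / X - Mn (fun r => (V1 k N r) ^ 2)) +
        (Mn (fun r => (V1 k N r) ^ 2) - vr k)| := by congr 1; ring
    _ ≤ |(∫ x in X..(2*X), E k P x ^ 2) / X - A / X| + |A / X - Mn (fun r => (V1 k N r) ^ 2)| + |Mn (fun r => (V1 k N r) ^ 2) - vr k| :=
        abs_add_three _ _ _
    _ < ε := by linarith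

/-- the mean of the absolute distance -/
lemma abs_close {k : ℕ} (hk : 2 ≤ k) {P : ℝ[X]} (h : MeanSquareLimit k P) {ε : ℝ} (hε : 0 < ε) :
    ∃ N₀ : ℕ, ∀ N : ℕ, N₀ ≤ N → ∃ X₀ : ℝ, 1 ≤ X₀ ∧ ∀ X : ℝ, X₀ ≤ X →
      ∫ x in X..(2*X), |E k P x - VorSum k N x| ≤ ε * X := by
  obtain ⟨N₀, hN₀⟩ := h (ε ^ 2) (by positivity)
  refine ⟨N₀, fun N hN => ?_⟩
  obtain ⟨X₀, hX₀⟩ := hN₀ N hN
  refine ⟨max X₀ 1, le_max_right _ _, fun X hX => ?_⟩
  have hX1 : 1 ≤ X := (le_max_right _ _).trans hX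
  have b1 := hX₀ X ((le_max_left _ _).trans hX)
  have i1 : IntervalIntegrable (fun x => |E k P x - VorSum k N x|) volume X (2*X) :=
    EV_int (by omega) P N hX1 (f := fun a b => |a - b|) (by fun_prop)
  have i3 : IntervalIntegrable (fun x => (E k P x - VorSum k N x) ^ 2) volume X (2*X) :=
    EV_int (by omega) P N hX1 (f := fun a b => (a - b) ^ 2) (by fun_prop)
  calc ∫ x in X..(2*X), |E k P x - VorSum k N x| ≤ ∫ x in X..(2*X), (ε/2 + 1/(2*ε) * (E k P x - VorSum k N x) ^ 2) := by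
        refine intervalIntegral.integral_mono_on (by linarith) i1 (intervalIntegrable_const.add (i3.const_mul _)) fun x _ => ?_
        have e : ε/2 + 1/(2*ε) * (E k P x - VorSum k N x) ^ 2 - |E k P x - VorSum k N x| =
            1/(2*ε) * (ε - |E k P x - VorSum k N x|) ^ 2 := by
          rw [← sq_abs (E k P x - VorSum k N x)]; field_simp; ring
        have : 0 ≤ 1/(2*ε) * (ε - |E k P x - VorSum k N x|) ^ 2 := by positivity
        linarith
    _ = ε/2 * X + 1/(2*ε) * ∫ x in X..(2*X), (E k P x - VorSum k N x) ^ 2 := by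
        rw [intervalIntegral.integral_add intervalIntegrable_const (i3.const_mul _), intervalIntegral.integral_const,
          intervalIntegral.integral_const_mul, smul_eq_mul]
        ring
    _ ≤ ε/2 * X + 1/(2*ε) * (ε ^ 2 * X) := by gcongr
    _ = ε * X := by field_simp; ring

lemma CAP_expV (k N : ℕ) (t : ℝ) : CAP (fun r => Complex.exp (((t * V1 k N r : ℝ) : ℂ) * Complex.I)) := by
  refine ⟨?_, ?_⟩
  · have h := AP_comp1 (V1_AP k N) (f := fun y => Real.cos (t * y)) (by fun_prop)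
    simpa only [Complex.exp_ofReal_mul_I_re] using h
  · have h := AP_comp1 (V1_AP k N) (f := fun y => Real.sin (t * y)) (by fun_prop)
    simpa only [Complex.exp_ofReal_mul_I_im] using h

lemma Mc_expV {k : ℕ} (hk : 2 ≤ k) {μ : ProbabilityMeasure ℝ} (hμ : IsLaw k μ) (t : ℝ) :
    Tendsto (fun N => Mc (fun r => Complex.exp (((t * V1 k N r : ℝ) : ℂ) * Complex.I))) atTop (𝓝 (charFun (μ : Measure ℝ) t)) := by
  have hb : ∀ z y : ℝ, |z| ≤ 1 → |z| ≤ 1 * (1 + y ^ 2) := fun z y hz => by nlinarith [sq_nonneg y]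
  obtain ⟨i1, h1⟩ := law_Mn hk hμ (f := fun y => Real.cos (t * y)) (by fun_prop) (C := 1) (fun y => hb _ y (Real.abs_cos_le_one _))
  obtain ⟨i2, h2⟩ := law_Mn hk hμ (f := fun y => Real.sin (t * y)) (by fun_prop) (C := 1) (fun y => hb _ y (Real.abs_sin_le_one _))
  have e : charFun (μ : Measure ℝ) t = ((∫ y, Real.cos (t * y) ∂(μ : Measure ℝ) : ℝ) : ℂ) +
      ((∫ y, Real.sin (t * y) ∂(μ : Measure ℝ) : ℝ) : ℂ) * Complex.I := by
    rw [charFun_apply_real, ← integral_complex_ofReal, ← integral_complex_ofReal, ← integral_mul_const, ← integral_add]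
    · congr 1
      funext y
      rw [← Complex.ofReal_mul, Complex.exp_mul_I, Complex.ofReal_cos, Complex.ofReal_sin]
    · exact i1.ofReal
    · exact i2.ofReal.mul_const _
  rw [e]
  unfold Mc
  simp only [Complex.exp_ofReal_mul_I_re, Complex.exp_ofReal_mul_I_im]
  exact ((Complex.continuous_ofReal.tendsto _).comp h1).add (((Complex.continuous_ofReal.tendsto _).comp h2).mul_const _)

lemma exp_lip (a b : ℝ) : ‖Complex.exp ((a : ℂ) * Complex.I) - Complex.exp ((b : ℂ) * Complex.I)‖ ≤ |a - b| := by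
  have h := Real.norm_exp_I_mul_ofReal_sub_one_le (x := a - b)
  rw [Real.norm_eq_abs] at h
  have e : Complex.exp ((a : ℂ) * Complex.I) - Complex.exp ((b : ℂ) * Complex.I) =
      Complex.exp ((b : ℂ) * Complex.I) * (Complex.exp (Complex.I * ((a - b : ℝ) : ℂ)) - 1) := by
    rw [mul_sub, mul_one, ← Complex.exp_add]
    congr 2
    push_cast; ring
  rw [e, norm_mul, Complex.norm_exp_ofReal_mul_I, one_mul]
  exact h

/-- the characteristic functions of the vector of remainders -/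
theorem XM_exp {d : ℕ} {k : Fin d → ℕ} (hk : ∀ i, 2 ≤ k i) (hinj : Function.Injective k) {P : Fin d → ℝ[X]}
    (h : ∀ i, MeanSquareLimit (k i) (P i)) {μ : Fin d → ProbabilityMeasure ℝ} (hμ : ∀ i, IsLaw (k i) (μ i)) (t : Fin d → ℝ) :
    XM (fun x => Complex.exp (((∑ i, t i * E (k i) (P i) x : ℝ) : ℂ) * Complex.I)) (∏ i, charFun (μ i : Measure ℝ) (t i)) := by
  unfold XM
  rw [Metric.tendsto_atTop]
  intro ε hε
  -- the parameters
  obtain ⟨T, hT⟩ : ∃ T : ℝ, T = ∑ i, |t i| := ⟨_, rfl⟩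
  have hT0 : 0 ≤ T := by rw [hT]; exact Finset.sum_nonneg fun i _ => abs_nonneg _
  choose N₀ hN₀ using fun i => abs_close (hk i) (h i) (ε := ε / (4 * (T + 1))) (by positivity)
  have hlim : Tendsto (fun N => ∏ i, Mc (fun r => Complex.exp (((t i * V1 (k i) N r : ℝ) : ℂ) * Complex.I))) atTop
      (𝓝 (∏ i, charFun (μ i : Measure ℝ) (t i))) := tendsto_finsetProd _ fun i _ => Mc_expV (hk i) (hμ i) (t i)
  rw [Metric.tendsto_atTop] at hlim
  obtain ⟨N₁, hN₁⟩ := hlim (ε/4) (by positivity)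
  obtain ⟨N, hN⟩ : ∃ N, N = N₁ + ∑ i, N₀ i := ⟨_, rfl⟩
  have hNi : ∀ i, N₀ i ≤ N := fun i => by
    have := Finset.single_le_sum (f := N₀) (fun j _ => Nat.zero_le _) (Finset.mem_univ i)
    omega
  have h1 := hN₁ N (by omega)
  choose X₀ hX₀1 hX₀ using fun i => hN₀ i N (hNi i)
  have h2 := prod_mean (β := fun i => 1 / (k i : ℝ)) (fun i => by
      have : (2:ℝ) ≤ k i := by exact_mod_cast hk i
      positivity) (fun i => by
      have : (2:ℝ) ≤ k i := by exact_mod_cast hk i
      rw [div_lt_one (by positivity)]; linarith) (fun i j hij => by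
      have e : (k i : ℝ) = k j := by
        have := congrArg (fun z : ℝ => z⁻¹) hij
        simpa using this
      exact hinj (by exact_mod_cast e))
      (g := fun i r => Complex.exp (((t i * V1 (k i) N r : ℝ) : ℂ) * Complex.I)) (fun i => CAP_expV (k i) N (t i))
  unfold XM at h2
  rw [Metric.tendsto_atTop] at h2
  obtain ⟨X₁, hX₁⟩ := h2 (ε/4) (by positivity)
  refine ⟨max X₁ (1 + ∑ i, X₀ i), fun X hX => ?_⟩
  have hs0 : 0 ≤ ∑ i, X₀ i := Finset.sum_nonneg fun i _ => by linarith [hX₀1 i]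
  have hX1 : 1 ≤ X := by linarith [(le_max_right X₁ (1 + ∑ i, X₀ i)).trans hX]
  have hX0 : 0 < X := by linarith
  have hXi : ∀ i, X₀ i ≤ X := fun i => by
    have := Finset.single_le_sum (f := X₀) (fun j _ => by linarith [hX₀1 j]) (Finset.mem_univ i)
    linarith [(le_max_right X₁ (1 + ∑ i, X₀ i)).trans hX]
  have h3 := hX₁ X ((le_max_left _ _).trans hX)
  rw [dist_eq_norm] at h1 h3 ⊢
  -- the distance between the two exponentials
  obtain ⟨G, hG⟩ : ∃ G : ℝ → ℂ, G = fun x => Complex.exp (((∑ i, t i * E (k i) (P i) x : ℝ) : ℂ) * Complex.I) := ⟨_, rfl⟩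
  obtain ⟨F, hF⟩ : ∃ F : ℝ → ℂ, F = fun x => Complex.exp (((∑ i, t i * VorSum (k i) N x : ℝ) : ℂ) * Complex.I) := ⟨_, rfl⟩
  have e1 : ∫ x in X..(2*X), (∏ i, Complex.exp (((t i * V1 (k i) N (x ^ (1 / (k i : ℝ))) : ℝ) : ℂ) * Complex.I)) =
      ∫ x in X..(2*X), F x := by
    refine intervalIntegral.integral_congr fun x hx => ?_
    rw [uIcc_of_le (by linarith)] at hx
    rw [hF]
    simp only
    rw [Complex.ofReal_sum, Finset.sum_mul, Complex.exp_sum]
    refine Finset.prod_congr rfl fun i _ => ?_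
    rw [VorSum_V1 (k i) N (by linarith [hx.1])]
  rw [e1] at h3
  have hEm : ∀ i, Measurable (E (k i) (P i)) := fun i => E_meas _ _
  have mG : Measurable G := by
    rw [hG]
    refine Complex.measurable_exp.comp ((Complex.measurable_ofReal.comp ?_).mul_const _)
    exact Finset.measurable_sum _ fun i _ => (hEm i).const_mul _
  have cF : Continuous F := by
    rw [hF]
    have : Continuous fun x => ∑ i, t i * VorSum (k i) N x :=
      continuous_finsetSum _ fun i _ => continuous_const.mul (VorSum_cont _ _)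
    fun_prop
  have iG : IntervalIntegrable G volume X (2*X) := by
    rw [intervalIntegrable_iff_integrableOn_Ioc_of_le (by linarith)]
    refine Measure.integrableOn_of_bounded (M := 1) (by simp) mG.aestronglyMeasurable (Eventually.of_forall fun x => ?_)
    rw [hG]
    simp only
    rw [Complex.norm_exp_ofReal_mul_I]
  have iF : IntervalIntegrable F volume X (2*X) := cF.intervalIntegrable _ _
  have iA : ∀ i, IntervalIntegrable (fun x => |E (k i) (P i) x - VorSum (k i) N x|) volume X (2*X) := fun i =>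
    EV_int (by have := hk i; omega) (P i) N hX1 (f := fun a b => |a - b|) (by fun_prop)
  have iS : IntervalIntegrable (fun x => ∑ i, |t i| * |E (k i) (P i) x - VorSum (k i) N x|) volume X (2*X) := by
    have := IntervalIntegrable.sum (μ := volume) (a := X) (b := 2*X) Finset.univ
      (f := fun i x => |t i| * |E (k i) (P i) x - VorSum (k i) N x|) fun i _ => (iA i).const_mul _
    refine this.congr ?_
    intro x _
    simp
  have key : ‖(∫ x in X..(2*X), G x) - ∫ x in X..(2*X), F x‖ ≤ ε/4 * X := by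
    rw [← intervalIntegral.integral_sub iG iF]
    calc ‖∫ x in X..(2*X), (G x - F x)‖ ≤ ∫ x in X..(2*X), ‖G x - F x‖ :=
          intervalIntegral.norm_integral_le_integral_norm (by linarith)
      _ ≤ ∫ x in X..(2*X), ∑ i, |t i| * |E (k i) (P i) x - VorSum (k i) N x| := by
          refine intervalIntegral.integral_mono_on (by linarith) (iG.sub iF).norm iS fun x _ => ?_
          rw [hG, hF]
          simp only
          refine (exp_lip _ _).trans ?_
          rw [← Finset.sum_sub_distrib]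
          refine (Finset.abs_sum_le_sum_abs _ _).trans (Finset.sum_le_sum fun i _ => ?_)
          rw [← mul_sub, abs_mul]
      _ = ∑ i, |t i| * ∫ x in X..(2*X), |E (k i) (P i) x - VorSum (k i) N x| := by
          rw [intervalIntegral.integral_finsetSum fun i _ => (iA i).const_mul _]
          simp_rw [intervalIntegral.integral_const_mul]
      _ ≤ ∑ i, |t i| * (ε / (4 * (T + 1)) * X) := by
          refine Finset.sum_le_sum fun i _ => ?_
          gcongr
          exact hX₀ i X (hXi i)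
      _ = T * (ε / (4 * (T + 1)) * X) := by rw [← Finset.sum_mul, hT]
      _ ≤ ε/4 * X := by
          have : T * (ε / (4 * (T + 1))) ≤ ε/4 := by
            rw [mul_div_assoc', div_le_div_iff₀ (by positivity) (by norm_num)]
            nlinarith
          nlinarith
  have key2 : ‖(∫ x in X..(2*X), G x) / X - (∫ x in X..(2*X), F x) / X‖ ≤ ε/4 := by
    rw [← sub_div, norm_div, Complex.norm_real, Real.norm_eq_abs, abs_of_pos hX0, div_le_iff₀ hX0]
    exact key
  rw [← hG]
  obtain ⟨q, hq⟩ : ∃ q : ℂ, q = ∏ i, Mc (fun r => Complex.exp (((t i * V1 (k i) N r : ℝ) : ℂ) * Complex.I)) := ⟨_, rfl⟩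
  rw [← hq] at h1 h3
  calc ‖(∫ x in X..(2*X), G x) / X - ∏ i, charFun (μ i : Measure ℝ) (t i)‖ =
        ‖((∫ x in X..(2*X), G x) / X - (∫ x in X..(2*X), F x) / X) + ((∫ x in X..(2*X), F x) / X - q) +
          (q - ∏ i, charFun (μ i : Measure ℝ) (t i))‖ := by congr 1; ring
    _ ≤ ‖(∫ x in X..(2*X), G x) / X - (∫ x in X..(2*X), F x) / X‖ + ‖(∫ x in X..(2*X), F x) / X - q‖ +
          ‖q - ∏ i, charFun (μ i : Measure ℝ) (t i)‖ := norm_add₃_le
    _ < ε := by linarith

end Pool.Agent.H592.LI
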