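import Pool.Agent.H592.LI.B5

/-!
# Joint limit law of the remainders
-/

open Filter Topology Set MeasureTheory Polynomial
open Pool.Agent.H592.PD

namespace Pool.Agent.H592.LI

open Pool.Agent.H592.LIS (VorSum MeanIs IsLaw MeanSquareLimit E)

/-- the uniform probability measure on `[X, 2X]` -/
noncomputable def lam (X : ℝ) : Measure ℝ := (ENNReal.ofReal X)⁻¹ • volume.restrict (Ioc X (2*X))

lemma lam_prob {X : ℝ} (hX : 0 < X) : IsProbabilityMeasure (lam X) := by
  constructor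
  unfold lam
  rw [Measure.smul_apply, Measure.restrict_apply_univ, Real.volume_Ioc, show 2 * X - X = X by ring, smul_eq_mul]
  exact ENNReal.inv_mul_cancel (by simpa using hX) ENNReal.ofReal_ne_top

lemma int_lam {F : Type*} [NormedAddCommGroup F] [NormedSpace ℝ F] {X : ℝ} (hX : 0 < X) (g : ℝ → F) :
    ∫ x, g x ∂(lam X) = X⁻¹ • ∫ x in X..(2*X), g x := by
  unfold lam
  rw [integral_smul_measure, ENNReal.toReal_inv, ENNReal.toReal_ofReal hX.le, intervalIntegral.integral_of_le (by linarith)]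

theorem joint_bdd {d : ℕ} {k : Fin d → ℕ} (hk : ∀ i, 2 ≤ k i) (hinj : Function.Injective k) {P : Fin d → ℝ[X]}
    (h : ∀ i, MeanSquareLimit (k i) (P i)) {μ : Fin d → ProbabilityMeasure ℝ} (hμ : ∀ i, IsLaw (k i) (μ i))
    {F : (Fin d → ℝ) → ℝ} (hF : Continuous F) {C : ℝ} (hC : ∀ y, |F y| ≤ C) :
    MeanIs (fun x => F (fun i => E (k i) (P i) x)) (∫ y, F y ∂(Measure.pi fun i => (μ i : Measure ℝ))) := by
  unfold LIS.MeanIs
  refine tendsto_of_seq_tendsto fun X hX => ?_
  -- the vector of remainders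
  obtain ⟨Ψ, hΨ⟩ : ∃ Ψ : ℝ → EuclideanSpace ℝ (Fin d), Ψ = fun x => WithLp.toLp 2 (fun i => E (k i) (P i) x) := ⟨_, rfl⟩
  have hΨm : Measurable Ψ := by
    rw [hΨ]
    refine (PiLp.continuous_toLp 2 _).measurable.comp ?_
    exact measurable_pi_lambda _ fun i => E_meas (k i) (P i)
  have hX' : ∀ n, 0 < max (X n) 1 := fun n => lt_of_lt_of_le one_pos (le_max_right _ _)
  have hpr : ∀ n, IsProbabilityMeasure ((lam (max (X n) 1)).map Ψ) := fun n => by
    have := lam_prob (hX' n)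
    exact Measure.isProbabilityMeasure_map hΨm.aemeasurable
  have hpi : IsProbabilityMeasure ((Measure.pi fun i => (μ i : Measure ℝ)).map (WithLp.toLp 2)) :=
    Measure.isProbabilityMeasure_map (PiLp.continuous_toLp 2 _).measurable.aemeasurable
  obtain ⟨ν, hν⟩ : ∃ ν : ℕ → ProbabilityMeasure (EuclideanSpace ℝ (Fin d)), ν = fun n => ⟨(lam (max (X n) 1)).map Ψ, hpr n⟩ := ⟨_, rfl⟩
  obtain ⟨ν0, hν0⟩ : ∃ ν0 : ProbabilityMeasure (EuclideanSpace ℝ (Fin d)),
    ν0 = ⟨(Measure.pi fun i => (μ i : Measure ℝ)).map (WithLp.toLp 2), hpi⟩ := ⟨_, rfl⟩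
  have hνc : ∀ n, (ν n : Measure (EuclideanSpace ℝ (Fin d))) = (lam (max (X n) 1)).map Ψ := fun n => by rw [hν]; rfl
  have hν0c : (ν0 : Measure (EuclideanSpace ℝ (Fin d))) = (Measure.pi fun i => (μ i : Measure ℝ)).map (WithLp.toLp 2) := by
    rw [hν0]; rfl
  have hXm : Tendsto (fun n => max (X n) 1) atTop atTop := tendsto_atTop_mono (fun n => le_max_left _ _) hX
  -- weak convergence
  have hw : Tendsto ν atTop (𝓝 ν0) := by
    refine ProbabilityMeasure.tendsto_of_tendsto_charFun fun t => ?_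
    have e0 : charFun (ν0 : Measure (EuclideanSpace ℝ (Fin d))) t = ∏ i, charFun (μ i : Measure ℝ) (t i) := by
      rw [hν0c]
      exact charFun_pi (μ := fun i => (μ i : Measure ℝ)) t
    have e1 : ∀ n, charFun (ν n : Measure (EuclideanSpace ℝ (Fin d))) t =
        (∫ x in (max (X n) 1)..(2 * max (X n) 1), Complex.exp (((∑ i, t i * E (k i) (P i) x : ℝ) : ℂ) * Complex.I)) /
          ((max (X n) 1 : ℝ) : ℂ) := by
      intro n
      rw [hνc, charFun_apply, integral_map hΨm.aemeasurable (by fun_prop), int_lam (hX' n), Complex.real_smul,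
        Complex.ofReal_inv, ← div_eq_inv_mul]
      congr 2
      funext x
      rw [hΨ]
      congr 3
    rw [e0]
    simp_rw [e1]
    exact (XM_exp hk hinj h hμ (fun i => t i)).comp hXm
  -- test functions
  rw [ProbabilityMeasure.tendsto_iff_forall_integral_tendsto] at hw
  have hFc : Continuous (fun y : EuclideanSpace ℝ (Fin d) => F (WithLp.ofLp y)) := hF.comp (PiLp.continuous_ofLp 2 _)
  have h2 := hw (BoundedContinuousFunction.ofNormedAddCommGroup (fun y : EuclideanSpace ℝ (Fin d) => F (WithLp.ofLp y)) hFc C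
    (fun y => by rw [Real.norm_eq_abs]; exact hC _))
  simp only [BoundedContinuousFunction.coe_ofNormedAddCommGroup] at h2
  have e2 : ∫ y, F (WithLp.ofLp y) ∂(ν0 : Measure (EuclideanSpace ℝ (Fin d))) = ∫ y, F y ∂(Measure.pi fun i => (μ i : Measure ℝ)) := by
    rw [hν0c, integral_map (PiLp.continuous_toLp 2 _).measurable.aemeasurable hFc.aestronglyMeasurable]
  rw [e2] at h2
  refine h2.congr' ?_
  filter_upwards [hX.eventually_ge_atTop 1] with n hn
  have hmax : max (X n) 1 = X n := max_eq_left hn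
  have hX0 : 0 < X n := by linarith
  rw [hνc, integral_map hΨm.aemeasurable hFc.aestronglyMeasurable, hmax, int_lam hX0, smul_eq_mul, ← div_eq_inv_mul, hΨ]
  rfl

lemma vec_meas' {d : ℕ} (k : Fin d → ℕ) (P : Fin d → ℝ[X]) : Measurable (fun x => (fun i => E (k i) (P i) x : Fin d → ℝ)) :=
  measurable_pi_lambda _ fun i => E_meas (k i) (P i)

lemma vec_int {d : ℕ} {k : Fin d → ℕ} (hk : ∀ i, 2 ≤ k i) (P : Fin d → ℝ[X]) {F : (Fin d → ℝ) → ℝ} (hF : Continuous F)
    {X : ℝ} (hX : 1 ≤ X) : IntervalIntegrable (fun x => F (fun i => E (k i) (P i) x)) volume X (2*X) := by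
  choose B hB0 hB using fun i => E_bdd (k := k i) (by have := hk i; omega) (P i) (2*X)
  have hcomp : IsCompact (Set.pi univ fun i => Icc (-B i) (B i)) := isCompact_univ_pi fun i => isCompact_Icc
  obtain ⟨C, hC⟩ := hcomp.exists_bound_of_continuousOn hF.continuousOn
  refine win_int (B := C) (hF.measurable.comp (vec_meas' k P)) (by linarith) fun x h1 h2 => ?_
  exact hC _ fun i _ => abs_le.1 (hB i x (by linarith) h2)

lemma meanIs_add {d : ℕ} {k : Fin d → ℕ} (hk : ∀ i, 2 ≤ k i) (P : Fin d → ℝ[X]) {F G : (Fin d → ℝ) → ℝ} (hF : Continuous F)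
    (hG : Continuous G) {M N : ℝ} (h1 : MeanIs (fun x => F (fun i => E (k i) (P i) x)) M)
    (h2 : MeanIs (fun x => G (fun i => E (k i) (P i) x)) N) :
    MeanIs (fun x => F (fun i => E (k i) (P i) x) + G (fun i => E (k i) (P i) x)) (M + N) := by
  unfold LIS.MeanIs at *
  refine (h1.add h2).congr' ?_
  filter_upwards [eventually_ge_atTop 1] with X hX
  rw [intervalIntegral.integral_add (vec_int hk P hF hX) (vec_int hk P hG hX)]
  ring

lemma meanIs_smul {g : ℝ → ℝ} {M : ℝ} (c : ℝ) (h : MeanIs g M) : MeanIs (fun x => c * g x) (c * M) := by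
  unfold LIS.MeanIs at *
  refine (h.const_mul c).congr fun X => ?_
  rw [intervalIntegral.integral_const_mul]
  ring

lemma meanIs_const (c : ℝ) : MeanIs (fun _ => c) c := by
  unfold LIS.MeanIs
  refine tendsto_const_nhds.congr' ?_
  filter_upwards [eventually_gt_atTop 0] with X hX
  rw [intervalIntegral.integral_const, show 2 * X - X = X by ring, smul_eq_mul]
  field_simp

/-- second moments of the product law -/
lemma pi_sq {d : ℕ} {k : Fin d → ℕ} (hk : ∀ i, 2 ≤ k i) {μ : Fin d → ProbabilityMeasure ℝ} (hμ : ∀ i, IsLaw (k i) (μ i)) (i : Fin d) :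
    Integrable (fun y : Fin d → ℝ => y i ^ 2) (Measure.pi fun i => (μ i : Measure ℝ)) ∧
      ∫ y, y i ^ 2 ∂(Measure.pi fun i => (μ i : Measure ℝ)) = vr (k i) := by
  have hmp := measurePreserving_eval (fun i => (μ i : Measure ℝ)) i
  have h1 := (law_Mn (hk i) (hμ i) (f := fun y => y ^ 2) (by fun_prop) (C := 1) (fun y => by
      rw [abs_of_nonneg (sq_nonneg y)]; linarith)).1
  refine ⟨?_, ?_⟩
  · exact (hmp.integrable_comp h1.aestronglyMeasurable).2 h1
  · rw [← (law_moments (hk i) (hμ i)).2]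
    have e := integral_map (μ := Measure.pi fun i => (μ i : Measure ℝ)) hmp.measurable.aemeasurable (f := fun y : ℝ => y ^ 2)
      (by fun_prop : Continuous fun y : ℝ => y ^ 2).aestronglyMeasurable
    rw [hmp.map_eq] at e
    exact e.symm

lemma pi_qq {d : ℕ} {k : Fin d → ℕ} (hk : ∀ i, 2 ≤ k i) {μ : Fin d → ProbabilityMeasure ℝ} (hμ : ∀ i, IsLaw (k i) (μ i)) :
    Integrable (fun y : Fin d → ℝ => 1 + qq y) (Measure.pi fun i => (μ i : Measure ℝ)) ∧
      ∫ y, (1 + qq y) ∂(Measure.pi fun i => (μ i : Measure ℝ)) = 1 + ∑ i, vr (k i) := by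
  have h1 : Integrable (qq : (Fin d → ℝ) → ℝ) (Measure.pi fun i => (μ i : Measure ℝ)) := by
    unfold qq
    exact integrable_finsetSum _ fun i _ => (pi_sq hk hμ i).1
  refine ⟨(integrable_const 1).add h1, ?_⟩
  rw [integral_add (integrable_const 1) h1, integral_const]
  have h2 : ∫ y, qq y ∂(Measure.pi fun i => (μ i : Measure ℝ)) = ∑ i, vr (k i) := by
    unfold qq
    rw [integral_finsetSum _ fun i _ => (pi_sq hk hμ i).1]
    exact Finset.sum_congr rfl fun i _ => (pi_sq hk hμ i).2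
  rw [h2]
  simp

lemma meanIs_qq {d : ℕ} {k : Fin d → ℕ} (hk : ∀ i, 2 ≤ k i) {P : Fin d → ℝ[X]} (h : ∀ i, MeanSquareLimit (k i) (P i)) :
    MeanIs (fun x => 1 + qq (fun i => E (k i) (P i) x)) (1 + ∑ i, vr (k i)) := by
  have h1 : MeanIs (fun x => qq (fun i => E (k i) (P i) x)) (∑ i, vr (k i)) := by
    unfold qq LIS.MeanIs
    have h2 : Tendsto (fun X : ℝ => ∑ i, (∫ x in X..(2*X), E (k i) (P i) x ^ 2) / X) atTop (𝓝 (∑ i, vr (k i))) :=
      tendsto_finsetSum _ fun i _ => meanIs_sq (hk i) (h i)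
    refine h2.congr' ?_
    filter_upwards [eventually_ge_atTop 1] with X hX
    rw [intervalIntegral.integral_finsetSum fun i _ => vec_int hk P (F := fun y => y i ^ 2) (by fun_prop) hX, Finset.sum_div]
  exact meanIs_add hk P (F := fun _ => 1) (G := qq) continuous_const qq_cont (meanIs_const 1) h1

/-- convergence for functions of at most quadratic growth -/
theorem joint_quad {d : ℕ} {k : Fin d → ℕ} (hk : ∀ i, 2 ≤ k i) (hinj : Function.Injective k) {P : Fin d → ℝ[X]}
    (h : ∀ i, MeanSquareLimit (k i) (P i)) {μ : Fin d → ProbabilityMeasure ℝ} (hμ : ∀ i, IsLaw (k i) (μ i))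
    {F : (Fin d → ℝ) → ℝ} (hF : Continuous F) {C : ℝ} (hC : ∀ y, |F y| ≤ C * (1 + ∑ i, y i ^ 2)) :
    MeanIs (fun x => F (fun i => E (k i) (P i) x)) (∫ y, F y ∂(Measure.pi fun i => (μ i : Measure ℝ))) := by
  obtain ⟨π, hπ⟩ : ∃ π : Measure (Fin d → ℝ), π = Measure.pi fun i => (μ i : Measure ℝ) := ⟨_, rfl⟩
  obtain ⟨hq1, hq2⟩ := pi_qq hk hμ
  have hb : ∀ {G : (Fin d → ℝ) → ℝ}, Continuous G → ∀ {B : ℝ}, (∀ y, |G y| ≤ B) →
      MeanIs (fun x => G (fun i => E (k i) (P i) x)) (∫ y, G y ∂π) := by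
    intro G hG B hB
    rw [hπ]
    exact joint_bdd hk hinj h hμ hG hB
  rw [← hπ] at hq1 hq2 ⊢
  have hprob : IsProbabilityMeasure π := by rw [hπ]; infer_instance
  have hC0 : 0 ≤ C := by
    have := (abs_nonneg _).trans (hC 0)
    simpa using this
  have hC' : ∀ y, |F y| ≤ C * (1 + qq y) := hC
  have hFi : Integrable F π := by
    refine Integrable.mono' (hq1.const_mul C) hF.aestronglyMeasurable (Eventually.of_forall fun y => ?_)
    rw [Real.norm_eq_abs]; exact hC' y
  -- tails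
  have htail : Tendsto (fun n : ℕ => ∫ y, wl (n:ℝ) y ∂π) atTop (𝓝 0) := by
    have h0 : (0:ℝ) = ∫ _y : Fin d → ℝ, (0:ℝ) ∂π := by simp
    rw [h0]
    refine tendsto_integral_of_dominated_convergence (fun y => 1 + qq y) (fun n => (wl_cont _).aestronglyMeasurable) hq1 ?_ ?_
    · intro n
      exact Eventually.of_forall fun y => by
        rw [Real.norm_eq_abs, abs_of_nonneg (wl_nonneg _ _)]; exact wl_le _ _
    · refine Eventually.of_forall fun y => ?_
      refine tendsto_const_nhds.congr' ?_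
      obtain ⟨n₀, hn₀⟩ := exists_nat_ge (qq y)
      filter_upwards [eventually_ge_atTop n₀] with n hn
      have : (n₀:ℝ) ≤ n := by exact_mod_cast hn
      unfold wl
      rw [cu_one (by linarith), sub_self, mul_zero]
  -- means of the tails
  have hwl : ∀ n : ℕ, MeanIs (fun x => wl (n:ℝ) (fun i => E (k i) (P i) x)) (∫ y, wl (n:ℝ) y ∂π) := by
    intro n
    have c1 : Continuous (fun y : Fin d → ℝ => (1 + qq y) * cu (n:ℝ) y) := (continuous_const.add qq_cont).mul (cu_cont _)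
    have b1 : ∀ y : Fin d → ℝ, |(1 + qq y) * cu (n:ℝ) y| ≤ (n:ℝ) + 2 := by
      intro y
      have hq := qq_nonneg y
      obtain ⟨h3, h4⟩ := cu_mem (n:ℝ) y
      rw [abs_of_nonneg (by positivity)]
      rcases le_or_gt (qq y) ((n:ℝ) + 1) with h5 | h5
      · nlinarith
      · rw [cu_zero h5.le, mul_zero]; positivity
    have m1 := meanIs_smul (-1) (hb c1 b1)
    have m2 := meanIs_add hk P (F := fun y => 1 + qq y) (G := fun y => -1 * ((1 + qq y) * cu (n:ℝ) y))
      (continuous_const.add qq_cont) (continuous_const.mul c1) (meanIs_qq hk h) m1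
    have i1 : Integrable (fun y : Fin d → ℝ => (1 + qq y) * cu (n:ℝ) y) π := by
      refine Integrable.mono' hq1 c1.aestronglyMeasurable (Eventually.of_forall fun y => ?_)
      have hq := qq_nonneg y
      obtain ⟨h3, h4⟩ := cu_mem (n:ℝ) y
      rw [Real.norm_eq_abs, abs_of_nonneg (by positivity)]
      nlinarith
    have e1 : ∫ y, wl (n:ℝ) y ∂π = 1 + ∑ i, vr (k i) + -1 * ∫ y, (1 + qq y) * cu (n:ℝ) y ∂π := by
      rw [← hq2, ← integral_const_mul, ← integral_add hq1 (i1.const_mul _)]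
      congr 1
      funext y
      unfold wl
      ring
    rw [e1]
    refine meanIs_congr m2 0 fun x _ => ?_
    unfold wl
    ring
  unfold LIS.MeanIs
  rw [Metric.tendsto_atTop]
  intro ε hε
  rw [Metric.tendsto_atTop] at htail
  obtain ⟨n, hn⟩ := htail (ε / (8 * (C + 1))) (by positivity)
  have hn1 := hn n le_rfl
  rw [Real.dist_eq, sub_zero] at hn1
  have hn2 := (abs_lt.1 hn1).2
  have w1 := hwl n
  unfold LIS.MeanIs at w1
  rw [Metric.tendsto_atTop] at w1
  obtain ⟨X₁, hX₁⟩ := w1 (ε / (8 * (C + 1))) (by positivity)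
  -- the truncated function
  have c2 : Continuous (fun y : Fin d → ℝ => F y * cu (n:ℝ) y) := hF.mul (cu_cont _)
  have b2 : ∀ y : Fin d → ℝ, |F y * cu (n:ℝ) y| ≤ C * ((n:ℝ) + 2) := by
    intro y
    have hq := qq_nonneg y
    obtain ⟨h3, h4⟩ := cu_mem (n:ℝ) y
    rw [abs_mul, abs_of_nonneg h3]
    rcases le_or_gt (qq y) ((n:ℝ) + 1) with h5 | h5
    · calc |F y| * cu (n:ℝ) y ≤ (C * (1 + qq y)) * 1 := by gcongr; exact hC' y
        _ ≤ C * ((n:ℝ) + 2) := by rw [mul_one]; exact mul_le_mul_of_nonneg_left (by linarith) hC0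
    · rw [cu_zero h5.le, mul_zero]; positivity
  have m3 := hb c2 b2
  unfold LIS.MeanIs at m3
  rw [Metric.tendsto_atTop] at m3
  obtain ⟨X₂, hX₂⟩ := m3 (ε/4) (by positivity)
  refine ⟨max (max X₁ X₂) 1, fun X hX => ?_⟩
  have hX1 : 1 ≤ X := (le_max_right _ _).trans hX
  have hX0 : 0 < X := by linarith
  have q1 := hX₁ X (((le_max_left _ _).trans (le_max_left _ _)).trans hX)
  have q2 := hX₂ X (((le_max_right _ _).trans (le_max_left _ _)).trans hX)
  rw [Real.dist_eq] at q1 q2 ⊢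
  have q3 := (abs_lt.1 q1).2
  have hdiff : ∀ y : Fin d → ℝ, |F y - F y * cu (n:ℝ) y| ≤ C * wl (n:ℝ) y := by
    intro y
    obtain ⟨h3, h4⟩ := cu_mem (n:ℝ) y
    have e : F y - F y * cu (n:ℝ) y = F y * (1 - cu (n:ℝ) y) := by ring
    rw [e, abs_mul, abs_of_nonneg (by linarith : 0 ≤ 1 - cu (n:ℝ) y)]
    unfold wl
    rw [← mul_assoc]
    exact mul_le_mul_of_nonneg_right (hC' y) (by linarith)
  have k1 : |(∫ x in X..(2*X), F (fun i => E (k i) (P i) x)) / X - (∫ x in X..(2*X), F (fun i => E (k i) (P i) x) *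
      cu (n:ℝ) (fun i => E (k i) (P i) x)) / X| ≤ C * ((∫ x in X..(2*X), wl (n:ℝ) (fun i => E (k i) (P i) x)) / X) := by
    rw [← sub_div, abs_div, abs_of_pos hX0, mul_div_assoc']
    gcongr
    rw [← intervalIntegral.integral_sub (vec_int hk P hF hX1) (vec_int hk P c2 hX1), ← intervalIntegral.integral_const_mul]
    refine (intervalIntegral.abs_integral_le_integral_abs (by linarith)).trans ?_
    refine intervalIntegral.integral_mono_on (by linarith) ((vec_int hk P hF hX1).sub (vec_int hk P c2 hX1)).abs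
      ((vec_int hk P (wl_cont _) hX1).const_mul _) fun x _ => hdiff _
  have iwl : Integrable (fun y : Fin d → ℝ => wl (n:ℝ) y) π := by
    refine Integrable.mono' hq1 (wl_cont _).aestronglyMeasurable (Eventually.of_forall fun y => ?_)
    rw [Real.norm_eq_abs, abs_of_nonneg (wl_nonneg _ _)]; exact wl_le _ _
  have iFc : Integrable (fun y : Fin d → ℝ => F y * cu (n:ℝ) y) π := by
    refine Integrable.mono' hFi.abs c2.aestronglyMeasurable (Eventually.of_forall fun y => ?_)
    obtain ⟨h3, h4⟩ := cu_mem (n:ℝ) y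
    rw [Real.norm_eq_abs, abs_mul, abs_of_nonneg h3]
    nlinarith [abs_nonneg (F y)]
  have k2 : |(∫ y, F y * cu (n:ℝ) y ∂π) - ∫ y, F y ∂π| ≤ C * ∫ y, wl (n:ℝ) y ∂π := by
    rw [← integral_sub iFc hFi, ← integral_const_mul]
    refine abs_integral_le_integral_abs.trans ?_
    refine integral_mono (iFc.sub hFi).abs (iwl.const_mul _) fun y => ?_
    simp only
    rw [abs_sub_comm]
    exact hdiff y
  have e5 : C * (ε / (8 * (C + 1))) ≤ ε/8 := by
    rw [mul_div_assoc', div_le_div_iff₀ (by positivity) (by norm_num)]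
    nlinarith
  have k3 : C * ((∫ x in X..(2*X), wl (n:ℝ) (fun i => E (k i) (P i) x)) / X) ≤ ε/8 + ε/8 := by
    have : (∫ x in X..(2*X), wl (n:ℝ) (fun i => E (k i) (P i) x)) / X ≤ ε / (8 * (C + 1)) + ε / (8 * (C + 1)) := by linarith
    nlinarith
  have k4 : C * ∫ y, wl (n:ℝ) y ∂π ≤ ε/8 := by nlinarith
  calc |(∫ x in X..(2*X), F (fun i => E (k i) (P i) x)) / X - ∫ y, F y ∂π| =
      |((∫ x in X..(2*X), F (fun i => E (k i) (P i) x)) / X - (∫ x in X..(2*X), F (fun i => E (k i) (P i) x) *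
      cu (n:ℝ) (fun i => E (k i) (P i) x)) / X) + ((∫ x in X..(2*X), F (fun i => E (k i) (P i) x) *
      cu (n:ℝ) (fun i => E (k i) (P i) x)) / X - ∫ y, F y * cu (n:ℝ) y ∂π) + ((∫ y, F y * cu (n:ℝ) y ∂π) - ∫ y, F y ∂π)| := by
        congr 1; ring
    _ ≤ _ := abs_add_three _ _ _
    _ < ε := by linarith

end Pool.Agent.H592.LI
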