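import Pool.Agent.H592.LI.B6

/-!
# The equivalences
-/

open Filter Topology Set MeasureTheory Polynomial
open Pool.Agent.H592.PD

namespace Pool.Agent.H592.LI

open Pool.Agent.H592.LIS (VorSum MeanIs IsLaw MeanSquareLimit E)

/-- the first moment of one side with a loss of a power -/
def SideE (e : ℝ) (k : ℕ) (P : ℝ[X]) : Prop := ∀ ε : ℝ, 0 < ε → ∃ C : ℝ, ∀ X : ℝ, 1 ≤ X →
  ∫ x in X..(2*X), max (e * E k P x) 0 ≤ C * X ^ (1 + 1 / (2 * (k:ℝ)) + ε)

lemma E_mul {k : ℕ} (P : ℝ[X]) {x : ℝ} (hx : 0 < x) : LIS.Del k P x = E k P x * x ^ (((k:ℝ) - 1) / (2 * k)) := by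
  unfold LIS.E
  field_simp

lemma side_of_sideE {k : ℕ} (hk : 2 ≤ k) {P : ℝ[X]} {e : ℝ} (h : SideE e k P) : Pool.Agent.Y853.PZ.Side e k P (1/2) := by
  have hk0 : (2:ℝ) ≤ k := by exact_mod_cast hk
  intro ε hε
  obtain ⟨C, hC⟩ := h ε hε
  obtain ⟨b, hb⟩ : ∃ b : ℝ, b = ((k:ℝ) - 1) / (2 * k) := ⟨_, rfl⟩
  have hb0 : 0 ≤ b := by rw [hb]; apply div_nonneg <;> linarith
  refine ⟨(2:ℝ) ^ b * C, fun X hX => ?_⟩
  have hX0 : 0 < X := by linarith
  have i1 : IntervalIntegrable (fun x => max (e * E k P x) 0) volume X (2*X) := by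
    obtain ⟨B, hB0, hB⟩ := E_bdd (k := k) (by omega) P (2*X)
    refine win_int (B := |e| * B) (((E_meas k P).const_mul e).max measurable_const) (by linarith) fun x h1 h2 => ?_
    have := hB x (by linarith) h2
    rw [abs_of_nonneg (le_max_right _ _)]
    refine max_le ?_ (by positivity)
    calc e * E k P x ≤ |e * E k P x| := le_abs_self _
      _ = |e| * |E k P x| := abs_mul _ _
      _ ≤ _ := by gcongr
  have hle : ∀ x ∈ Ioc X (2*X), max (e * Pool.Agent.Y853.PZ.R k P x) 0 ≤ (2*X) ^ b * max (e * E k P x) 0 := by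
    intro x hx
    have hx0 : 0 < x := by linarith [hx.1]
    have e1 : Pool.Agent.Y853.PZ.R k P x = E k P x * x ^ b := by rw [hb]; exact E_mul P hx0
    rw [e1]
    have h2 : x ^ b ≤ (2*X) ^ b := Real.rpow_le_rpow hx0.le hx.2 hb0
    have h3 : 0 < x ^ b := Real.rpow_pos_of_pos hx0 _
    refine max_le ?_ (mul_nonneg (by positivity) (le_max_right _ _))
    calc e * (E k P x * x ^ b) = x ^ b * (e * E k P x) := by ring
      _ ≤ x ^ b * max (e * E k P x) 0 := by gcongr; exact le_max_left _ _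
      _ ≤ _ := mul_le_mul_of_nonneg_right h2 (le_max_right _ _)
  rw [intervalIntegral.integral_of_le (by linarith)]
  have h4 := hC X hX
  rw [intervalIntegral.integral_of_le (by linarith)] at h4
  rw [intervalIntegrable_iff_integrableOn_Ioc_of_le (by linarith)] at i1
  calc ∫ x in Ioc X (2*X), max (e * Pool.Agent.Y853.PZ.R k P x) 0 ≤ ∫ x in Ioc X (2*X), (2*X) ^ b * max (e * E k P x) 0 := by
        refine integral_mono_of_nonneg (Eventually.of_forall fun x => le_max_right _ _) (i1.const_mul _) ?_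
        exact (ae_restrict_iff' measurableSet_Ioc).2 (Eventually.of_forall hle)
    _ = (2*X) ^ b * ∫ x in Ioc X (2*X), max (e * E k P x) 0 := integral_const_mul _ _
    _ ≤ (2*X) ^ b * (C * X ^ (1 + 1 / (2 * (k:ℝ)) + ε)) := by gcongr
    _ = (2:ℝ) ^ b * C * X ^ (1 + 1/2 + ε) := by
        rw [Real.mul_rpow (by norm_num) hX0.le]
        have e2 : X ^ (1 + 1/2 + ε) = X ^ b * X ^ (1 + 1 / (2 * (k:ℝ)) + ε) := by
          rw [← Real.rpow_add hX0, hb]
          congr 1; field_simp; ring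
        rw [e2]; ring

lemma sideE_of_sq {k : ℕ} (hk : 2 ≤ k) {P : ℝ[X]} {v : ℝ} (h : MeanIs (fun x => E k P x ^ 2) v) : SideE 1 k P := by
  have hk0 : (2:ℝ) ≤ k := by exact_mod_cast hk
  intro ε hε
  unfold LIS.MeanIs at h
  have h1 := h.eventually_le_const (lt_add_one v)
  obtain ⟨X₀, hX₀⟩ := eventually_atTop.1 h1
  obtain ⟨B, hB0, hB⟩ := E_bdd (k := k) (by omega) P (2 * X₀)
  refine ⟨B + 1 + |v + 1|, fun X hX => ?_⟩
  have hX0 : 0 < X := by linarith
  have hXX : X ≤ X ^ (1 + 1 / (2 * (k:ℝ)) + ε) := by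
    calc X = X ^ (1:ℝ) := (Real.rpow_one X).symm
      _ ≤ _ := by
        apply Real.rpow_le_rpow_of_exponent_le hX
        have : 0 < 1 / (2 * (k:ℝ)) := by positivity
        linarith
  have hC0 : 0 ≤ B + 1 + |v + 1| := by positivity
  refine le_trans ?_ (mul_le_mul_of_nonneg_left hXX hC0)
  have i1 : IntervalIntegrable (fun x => max (1 * E k P x) 0) volume X (2*X) := EV_int (by omega) P 0 hX (f := fun a _ => max (1 * a) 0) (by fun_prop)
  have i2 : IntervalIntegrable (fun x => E k P x ^ 2) volume X (2*X) := EV_int (by omega) P 0 hX (f := fun a _ => a ^ 2) (by fun_prop)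
  rcases le_or_gt X₀ X with hc | hc
  · have h2 := hX₀ X hc
    rw [div_le_iff₀ hX0] at h2
    calc ∫ x in X..(2*X), max (1 * E k P x) 0 ≤ ∫ x in X..(2*X), (1 + E k P x ^ 2) := by
          refine intervalIntegral.integral_mono_on (by linarith) i1 (intervalIntegrable_const.add i2) fun x _ => ?_
          rw [one_mul]
          refine max_le ?_ (by positivity)
          nlinarith [sq_nonneg (E k P x - 1)]
      _ = X + ∫ x in X..(2*X), E k P x ^ 2 := by
          rw [intervalIntegral.integral_add intervalIntegrable_const i2, intervalIntegral.integral_const, smul_eq_mul]; ring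
      _ ≤ X + (v + 1) * X := by gcongr
      _ ≤ (B + 1 + |v + 1|) * X := by
          have : (v + 1) * X ≤ |v + 1| * X := by gcongr; exact le_abs_self _
          nlinarith
  · calc ∫ x in X..(2*X), max (1 * E k P x) 0 ≤ ∫ _x in X..(2*X), B := by
          refine intervalIntegral.integral_mono_on (by linarith) i1 intervalIntegrable_const fun x hx => ?_
          rw [one_mul]
          exact max_le ((le_abs_self _).trans (hB x (by linarith [hx.1]) (by linarith [hx.2]))) hB0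
      _ = B * X := by rw [intervalIntegral.integral_const, smul_eq_mul]; ring
      _ ≤ (B + 1 + |v + 1|) * X := by
          have : 0 ≤ |v + 1| := abs_nonneg _
          nlinarith

/-- the joint law -/
def JointLaw (P : ℕ → ℝ[X]) (μ : ℕ → ProbabilityMeasure ℝ) : Prop :=
  ∀ (d : ℕ) (k : Fin d → ℕ), Function.Injective k → (∀ i, 2 ≤ k i) → ∀ F : (Fin d → ℝ) → ℝ, Continuous F →
    (∃ C : ℝ, ∀ y, |F y| ≤ C * (1 + ∑ i, y i ^ 2)) →
      MeanIs (fun x => F (fun i => E (k i) (P (k i)) x)) (∫ y, F y ∂(Measure.pi fun i => (μ (k i) : Measure ℝ)))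

theorem main_tfae {P : ℕ → ℝ[X]} (hP : ∀ k : ℕ, 1 ≤ k → LIS.IsMain k (P k)) {μ : ℕ → ProbabilityMeasure ℝ}
    (hμ : ∀ k : ℕ, 2 ≤ k → IsLaw k (μ k)) :
    List.TFAE [LIS.Lindelof,
      ∀ k : ℕ, 2 ≤ k → MeanSquareLimit k (P k),
      JointLaw P μ,
      ∀ k : ℕ, 2 ≤ k → MeanIs (fun x => E k (P k) x ^ 2) (vr k),
      {K : ℕ | 2 ≤ K ∧ (SideE 1 K (P K) ∨ SideE (-1) K (P K))}.Infinite] := by
  have hP' : ∀ k : ℕ, 1 ≤ k → Pool.Agent.Y853.PZ.IsMain k (P k) := hP
  tfae_have 1 → 2 := by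
    intro h k hk
    exact close_x hk (hP' k (by omega)) (Pool.Agent.Y853.PZ.small_of_lindelof h)
  tfae_have 2 → 3 := by
    intro h d k hinj hk F hF ⟨C, hC⟩
    exact joint_quad hk hinj (P := fun i => P (k i)) (fun i => h _ (hk i)) (μ := fun i => μ (k i)) (fun i => hμ _ (hk i)) hF hC
  tfae_have 3 → 4 := by
    intro h k hk
    have h1 := h 1 (fun _ => k) (fun i j _ => Subsingleton.elim i j) (fun _ => hk) (fun y => y 0 ^ 2) (by fun_prop) ⟨1, fun y => by
      rw [abs_of_nonneg (sq_nonneg _)]; simp⟩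
    have h2 := (pi_sq (k := fun _ : Fin 1 => k) (fun _ => hk) (μ := fun _ => μ k) (fun _ => hμ k hk) 0).2
    rw [h2] at h1
    exact h1
  tfae_have 4 → 5 := by
    intro h
    refine (Set.Ici_infinite 2).mono fun K hK => ?_
    exact ⟨hK, Or.inl (sideE_of_sq hK (h K hK))⟩
  tfae_have 5 → 1 := by
    intro h
    apply Pool.Agent.Y853.PZ.lindelof_of_small
    refine Pool.Agent.Y853.PZ.small_of_inf (P := P) hP' (by norm_num) (h.mono ?_)
    rintro K ⟨hK, hs⟩
    refine ⟨by omega, ?_⟩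
    rcases hs with hs | hs
    · exact ⟨1, by norm_num, side_of_sideE hK hs⟩
    · exact ⟨-1, by norm_num, side_of_sideE hK hs⟩
  tfae_finish

end Pool.Agent.H592.LI
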